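import Mathlib

set_option autoImplicit false

/-! The space `ℓ¹(ℤ, ℂ)` with convolution and evaluation -/

namespace Pool.Agent.H399R4

open Set Filter Topology
open scoped NNReal ENNReal ComplexConjugate

noncomputable abbrev A := lp (fun _ : ℤ => ℂ) 1

lemma A_summable (a : A) : Summable (fun n => ‖a n‖) := by
  have h := (lp.memℓp a).summable (by norm_num)
  simpa using h

lemma A_norm (a : A) : ‖a‖ = ∑' n, ‖a n‖ := by
  have h := lp.norm_eq_tsum_rpow (p := 1) (by norm_num) a
  simpa using h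

noncomputable def mkA (f : ℤ → ℂ) (hf : Summable fun n => ‖f n‖) : A :=
  ⟨f, by apply memℓp_gen; simpa using hf⟩

@[simp] lemma mkA_apply (f : ℤ → ℂ) (hf : Summable fun n => ‖f n‖) (n : ℤ) : mkA f hf n = f n := rfl

lemma A_ext {a b : A} (h : ∀ n, a n = b n) : a = b := lp.ext (funext h)

@[simp] lemma A_add (a b : A) (n : ℤ) : (a + b) n = a n + b n := rfl
@[simp] lemma A_sub (a b : A) (n : ℤ) : (a - b) n = a n - b n := rfl
@[simp] lemma A_neg (a : A) (n : ℤ) : (-a) n = -a n := rfl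
@[simp] lemma A_smulR (c : ℝ) (a : A) (n : ℤ) : (c • a) n = c * a n := by
  change c • a n = _
  rw [Complex.real_smul]
@[simp] lemma A_smulC (c : ℂ) (a : A) (n : ℤ) : (c • a) n = c * a n := rfl
@[simp] lemma A_zero (n : ℤ) : (0 : A) n = 0 := rfl

lemma A_coord_le (a : A) (n : ℤ) : ‖a n‖ ≤ ‖a‖ := by
  rw [A_norm]
  exact (A_summable a).le_tsum n (fun _ _ => norm_nonneg _)

/-- coordinate functional -/
noncomputable def coord (n : ℤ) : A →L[ℝ] ℂ :=
  LinearMap.mkContinuous
    { toFun := fun a => a n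
      map_add' := fun a b => rfl
      map_smul' := fun c a => by simp } 1 (fun a => by rw [one_mul]; exact A_coord_le a n)

@[simp] lemma coord_apply (n : ℤ) (a : A) : coord n a = a n := rfl

lemma neg_summable {f : ℤ → ℝ} (hf : Summable f) : Summable (fun n => f (-n)) :=
  (Equiv.neg ℤ).summable_iff.2 hf

lemma neg_tsum (f : ℤ → ℝ) : ∑' n, f (-n) = ∑' n, f n := (Equiv.neg ℤ).tsum_eq f

/-- general coordinate operator -/
noncomputable def opFun (α β γ δ : ℤ → ℂ) (a : ℤ → ℂ) (n : ℤ) : ℂ :=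
  α n * a n + β n * conj (a n) + γ n * a (-n) + δ n * conj (a (-n))

lemma opFun_bound {α β γ δ : ℤ → ℂ} {C : ℝ} (h : ∀ n, ‖α n‖ ≤ C ∧ ‖β n‖ ≤ C ∧ ‖γ n‖ ≤ C ∧ ‖δ n‖ ≤ C)
    (a : ℤ → ℂ) (n : ℤ) : ‖opFun α β γ δ a n‖ ≤ 2 * C * (‖a n‖ + ‖a (-n)‖) := by
  obtain ⟨h1, h2, h3, h4⟩ := h n
  unfold opFun
  refine (norm_add_le _ _).trans ?_
  have e1 : ‖α n * a n + β n * conj (a n) + γ n * a (-n)‖ ≤ C * ‖a n‖ + C * ‖a n‖ + C * ‖a (-n)‖ := by
    refine (norm_add_le _ _).trans ?_
    have : ‖α n * a n + β n * conj (a n)‖ ≤ C * ‖a n‖ + C * ‖a n‖ := by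
      refine (norm_add_le _ _).trans ?_
      rw [norm_mul, norm_mul, RCLike.norm_conj]
      gcongr
    rw [norm_mul (γ n)]
    gcongr
  have e2 : ‖δ n * conj (a (-n))‖ ≤ C * ‖a (-n)‖ := by
    rw [norm_mul, RCLike.norm_conj]
    gcongr
  linarith

lemma opFun_summable {α β γ δ : ℤ → ℂ} {C : ℝ}
    (h : ∀ n, ‖α n‖ ≤ C ∧ ‖β n‖ ≤ C ∧ ‖γ n‖ ≤ C ∧ ‖δ n‖ ≤ C) (a : A) :
    Summable (fun n => ‖opFun α β γ δ a n‖) := by
  refine Summable.of_nonneg_of_le (fun _ => norm_nonneg _) (fun n => opFun_bound h a n) ?_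
  exact ((A_summable a).add (neg_summable (A_summable a))).mul_left _

/-- bounded coefficient data -/
structure Coef where
  α : ℤ → ℂ
  β : ℤ → ℂ
  γ : ℤ → ℂ
  δ : ℤ → ℂ
  C : ℝ
  h : ∀ n, ‖α n‖ ≤ C ∧ ‖β n‖ ≤ C ∧ ‖γ n‖ ≤ C ∧ ‖δ n‖ ≤ C

lemma Coef.C_nonneg (c : Coef) : 0 ≤ c.C := (norm_nonneg _).trans (c.h 0).1

/-- the operator with given coefficients -/
noncomputable def op (c : Coef) : A →L[ℝ] A :=
  LinearMap.mkContinuous
    { toFun := fun a => mkA (opFun c.α c.β c.γ c.δ a) (opFun_summable c.h a)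
      map_add' := fun a b => by
        apply A_ext; intro n
        simp only [mkA_apply, A_add, opFun, map_add]
        ring
      map_smul' := fun r a => by
        apply A_ext; intro n
        simp only [mkA_apply, A_smulR, opFun, map_mul, Complex.conj_ofReal, RingHom.id_apply]
        ring } (4 * c.C) (fun a => by
      rw [A_norm]
      simp only [LinearMap.coe_mk, AddHom.coe_mk, mkA_apply]
      have hs := A_summable a
      calc ∑' n, ‖opFun c.α c.β c.γ c.δ a n‖ ≤ ∑' n, 2 * c.C * (‖a n‖ + ‖a (-n)‖) :=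
            (opFun_summable c.h a).tsum_le_tsum (fun n => opFun_bound c.h a n)
              ((hs.add (neg_summable hs)).mul_left _)
        _ = 4 * c.C * ‖a‖ := by
          rw [tsum_mul_left, hs.tsum_add (neg_summable hs), neg_tsum (fun n => ‖a n‖), A_norm]
          ring)

lemma op_apply (c : Coef) (a : A) (n : ℤ) :
    op c a n = c.α n * a n + c.β n * conj (a n) + c.γ n * a (-n) + c.δ n * conj (a (-n)) := rfl

/-- exponentials -/
noncomputable def ex (n : ℤ) (t : ℝ) : ℂ := Complex.exp (((n : ℝ) * t : ℝ) * Complex.I)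

lemma ex_norm (n : ℤ) (t : ℝ) : ‖ex n t‖ = 1 := Complex.norm_exp_ofReal_mul_I _

lemma ex_add (m n : ℤ) (t : ℝ) : ex (m + n) t = ex m t * ex n t := by
  unfold ex
  rw [← Complex.exp_add]
  congr 1
  push_cast
  ring

lemma ex_conj (n : ℤ) (t : ℝ) : conj (ex n t) = ex (-n) t := by
  unfold ex
  rw [← Complex.exp_conj]
  congr 1
  simp

lemma ex_shift (n : ℤ) (t s : ℝ) : ex n (t + s) = ex n t * ex n s := by
  unfold ex
  rw [← Complex.exp_add]
  congr 1
  push_cast
  ring

lemma ex_neg (n : ℤ) (t : ℝ) : ex n (-t) = ex (-n) t := by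
  unfold ex
  congr 1
  push_cast
  ring

lemma ex_zero (t : ℝ) : ex 0 t = 1 := by
  unfold ex; simp

lemma ev_summable (a : A) (t : ℝ) : Summable (fun n => ‖a n * ex n t‖) := by
  simpa [norm_mul, ex_norm] using A_summable a

/-- evaluation -/
noncomputable def ev (t : ℝ) : A →L[ℝ] ℂ :=
  LinearMap.mkContinuous
    { toFun := fun a => ∑' n, a n * ex n t
      map_add' := fun a b => by
        rw [← (ev_summable a t).of_norm.tsum_add (ev_summable b t).of_norm]
        congr 1; ext n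
        simp only [A_add]
        ring
      map_smul' := fun r a => by
        simp only [A_smulR, RingHom.id_apply, Complex.real_smul]
        rw [← tsum_mul_left]
        congr 1; ext n
        ring } 1 (fun a => by
      simp only [LinearMap.coe_mk, AddHom.coe_mk, one_mul]
      rw [A_norm]
      refine (norm_tsum_le_tsum_norm (ev_summable a t)).trans (le_of_eq ?_)
      congr 1; ext n
      rw [norm_mul, ex_norm, mul_one])

lemma ev_apply (t : ℝ) (a : A) : ev t a = ∑' n, a n * ex n t := rfl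

lemma ev_le (t : ℝ) (a : A) : ‖ev t a‖ ≤ ‖a‖ := by
  rw [ev_apply, A_norm]
  refine (norm_tsum_le_tsum_norm (ev_summable a t)).trans (le_of_eq ?_)
  congr 1; ext n
  rw [norm_mul, ex_norm, mul_one]

lemma ev_smulC (t : ℝ) (c : ℂ) (a : A) : ev t (c • a) = c * ev t a := by
  rw [ev_apply, ev_apply, ← tsum_mul_left]
  congr 1; ext n
  simp only [A_smulC]
  ring

/-- finitely supported elements -/
noncomputable def sg (k : ℤ) : A := mkA (fun n => if n = k then 1 else 0) (by
  apply summable_of_ne_finset_zero (s := {k})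
  intro b hb
  simp at hb
  simp [hb])

lemma sg_apply (k n : ℤ) : sg k n = if n = k then 1 else 0 := rfl

lemma ev_sg (k : ℤ) (t : ℝ) : ev t (sg k) = ex k t := by
  rw [ev_apply, tsum_eq_single k]
  · simp [sg_apply]
  · intro n hn
    simp [sg_apply, hn]

/-! convolution -/

lemma conv_summable2 (a b : A) : Summable (fun q : ℤ × ℤ => ‖a q.1‖ * ‖b q.2‖) :=
  (A_summable a).mul_of_nonneg (A_summable b) (fun _ => norm_nonneg _) (fun _ => norm_nonneg _)

/-- the shear `(k, n) ↦ (k, n - k)` -/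
def shear : ℤ × ℤ ≃ ℤ × ℤ where
  toFun q := (q.2, q.1 - q.2)
  invFun q := (q.1 + q.2, q.1)
  left_inv q := by simp
  right_inv q := by simp

lemma conv_summable3 (a b : A) : Summable (fun q : ℤ × ℤ => ‖a q.2‖ * ‖b (q.1 - q.2)‖) :=
  (shear.summable_iff (f := fun q : ℤ × ℤ => ‖a q.1‖ * ‖b q.2‖)).2 (conv_summable2 a b)

lemma conv_term_summable (a b : A) (n : ℤ) : Summable (fun k => ‖a k * b (n - k)‖) := by
  have h := (conv_summable3 a b).prod_factor n
  simpa [norm_mul] using h

noncomputable def convFun (a b : ℤ → ℂ) (n : ℤ) : ℂ := ∑' k, a k * b (n - k)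

lemma conv_summable4 (a b : A) : Summable (fun n => ∑' k, ‖a k‖ * ‖b (n - k)‖) := by
  have h := (conv_summable3 a b)
  exact h.prod

lemma conv_le (a b : A) (n : ℤ) : ‖convFun a b n‖ ≤ ∑' k, ‖a k‖ * ‖b (n - k)‖ := by
  unfold convFun
  refine (norm_tsum_le_tsum_norm (conv_term_summable a b n)).trans (le_of_eq ?_)
  congr 1; ext k
  rw [norm_mul]

lemma conv_summable (a b : A) : Summable (fun n => ‖convFun a b n‖) :=
  Summable.of_nonneg_of_le (fun _ => norm_nonneg _) (conv_le a b) (conv_summable4 a b)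

lemma conv_norm (a b : A) : ∑' n, ‖convFun a b n‖ ≤ ‖a‖ * ‖b‖ := by
  calc ∑' n, ‖convFun a b n‖ ≤ ∑' n, ∑' k, ‖a k‖ * ‖b (n - k)‖ :=
        (conv_summable a b).tsum_le_tsum (conv_le a b) (conv_summable4 a b)
    _ = ∑' q : ℤ × ℤ, ‖a q.2‖ * ‖b (q.1 - q.2)‖ := ((conv_summable3 a b).tsum_prod).symm
    _ = ∑' q : ℤ × ℤ, ‖a q.1‖ * ‖b q.2‖ := shear.tsum_eq (fun q : ℤ × ℤ => ‖a q.1‖ * ‖b q.2‖)
    _ = ‖a‖ * ‖b‖ := by
      rw [A_norm, A_norm]
      exact ((A_summable a).tsum_mul_tsum (A_summable b) (conv_summable2 a b)).symm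

/-- convolution as a bilinear map -/
noncomputable def cv : A →L[ℝ] A →L[ℝ] A :=
  LinearMap.mkContinuous₂
    (LinearMap.mk₂ ℝ (fun a b => mkA (convFun a b) (conv_summable a b))
      (fun a a' b => by
        apply A_ext; intro n
        simp only [mkA_apply, A_add, convFun]
        rw [← (conv_term_summable a b n).of_norm.tsum_add (conv_term_summable a' b n).of_norm]
        congr 1; ext k; ring)
      (fun c a b => by
        apply A_ext; intro n
        simp only [mkA_apply, A_smulR, convFun]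
        rw [← tsum_mul_left]
        congr 1; ext k; ring)
      (fun a b b' => by
        apply A_ext; intro n
        simp only [mkA_apply, A_add, convFun]
        rw [← (conv_term_summable a b n).of_norm.tsum_add (conv_term_summable a b' n).of_norm]
        congr 1; ext k; ring)
      (fun c a b => by
        apply A_ext; intro n
        simp only [mkA_apply, A_smulR, convFun]
        rw [← tsum_mul_left]
        congr 1; ext k; ring)) 1
    (fun a b => by
      rw [one_mul, A_norm]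
      exact conv_norm a b)

lemma cv_apply (a b : A) (n : ℤ) : cv a b n = ∑' k, a k * b (n - k) := rfl

lemma ev_cv (t : ℝ) (a b : A) : ev t (cv a b) = ev t a * ev t b := by
  have h1 : Summable (fun q : ℤ × ℤ => (a q.1 * ex q.1 t) * (b q.2 * ex q.2 t)) := by
    apply Summable.of_norm
    have := conv_summable2 a b
    refine this.congr (fun q => ?_)
    simp [norm_mul, ex_norm]
  have h2 : Summable (fun q : ℤ × ℤ => (a q.2 * ex q.2 t) * (b (q.1 - q.2) * ex (q.1 - q.2) t)) :=
    (shear.summable_iff (f := fun q : ℤ × ℤ => (a q.1 * ex q.1 t) * (b q.2 * ex q.2 t))).2 h1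
  rw [ev_apply, ev_apply, ev_apply,
    (ev_summable a t).of_norm.tsum_mul_tsum (ev_summable b t).of_norm h1,
    ← shear.tsum_eq (fun q : ℤ × ℤ => (a q.1 * ex q.1 t) * (b q.2 * ex q.2 t))]
  change _ = ∑' q : ℤ × ℤ, (a q.2 * ex q.2 t) * (b (q.1 - q.2) * ex (q.1 - q.2) t)
  rw [h2.tsum_prod]
  congr 1; ext n
  rw [cv_apply, ← tsum_mul_right]
  congr 1; ext k
  have : ex n t = ex k t * ex (n - k) t := by
    rw [← ex_add]; congr 1; ring
  rw [this]
  ring

lemma cv_sg_zero (a : A) : cv a (sg 0) = a := by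
  apply A_ext; intro n
  rw [cv_apply, tsum_eq_single n]
  · simp [sg_apply]
  · intro k hk
    have : n - k ≠ 0 := fun h => hk (by omega)
    simp [sg_apply, this]

lemma sg_zero_cv (a : A) : cv (sg 0) a = a := by
  apply A_ext; intro n
  rw [cv_apply, tsum_eq_single 0]
  · simp [sg_apply]
  · intro k hk
    simp [sg_apply, hk]

end Pool.Agent.H399R4
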