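import Pool.Agent.H399R4.L9

set_option autoImplicit false

namespace Pool.Agent.H399R4

open Set Filter Topology MeasureTheory
open scoped NNReal ENNReal ComplexConjugate

lemma cv_smulC_left (z : ℂ) (a b : A) : cv (z • a) b = z • cv a b := by
  apply A_ext; intro n
  rw [cv_apply, A_smulC, cv_apply, ← tsum_mul_left]
  congr 1; ext k
  rw [A_smulC]; ring
lemma cv_smulC_right (z : ℂ) (a b : A) : cv a (z • b) = z • cv a b := by
  apply A_ext; intro n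
  rw [cv_apply, A_smulC, cv_apply, ← tsum_mul_left]
  congr 1; ext k
  rw [A_smulC]; ring
lemma cj_smulC (z : ℂ) (a : A) : cj (z • a) = conj z • cj a := by
  apply A_ext; intro n
  rw [cj_apply, A_smulC, A_smulC, cj_apply, map_mul]
lemma cD_smulC (z : ℂ) (a : A) : cD (z • a) = (D1 * z) • a := by
  apply A_ext; intro n
  rw [cD_apply, A_smulC, A_smulC, mul_assoc]
lemma cDb_smulC (z : ℂ) (a : A) : cDb (z • a) = (conj D1 * z) • a := by
  apply A_ext; intro n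
  rw [cDb_apply, A_smulC, A_smulC, mul_assoc]
lemma realC (r : ℝ) (a : A) : r • a = (r : ℂ) • a := by
  apply A_ext; intro n
  rw [A_smulR, A_smulC]

lemma m1_1 : m1 1 = 0 := by unfold m1; norm_num
lemma m1_m1 : m1 (-1) = 1 - zt ^ 2 := by unfold m1; norm_num
lemma m2_1 : m2 1 = 1 - zt ^ 2 := by unfold m2; norm_num
lemma m2_m1 : m2 (-1) = 1 - zt := by unfold m2; norm_num

lemma tht_Y0 : tht Y0 Om0 = sg 1 + sg (-1) := by
  unfold tht
  rw [chi_Y0]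
  have : Pi0 (sg 1 + sg (-1)) = 0 := by
    rw [map_add]
    unfold Pi0
    rw [mulC_sg, mulC_sg]
    norm_num
  rw [this, smul_zero, add_zero]

lemma del_X0 : del X0 Om0 = (-(y0 * p0)) • sg 1 + (3 * p0) • sg (-1) := by
  unfold del
  rw [eta_X0]
  have : Pi1 ((-y0) • sg 1 + (3 * p0) • sg (-1)) = (-y0) • sg 1 := by
    rw [map_add, map_smul, map_smul]
    unfold Pi1
    rw [mulC_sg, mulC_sg]
    norm_num
  rw [this]
  have h : 3 * mu Om0 = p0 - 1 := by rw [mu_Om0]; unfold p0; ring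
  rw [h]
  module

lemma sgt_X0 : sgt X0 0 Om0 = (-(1/2) * (3 * p0 - y0 * p0)) • (sg 1 + sg (-1)) := by
  unfold sgt
  rw [del_X0, map_add, map_smul, map_smul, cj_sg, cj_sg, neg_neg]
  module

lemma del1_X0 : del1 X0 = ((3 * p0 : ℝ) * (1 - zt ^ 2) : ℂ) • sg (-1) := by
  unfold del1
  rw [eta_X0, map_add, map_smul, map_smul]
  unfold M1
  rw [mulC_sg, mulC_sg, m1_1, m1_m1, zero_smul, smul_zero, zero_add, realC, smul_smul]

lemma conj_zt2 : conj (1 - zt ^ 2 : ℂ) = 1 - zt := by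
  rw [map_sub, map_one, ← zt_conj, Complex.conj_conj]
lemma conj_D1 : conj D1 = 1 - zt ^ 2 := by
  unfold D1
  rw [map_sub, map_one, zt_conj]

lemma tat_X0 : tat X0 0 = ((-(s0 / 6) * (3 * p0) : ℝ) * (1 - zt) ^ 2 : ℂ) • sg 1 +
    ((-(s0 / 6) * (3 * p0) : ℝ) * (1 - zt ^ 2) ^ 2 : ℂ) • sg (-1) := by
  unfold tat
  rw [del1_X0, cj_smulC, cj_sg, cD_smulC, cDb_smulC, map_mul, Complex.conj_ofReal, conj_zt2, conj_D1, neg_neg,
    zero_sub, realC, smul_add, smul_smul, smul_smul, neg_add, ← neg_smul, ← neg_smul]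
  congr 2
  · unfold D1; push_cast; ring
  · push_cast; ring

lemma tht1_Y0 : tht1 Y0 = (1 - zt ^ 2 : ℂ) • sg 1 + (1 - zt : ℂ) • sg (-1) := by
  unfold tht1
  rw [chi_Y0, map_add]
  unfold M2
  rw [mulC_sg, mulC_sg, m2_1, m2_m1]

lemma cube_sum : (1 - zt : ℂ) ^ 3 + (1 - zt ^ 2) ^ 3 = 0 := by
  rw [one_sub_zt_eq, one_sub_zt2_eq]
  apply Complex.ext
  · simp [pow_succ]
    have := r3_sq
    nlinarith
  · simp [pow_succ]
    ring

/-- the second order forcing of the vertical equation -/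
noncomputable def ww : A := (3:ℝ) • cv (tht Y0 Om0) (sgt X0 0 Om0) +
  (2 * mu Om0) • re' (cv (tht1 Y0) ((3 * s0 ^ 2) • tat X0 0))

lemma sg_mod {k n : ℤ} (hn : n % 3 = 0) (hk : k % 3 ≠ 0) : sg k n = 0 := by
  rw [sg_apply, if_neg]
  intro h; subst h; exact hk hn

lemma cv_two (a₁ b₁ a₂ b₂ : ℂ) : cv (a₁ • sg 1 + b₁ • sg (-1)) (a₂ • sg 1 + b₂ • sg (-1)) =
    (a₁ * a₂) • sg 2 + (a₁ * b₂ + b₁ * a₂) • sg 0 + (b₁ * b₂) • sg (-2) := by
  rw [map_add cv, _root_.add_apply, map_add, map_add]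
  simp only [cv_smulC_left, cv_smulC_right, cv_sg, smul_smul]
  have h1 : (1:ℤ) + 1 = 2 := by norm_num
  have h2 : (1:ℤ) + -1 = 0 := by norm_num
  have h3 : (-1:ℤ) + 1 = 0 := by norm_num
  have h4 : (-1:ℤ) + -1 = -2 := by norm_num
  rw [h1, h2, h3, h4]
  module

lemma sg_20 : sg 2 0 = 0 := by rw [sg_apply]; norm_num
lemma sg_m20 : sg (-2) 0 = 0 := by rw [sg_apply]; norm_num
lemma sg_00 : sg 0 0 = 1 := by rw [sg_apply]; norm_num

lemma inner_zero : cv (tht1 Y0) ((3 * s0 ^ 2) • tat X0 0) 0 = 0 := by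
  rw [realC, cv_smulC_right, A_smulC, tht1_Y0, tat_X0, cv_two, A_add, A_add, A_smulC, A_smulC, A_smulC,
    sg_20, sg_00, sg_m20]
  have h := cube_sum
  have e2 : ((1 - zt ^ 2 : ℂ) * ((-(s0 / 6) * (3 * p0) : ℝ) * (1 - zt ^ 2) ^ 2) +
      (1 - zt) * ((-(s0 / 6) * (3 * p0) : ℝ) * (1 - zt) ^ 2) : ℂ) =
      (-(s0 / 6) * (3 * p0) : ℝ) * ((1 - zt : ℂ) ^ 3 + (1 - zt ^ 2) ^ 3) := by ring
  rw [e2, h]
  ring

lemma ww_zero : ww 0 = ((-(3 * p0 * (3 - y0)) : ℝ) : ℂ) := by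
  unfold ww
  rw [A_add, A_smulR, A_smulR, re'_apply, inner_zero]
  have e1 : cv (tht Y0 Om0) (sgt X0 0 Om0) = (-(1/2) * (3 * p0 - y0 * p0)) • (sg 2 + (2:ℝ) • sg 0 + sg (-2)) := by
    rw [tht_Y0, sgt_X0, map_smul, map_add, map_add, _root_.add_apply, _root_.add_apply, cv_sg, cv_sg, cv_sg, cv_sg]
    norm_num
    module
  rw [e1, A_smulR, A_add, A_add, A_smulR, sg_20, sg_00, sg_m20]
  push_cast
  simp
  ring

lemma ww_other {n : ℤ} (h3 : n % 3 = 0) (h0 : n ≠ 0) : ww n = 0 := by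
  unfold ww
  rw [tht_Y0, sgt_X0, tht1_Y0, tat_X0]
  have e1 : cv (sg 1 + sg (-1)) ((-(1/2) * (3 * p0 - y0 * p0)) • (sg 1 + sg (-1))) =
      (-(1/2) * (3 * p0 - y0 * p0)) • (sg 2 + (2:ℝ) • sg 0 + sg (-2)) := by
    rw [map_smul, map_add, map_add, _root_.add_apply, _root_.add_apply, cv_sg, cv_sg, cv_sg, cv_sg]
    norm_num
    module
  have s2 : sg 2 n = 0 := sg_mod h3 (by norm_num)
  have sm2 : sg (-2) n = 0 := sg_mod h3 (by norm_num)
  have s00 : sg 0 n = 0 := by rw [sg_apply, if_neg h0]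
  rw [e1, realC (3 * s0 ^ 2), cv_smulC_right, map_add cv, _root_.add_apply]
  simp only [map_add, cv_smulC_left, cv_smulC_right, cv_sg, A_add, A_smulR, A_smulC, re'_apply]
  norm_num [s2, sm2, s00]

end Pool.Agent.H399R4
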