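import Pool.Agent.H399R4.L10

set_option autoImplicit false

namespace Pool.Agent.H399R4

open Set Filter Topology MeasureTheory
open scoped NNReal ENNReal ComplexConjugate

lemma cv_hasDeriv {f g : ℝ → A} {f' g' : A} {x : ℝ} (hf : HasDerivAt f f' x) (hg : HasDerivAt g g' x) :
    HasDerivAt (fun t => cv (f t) (g t)) (cv f' (g x) + cv (f x) g') x := by
  have h1 : HasDerivAt (fun t => cv (f t)) (cv f') x := cv.hasFDerivAt.comp_hasDerivAt x hf
  exact h1.clm_apply hg

lemma line_deriv (a b : A) : HasDerivAt (fun e : ℝ => a + e • b) b 0 := by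
  simpa using ((hasDerivAt_id (0:ℝ)).smul_const b).const_add a

lemma cube_deriv (c : ℝ) (b : A) :
    HasDerivAt (fun e : ℝ => cv (c • one + e • b) (cv (c • one + e • b) (c • one + e • b))) ((3 * c ^ 2) • b) 0 := by
  have h := line_deriv (c • one) b
  have h2 := cv_hasDeriv h (cv_hasDeriv h h)
  refine h2.congr_deriv ?_
  simp only [zero_smul, add_zero, sone_cv, cv_sone, smul_smul]
  module

lemma path_e : HasDerivAt (fun e : ℝ => G (e, U0)) (DG (1, 0)) 0 := by
  have h1 : HasDerivAt (fun e : ℝ => (e, U0)) ((1:ℝ), (0:E)) 0 :=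
    (hasDerivAt_id (0:ℝ)).prodMk (hasDerivAt_const _ _)
  have h2 : HasFDerivAt G DG ((0:ℝ), U0) := G_strict.hasFDerivAt
  exact h2.comp_hasDerivAt (0:ℝ) h1

lemma DG_e2 : (DG (1, 0)).2.1 = -pe ww := by
  have h1 := path_e
  set c := (ContinuousLinearMap.fst ℝ A (A × A × ℝ × ℝ)).comp (ContinuousLinearMap.snd ℝ A (A × A × A × ℝ × ℝ)) with hc
  have h2 := c.hasFDerivAt.comp_hasDerivAt (0:ℝ) h1
  have h3 : (⇑c ∘ fun e : ℝ => G (e, U0)) = fun e : ℝ =>
      pe (Om0 ^ 2 • K2 (pe Y0) - (cv (tht Y0 Om0) (cv ((1:ℝ) • one + e • sgt X0 0 Om0)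
        (cv ((1:ℝ) • one + e • sgt X0 0 Om0) ((1:ℝ) • one + e • sgt X0 0 Om0))) +
      (2 * mu Om0) • re' (cv (tht1 Y0) (cv (s0 • one + e • tat X0 0)
        (cv (s0 • one + e • tat X0 0) (s0 • one + e • tat X0 0)))))) + y0 • (Y0 - pe Y0) := by
    ext1 e
    have : (⇑c ∘ fun e : ℝ => G (e, U0)) e = G2 e X0 Y0 0 0 Om0 Om0 := rfl
    rw [this]
    unfold G2 N2 Sc Sk
    rw [one_smul]
  rw [h3] at h2
  have d1 := cv_hasDeriv (hasDerivAt_const (0:ℝ) (tht Y0 Om0)) (cube_deriv 1 (sgt X0 0 Om0))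
  have d2 := cv_hasDeriv (hasDerivAt_const (0:ℝ) (tht1 Y0)) (cube_deriv s0 (tat X0 0))
  have d3 := (re'.hasFDerivAt.comp_hasDerivAt (0:ℝ) d2).const_smul (2 * mu Om0)
  have d4 := (d1.add d3).const_sub (Om0 ^ 2 • K2 (pe Y0))
  have d5 := (pe.hasFDerivAt.comp_hasDerivAt (0:ℝ) d4).add_const (y0 • (Y0 - pe Y0))
  have h6 := h2.unique d5
  have h7 : (DG (1, 0)).2.1 = c (DG (1, 0)) := rfl
  rw [h7, h6]
  unfold ww
  simp only [map_zero, _root_.zero_apply, zero_add, one_pow, mul_one, map_smul]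
  rw [← map_neg]

lemma second_order {V : E} (hV : DE V = -DG (1, 0)) : Pi0 (chi V.2.1) = (3 * (3 - y0)) • one := by
  obtain ⟨X, Y, s, τ, ν, Ω⟩ := V
  simp only
  rw [DE_form] at hV
  have h1 : (L1 (X, Y, ν, Ω)).2.1 = pe ww := by
    have := congrArg (fun q : E => q.2.1) hV
    simp only at this
    rw [this]
    have e : (-DG (1, 0)).2.1 = -((DG (1, 0)).2.1) := rfl
    rw [e, DG_e2, neg_neg]
  rw [L1_apply] at h1
  simp only at h1
  have hy0 := y0_pos
  have hp := p0_bounds
  -- coordinates divisible by three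
  have key : ∀ n : ℤ, n % 3 = 0 →
      ((n:ℝ) ^ 2 * y0 - p0) * (kp n * (((Y n).re + (Y (-n)).re) / 2)) = ((ww n).re + (ww (-n)).re) / 2 := by
    intro n hn
    have hn' : (-n) % 3 = 0 := by omega
    have hvn : v0 n = p0 := by unfold v0; rw [if_pos hn]
    have hvn' : v0 (-n) = p0 := by unfold v0; rw [if_pos hn']
    have hru : ru2 n = 0 := by
      unfold ru2
      have h3 : n ≠ 1 := by omega
      have h4 : n ≠ -1 := by omega
      simp [h3, h4]
    have hru' : ru2 (-n) = 0 := by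
      unfold ru2
      have h3 : -n ≠ 1 := by omega
      have h4 : n ≠ 1 := by omega
      simp [h3, h4]
    have e1 : (y0 • Y + (op c2 Y + (ν - Ω) • u2A)) n = pe ww n := by rw [h1]
    have e2 : (y0 • Y + (op c2 Y + (ν - Ω) • u2A)) (-n) = pe ww (-n) := by rw [h1]
    simp only [A_add, A_smulR, c2_apply, u2A_apply, pe_apply, hvn, hvn', hru, hru', neg_neg, kp_neg] at e1 e2
    have f1 := congrArg Complex.re e1
    have f2 := congrArg Complex.re e2
    simp only [Complex.add_re, Complex.re_ofReal_mul, Complex.ofReal_re, mul_zero, add_zero] at f1 f2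
    have hk := kp_mul n
    have f3 : y0 * (((Y n).re + (Y (-n)).re) / 2) - (y0 + p0) * kp n * (((Y n).re + (Y (-n)).re) / 2) =
        ((ww n).re + (ww (-n)).re) / 2 := by linarith
    rw [← f3]
    have f4 : y0 * (((Y n).re + (Y (-n)).re) / 2) = y0 * (kp n * (1 + (n:ℝ) ^ 2)) * (((Y n).re + (Y (-n)).re) / 2) := by
      rw [hk, mul_one]
    rw [f4]
    ring
  apply A_ext; intro n
  rw [Pi0_apply, chi_apply, A_smulR]
  have hone : one n = if n = 0 then 1 else 0 := sg_apply 0 n
  rw [hone]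
  by_cases h3 : n % 3 = 0
  · rw [if_pos h3, one_mul]
    by_cases h0 : n = 0
    · subst h0
      have k := key 0 (by norm_num)
      rw [neg_zero, ww_zero, Complex.ofReal_re] at k
      rw [if_pos rfl, mul_one, neg_zero]
      congr 1
      have : p0 ≠ 0 := by linarith
      have k2 : p0 * (kp 0 * (((Y 0).re + (Y 0).re) / 2)) = p0 * (3 * (3 - y0)) := by
        push_cast at k
        linarith
      exact mul_left_cancel₀ this k2
    · have k := key n h3
      have h4 : (-n) % 3 = 0 := by omega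
      have h5 : -n ≠ 0 := by omega
      rw [ww_other h3 h0, ww_other h4 h5] at k
      rw [if_neg h0, mul_zero]
      have h6 : (n:ℝ) ^ 2 * y0 - p0 ≠ 0 := by
        have := vert_ne (n := n) (by omega) (by omega)
        have hvn : v0 n = p0 := by unfold v0; rw [if_pos h3]
        rwa [hvn] at this
      have h7 : kp n * (((Y n).re + (Y (-n)).re) / 2) = 0 := by
        have : ((n:ℝ) ^ 2 * y0 - p0) * (kp n * (((Y n).re + (Y (-n)).re) / 2)) = 0 := by
          rw [k]; simp
        rcases mul_eq_zero.1 this with h | h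
        · exact absurd h h6
        · exact h
      rw [h7]; simp
  · rw [if_neg h3, zero_mul]
    have h0 : n ≠ 0 := by intro h; subst h; norm_num at h3
    rw [if_neg h0, mul_zero]

end Pool.Agent.H399R4
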