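import Pool.Agent.H399R4.L11

set_option autoImplicit false

namespace Pool.Agent.H399R4

open Set Filter Topology MeasureTheory
open scoped NNReal ENNReal ComplexConjugate

/-! ### shifts -/

noncomputable def th : ℝ := 4 * Real.pi / 3

lemma ex_one_th : ex 1 th = zt ^ 2 := by
  unfold ex th
  rw [zt_sq, Complex.exp_mul_I]
  have h1 : Real.cos (4 * Real.pi / 3) = -1 / 2 := by
    rw [show 4 * Real.pi / 3 = Real.pi / 3 + Real.pi by ring, Real.cos_add_pi, Real.cos_pi_div_three]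
    norm_num
  have h2 : Real.sin (4 * Real.pi / 3) = -r3 / 2 := by
    rw [show 4 * Real.pi / 3 = Real.pi / 3 + Real.pi by ring, Real.sin_add_pi, Real.sin_pi_div_three]
    unfold r3
    ring
  have e : ((((1:ℤ):ℝ) * (4 * Real.pi / 3) : ℝ) : ℂ) = ((4 * Real.pi / 3 : ℝ) : ℂ) := by
    push_cast; ring
  rw [e, ← Complex.ofReal_cos, ← Complex.ofReal_sin, h1, h2]
  apply Complex.ext
  · simp
  · simp

lemma ex_zpow (n : ℤ) (t : ℝ) : ex n t = (ex 1 t) ^ n := by
  unfold ex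
  rw [← Complex.exp_int_mul]
  congr 1
  push_cast
  ring

lemma ex_periodic (n : ℤ) (t : ℝ) : ex n (t + 2 * Real.pi) = ex n t := by
  rw [ex_shift]
  have : ex n (2 * Real.pi) = 1 := by
    unfold ex
    have : (((n : ℝ) * (2 * Real.pi) : ℝ) : ℂ) * Complex.I = n * (2 * Real.pi * Complex.I) := by
      push_cast; ring
    rw [this, Complex.exp_int_mul_two_pi_mul_I]
  rw [this, mul_one]

lemma zt_ne : zt ≠ 0 := by
  intro h
  have := zt_norm
  rw [h, norm_zero] at this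
  norm_num at this

/-- value of the shift symbol -/
noncomputable def zz (n : ℤ) : ℂ := if n % 3 = 0 then 1 else if n % 3 = 1 then zt ^ 2 else zt

lemma ex_th (n : ℤ) : ex n th = zz n := by
  rw [ex_zpow, ex_one_th]
  have h6 : (zt ^ 2) ^ (3:ℤ) = 1 := by
    have : (zt ^ 2) ^ (3:ℤ) = (zt ^ 3) ^ 2 := by
      rw [show (3:ℤ) = ((3:ℕ):ℤ) by norm_num, zpow_natCast]; ring
    rw [this, zt_cube, one_pow]
  have hne : (zt ^ 2) ≠ 0 := pow_ne_zero _ zt_ne
  have hn : n = 3 * (n / 3) + n % 3 := (Int.mul_ediv_add_emod n 3).symm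
  have : (zt ^ 2) ^ n = (zt ^ 2) ^ (n % 3) := by
    conv_lhs => rw [hn]
    rw [zpow_add₀ hne, zpow_mul, h6, one_zpow, one_mul]
  rw [this]
  unfold zz
  have h3 : n % 3 = 0 ∨ n % 3 = 1 ∨ n % 3 = 2 := by omega
  rcases h3 with h | h | h
  · rw [h]; simp
  · rw [h]; simp
  · rw [h]
    have : (zt ^ 2) ^ (2:ℤ) = zt * zt ^ 3 := by
      rw [show (2:ℤ) = ((2:ℕ):ℤ) by norm_num, zpow_natCast]; ring
    rw [this, zt_cube, mul_one]
    norm_num

lemma ev_shift_th (a : A) (t : ℝ) : ev (t + th) a = ∑' n, (zz n * a n) * ex n t := by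
  rw [ev_apply]
  congr 1; ext n
  rw [ex_shift, ex_th]; ring

/-- generic multiplier built from the shift -/
lemma ev_mul {α : ℤ → ℂ} {C : ℝ} (h : ∀ n, ‖α n‖ ≤ C) (a : A) (t : ℝ) (x y z : ℂ)
    (hα : ∀ n, α n = x + y * zz n + z * (zz n * zz n)) :
    ev t (op (mulC α C h) a) = x * ev t a + y * ev (t + th) a + z * ev (t + th + th) a := by
  simp only [ev_apply, mulC_apply]
  have s0' : Summable (fun n => a n * ex n t) := (ev_summable a t).of_norm
  have s1 : Summable (fun n => a n * ex n (t + th)) := (ev_summable a _).of_norm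
  have s2 : Summable (fun n => a n * ex n (t + th + th)) := (ev_summable a _).of_norm
  rw [← tsum_mul_left, ← tsum_mul_left, ← tsum_mul_left,
    ← (s0'.mul_left x).tsum_add (s1.mul_left y), ← ((s0'.mul_left x).add (s1.mul_left y)).tsum_add (s2.mul_left z)]
  congr 1; ext n
  rw [hα, ex_shift n (t + th) th, ex_shift n t th, ex_th]
  ring

lemma zt2_2 : zt ^ 2 * zt ^ 2 = zt := by
  have : zt ^ 2 * zt ^ 2 = zt * zt ^ 3 := by ring
  rw [this, zt_cube, mul_one]
lemma zt_sum : 1 + zt + zt ^ 2 = 0 := by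
  rw [zt_sq]; unfold zt
  apply Complex.ext <;> simp
  · norm_num
  · ring

lemma ev_M1 (a : A) (t : ℝ) : ev t (M1 a) = ev t a - zt * ev (t + th) a := by
  unfold M1
  rw [ev_mul m1_le a t 1 (-zt) 0 (fun n => by
    unfold m1 zz
    have h3 := zt_cube
    split_ifs
    · ring
    · have : zt * zt ^ 2 = zt ^ 3 := by ring
      rw [zero_mul, add_zero, neg_mul, this, h3]; ring
    · ring)]
  ring

lemma ev_M2 (a : A) (t : ℝ) : ev t (M2 a) = ev t a - ev (t + th) a := by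
  unfold M2
  rw [ev_mul m2_le a t 1 (-1) 0 (fun n => by
    unfold m2 zz
    split_ifs <;> ring)]
  ring

lemma ev_Pi0 (a : A) (t : ℝ) : ev t (Pi0 a) = (ev t a + ev (t + th) a + ev (t + th + th) a) / 3 := by
  unfold Pi0
  rw [ev_mul _ a t (1/3) (1/3) (1/3) (fun n => by
    unfold zz
    have h := zt_sum
    have h2 := zt2_2
    split_ifs
    · norm_num
    · rw [h2]
      have : (1/3 : ℂ) + 1/3 * zt ^ 2 + 1/3 * zt = 1/3 * (1 + zt + zt ^ 2) := by ring
      rw [this, h, mul_zero]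
    · have : (1/3 : ℂ) + 1/3 * zt + 1/3 * (zt * zt) = 1/3 * (1 + zt + zt ^ 2) := by ring
      rw [this, h, mul_zero])]
  ring

lemma ev_Pi1 (a : A) (t : ℝ) : ev t (Pi1 a) = (ev t a + zt * ev (t + th) a + zt ^ 2 * ev (t + th + th) a) / 3 := by
  unfold Pi1
  rw [ev_mul _ a t (1/3) (zt/3) (zt^2/3) (fun n => by
    unfold zz
    have h := zt_sum
    have h2 := zt2_2
    have h3 := zt_cube
    have h4 : (0:ℤ) ≠ 1 := by norm_num
    split_ifs with h1 h5 h6
    · omega
    · have : (1/3 : ℂ) + zt/3 * zt ^ 2 + zt^2/3 * (zt ^ 2 * zt ^ 2) = 1/3 + zt ^ 3 / 3 + zt ^ 3 * zt ^ 3 / 3 := by ring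
      rw [this, h3]; norm_num
    · have : (1/3 : ℂ) + zt/3 * 1 + zt^2/3 * (1 * 1) = 1/3 * (1 + zt + zt ^ 2) := by ring
      rw [this, h, mul_zero]
    · have : (1/3 : ℂ) + zt/3 * zt + zt^2/3 * (zt * zt) = 1/3 * (1 + zt ^ 2 + zt ^ 2 * zt ^ 2) := by ring
      rw [this, h2]
      have : (1/3 : ℂ) * (1 + zt ^ 2 + zt) = 1/3 * (1 + zt + zt ^ 2) := by ring
      rw [this, h, mul_zero])]
  ring

lemma ev_periodic (a : A) (t : ℝ) : ev (t + 2 * Real.pi) a = ev t a := by
  rw [ev_apply, ev_apply]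
  congr 1; ext n
  rw [ex_periodic]

lemma ev_th3 (a : A) (t : ℝ) : ev (t + th + th + th) a = ev t a := by
  have : t + th + th + th = (t + 2 * Real.pi) + 2 * Real.pi := by unfold th; ring
  rw [this, ev_periodic, ev_periodic]

/-- `-t + th` reflected -/
lemma ev_neg_th {a : A} (ha : ∀ t, conj (ev (-t) a) = ev t a) (t : ℝ) :
    conj (ev (-t + th) a) = ev (t + th + th) a := by
  have h := ha (t - th)
  have e1 : -(t - th) = -t + th := by ring
  rw [e1] at h
  rw [h, ← ev_th3 a (t - th)]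
  congr 1
  ring_nf

end Pool.Agent.H399R4
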