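import Pool.Agent.H399R4.L12

set_option autoImplicit false

namespace Pool.Agent.H399R4

open Set Filter Topology MeasureTheory
open scoped NNReal ENNReal ComplexConjugate

noncomputable def RR (d : ℂ) (k : ℝ) : ℝ := √(‖d‖ ^ 2 + k ^ 2)

lemma RR_conj (d : ℂ) (k : ℝ) : RR (conj d) k = RR d k := by
  unfold RR; rw [RCLike.norm_conj]

lemma inv_of_sq {S : ℂ} {r c : ℝ} (hr : 0 ≤ r) (h : S ^ 2 * (r : ℂ) = 1) (hc : 0 < c) (hS : ‖S - c‖ < c) :
    S = (((√r)⁻¹ : ℝ) : ℂ) ∧ 0 < r := by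
  have hr0 : r ≠ 0 := by
    intro h0
    rw [h0] at h
    simp at h
  have hrp : 0 < r := lt_of_le_of_ne hr (Ne.symm hr0)
  refine ⟨?_, hrp⟩
  have h1 : S ^ 2 = ((((√r)⁻¹ : ℝ) : ℂ)) ^ 2 := by
    have h2 : ((((√r)⁻¹ : ℝ) : ℂ)) ^ 2 = ((r⁻¹ : ℝ) : ℂ) := by
      rw [← Complex.ofReal_pow, inv_pow, Real.sq_sqrt hr]
    rw [h2]
    have h3 : (r : ℂ) ≠ 0 := by exact_mod_cast hr0
    rw [Complex.ofReal_inv]
    field_simp
    exact h
  rcases sq_eq_sq_iff_eq_or_eq_neg.1 h1 with h2 | h2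
  · exact h2
  · exfalso
    have h3 : S.re = -(√r)⁻¹ := by
      rw [h2]; simp
    have h4 : |(S - c).re| ≤ ‖S - c‖ := Complex.abs_re_le_norm _
    have h5 : (S - c).re = -(√r)⁻¹ - c := by
      rw [Complex.sub_re, h3, Complex.ofReal_re]
    have h6 : 0 < (√r)⁻¹ := inv_pos.2 (Real.sqrt_pos.2 hrp)
    rw [h5, abs_of_neg (by linarith)] at h4
    linarith

lemma ev_one (t : ℝ) : ev t one = 1 := by
  unfold one; rw [ev_sg, ex_zero]

lemma ev_cD (a : A) (t : ℝ) : ev t (cD a) = D1 * ev t a := by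
  have : cD a = D1 • a := by
    apply A_ext; intro n; rw [cD_apply, A_smulC]
  rw [this, ev_smulC]
lemma ev_cDb (a : A) (t : ℝ) : ev t (cDb a) = conj D1 * ev t a := by
  have : cDb a = (conj D1) • a := by
    apply A_ext; intro n; rw [cDb_apply, A_smulC]
  rw [this, ev_smulC]

lemma eta_sym (X : A) (t : ℝ) : conj (ev (-t) (eta X)) = ev t (eta X) := by
  rw [← ev_rh]
  congr 1
  apply A_ext; intro n
  rw [rh_apply, eta_apply, Complex.conj_ofReal]

lemma chi_cj (Y : A) : cj (chi Y) = chi Y := by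
  apply A_ext; intro n
  rw [cj_apply, chi_apply, chi_apply, Complex.conj_ofReal, kp_neg, neg_neg, add_comm]
lemma chi_real (Y : A) (t : ℝ) : conj (ev t (chi Y)) = ev t (chi Y) := by
  rw [← ev_cj, chi_cj]
lemma chi_sym (Y : A) (t : ℝ) : conj (ev (-t) (chi Y)) = ev t (chi Y) := by
  rw [← ev_rh]
  congr 1
  apply A_ext; intro n
  rw [rh_apply, chi_apply, Complex.conj_ofReal]
lemma chi_even (Y : A) (t : ℝ) : ev (-t) (chi Y) = ev t (chi Y) := by
  rw [← chi_sym Y t, chi_real]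

/-- planar and vertical curves -/
noncomputable def W (e : ℝ) (X : A) (t : ℝ) : ℂ := 1 + e * ev t (eta X)
noncomputable def Hh (e : ℝ) (Y : A) (t : ℝ) : ℝ := e * (ev t (chi Y)).re

lemma Hh_coe (e : ℝ) (Y : A) (t : ℝ) : (Hh e Y t : ℂ) = e * ev t (chi Y) := by
  unfold Hh
  have : ((ev t (chi Y)).re : ℂ) = ev t (chi Y) := Complex.conj_eq_iff_re.1 (chi_real Y t)
  rw [Complex.ofReal_mul, this]

section
variable {e : ℝ} {X Y s τ : A} {ν Ω : ℝ}

noncomputable def dc (e : ℝ) (X : A) (Ω t : ℝ) : ℂ :=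
  W e X t + mu Ω * (W e X t + zt * W e X (t + th) + zt ^ 2 * W e X (t + th + th))
noncomputable def kc (e : ℝ) (Y : A) (Ω t : ℝ) : ℝ :=
  Hh e Y t + mu Ω * (Hh e Y t + Hh e Y (t + th) + Hh e Y (t + th + th))
noncomputable def d1 (e : ℝ) (X : A) (t : ℝ) : ℂ := W e X t - zt * W e X (t + th)
noncomputable def k1 (e : ℝ) (Y : A) (t : ℝ) : ℝ := Hh e Y t - Hh e Y (t + th)
noncomputable def d2 (e : ℝ) (X : A) (t : ℝ) : ℂ := W e X t - zt ^ 2 * W e X (t + th + th)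
noncomputable def k2 (e : ℝ) (Y : A) (t : ℝ) : ℝ := Hh e Y t - Hh e Y (t + th + th)

lemma dc_eq (t : ℝ) : dc e X Ω t = 1 + e * ev t (del X Ω) := by
  unfold dc W del
  rw [map_add, map_smul, ev_Pi1, Complex.real_smul]
  have h := zt_sum
  push_cast
  linear_combination (mu Ω : ℂ) * h

lemma kc_eq (t : ℝ) : (kc e Y Ω t : ℂ) = e * ev t (tht Y Ω) := by
  unfold kc tht
  push_cast
  rw [map_add, map_smul, ev_Pi0, Complex.real_smul, Hh_coe, Hh_coe, Hh_coe]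
  push_cast
  ring

lemma d1_eq (t : ℝ) : d1 e X t = D1 + e * ev t (del1 X) := by
  unfold d1 W del1 D1
  rw [ev_M1]
  ring

lemma k1_eq (t : ℝ) : (k1 e Y t : ℂ) = e * ev t (tht1 Y) := by
  unfold k1 tht1
  push_cast
  rw [ev_M2, Hh_coe, Hh_coe]
  ring

lemma W_sym (t : ℝ) : conj (W e X (-t)) = W e X t := by
  unfold W
  rw [map_add, map_mul, map_one, Complex.conj_ofReal, eta_sym]

lemma W_neg_th (t : ℝ) : conj (W e X (-t + th)) = W e X (t + th + th) := by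
  unfold W
  rw [map_add, map_mul, map_one, Complex.conj_ofReal, ev_neg_th (eta_sym X)]

lemma Hh_even (t : ℝ) : Hh e Y (-t) = Hh e Y t := by
  unfold Hh; rw [chi_even]
lemma Hh_neg_th (t : ℝ) : Hh e Y (-t + th) = Hh e Y (t + th + th) := by
  unfold Hh
  rw [← ev_neg_th (chi_sym Y), chi_real]

lemma W_periodic (t : ℝ) : W e X (t + th + th + th) = W e X t := by
  unfold W; rw [ev_th3]
lemma Hh_periodic (t : ℝ) : Hh e Y (t + th + th + th) = Hh e Y t := by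
  unfold Hh; rw [ev_th3]

lemma W_neg_th2 (t : ℝ) : conj (W e X (-t + th + th)) = W e X (t + th) := by
  have h := W_neg_th (e := e) (X := X) (-t)
  rw [neg_neg] at h
  rw [← h, Complex.conj_conj]
lemma Hh_neg_th2 (t : ℝ) : Hh e Y (-t + th + th) = Hh e Y (t + th) := by
  have h := Hh_neg_th (e := e) (Y := Y) (-t)
  rw [neg_neg] at h
  rw [← h]

lemma dc_sym (t : ℝ) : conj (dc e X Ω (-t)) = dc e X Ω t := by
  unfold dc
  simp only [map_add, map_mul, Complex.conj_ofReal, map_pow]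
  rw [W_sym, W_neg_th, W_neg_th2, zt_conj]
  have h : (zt ^ 2) ^ 2 = zt := by rw [sq (zt ^ 2)]; exact zt2_2
  rw [h]
  ring
lemma kc_even (t : ℝ) : kc e Y Ω (-t) = kc e Y Ω t := by
  unfold kc
  rw [Hh_even, Hh_neg_th, Hh_neg_th2]
  ring
lemma d1_sym (t : ℝ) : conj (d1 e X (-t)) = d2 e X t := by
  unfold d1 d2
  rw [map_sub, map_mul, W_sym, W_neg_th, zt_conj]
lemma k1_sym (t : ℝ) : k1 e Y (-t) = k2 e Y t := by
  unfold k1 k2
  rw [Hh_even, Hh_neg_th]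

/-- the center interaction factor -/
lemma Sc_eq (hG : G3 e X Y s Ω = 0) (hS : ∀ t, ‖ev t (Sc e X s Ω) - 1‖ < 1) (t : ℝ) :
    ev t (Sc e X s Ω) = (((RR (dc e X Ω t) (kc e Y Ω t))⁻¹ : ℝ) : ℂ) ∧ 0 < RR (dc e X Ω t) (kc e Y Ω t) := by
  set S := ev t (Sc e X s Ω) with hSd
  have h1 : ev t (G3 e X Y s Ω) = 0 := by rw [hG, map_zero]
  unfold G3 at h1
  rw [map_add, ev_cv, ev_cv, map_add, map_add, ev_one, map_smul, Complex.real_smul, ← hSd] at h1
  have h2 : S = 1 + e * ev t (sgt X s Ω) := by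
    rw [hSd]; unfold Sc
    rw [map_add, map_smul, ev_one, Complex.real_smul]
  have hR : 1 + (e:ℂ) * ev t (Rc e X Y Ω) = ((‖dc e X Ω t‖ ^ 2 + (kc e Y Ω t) ^ 2 : ℝ) : ℂ) := by
    push_cast
    rw [← Complex.mul_conj', kc_eq, dc_eq]
    unfold Rc
    simp only [map_add, map_smul, ev_cv, ev_cj, Complex.real_smul, map_mul, Complex.conj_ofReal, map_one]
    ring
  have h3 : S ^ 2 * ((‖dc e X Ω t‖ ^ 2 + (kc e Y Ω t) ^ 2 : ℝ) : ℂ) = 1 := by
    rw [← hR]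
    have h4 : (e:ℂ) * ev t (sgt X s Ω) = S - 1 := by rw [h2]; ring
    linear_combination (e:ℂ) * h1 - ((1 + S) * (1 + (e:ℂ) * ev t (Rc e X Y Ω))) * h4
  have h5 := inv_of_sq (by positivity) h3 one_pos (by simpa using hS t)
  exact ⟨h5.1, Real.sqrt_pos.2 h5.2⟩

lemma D1_norm : D1 * conj D1 = 3 := by
  rw [conj_D1]
  unfold D1
  have h := zt_sum
  have h3 := zt_cube
  linear_combination -h + h3

lemma D1_add : D1 + conj D1 = 3 := by
  rw [conj_D1]
  unfold D1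
  have h := zt_sum
  linear_combination -h

lemma Sk_eq (hG : G4 e X Y τ = 0) (hS : ∀ t, ‖ev t (Sk e X τ) - s0‖ < s0) (t : ℝ) :
    ev t (Sk e X τ) = (((RR (d1 e X t) (k1 e Y t))⁻¹ : ℝ) : ℂ) ∧ 0 < RR (d1 e X t) (k1 e Y t) := by
  set S := ev t (Sk e X τ) with hSd
  have h1 : ev t (G4 e X Y τ) = 0 := by rw [hG, map_zero]
  unfold G4 at h1
  rw [map_add, ev_cv, ev_cv, map_add, map_add, map_smul, map_smul, map_smul, map_smul, ev_one,
    Complex.real_smul, Complex.real_smul, Complex.real_smul, Complex.real_smul, ← hSd] at h1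
  have h2 : S = s0 + e * ev t (tat X τ) := by
    rw [hSd]; unfold Sk
    rw [map_add, map_smul, map_smul, ev_one, Complex.real_smul, Complex.real_smul, mul_one]
  have hR : 3 + (e:ℂ) * ev t (Rk e X Y) = ((‖d1 e X t‖ ^ 2 + (k1 e Y t) ^ 2 : ℝ) : ℂ) := by
    push_cast
    rw [← Complex.mul_conj', k1_eq, d1_eq]
    unfold Rk
    simp only [map_add, map_smul, ev_cv, ev_cj, ev_cD, ev_cDb, Complex.real_smul, map_mul, Complex.conj_ofReal]
    have h := D1_norm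
    linear_combination -h
  have h3 : S ^ 2 * ((‖d1 e X t‖ ^ 2 + (k1 e Y t) ^ 2 : ℝ) : ℂ) = 1 := by
    rw [← hR]
    have h4 : (e:ℂ) * ev t (tat X τ) = S - s0 := by rw [h2]; ring
    have h5 : ((s0 ^ 2 : ℝ) : ℂ) = 1 / 3 := by rw [s0_sq]; push_cast; ring
    push_cast at h5 h1
    linear_combination (e:ℂ) * h1 - ((s0 + S) * (3 + (e:ℂ) * ev t (Rk e X Y))) * h4 + 3 * h5
  have h5 := inv_of_sq (by positivity) h3 s0_pos (hS t)
  exact ⟨h5.1, Real.sqrt_pos.2 h5.2⟩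

end

end Pool.Agent.H399R4
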