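import Pool.Agent.H399R4.L13

set_option autoImplicit false

namespace Pool.Agent.H399R4

open Set Filter Topology MeasureTheory
open scoped NNReal ENNReal ComplexConjugate

/-- hypotheses on a solution of the scaled system -/
structure Good (e : ℝ) (X Y s τ : A) (ν Ω : ℝ) : Prop where
  he : 0 < e
  g1 : G1 e X s τ ν Ω = 0
  g2 : G2 e X Y s τ ν Ω = 0
  g3 : G3 e X Y s Ω = 0
  g4 : G4 e X Y τ = 0
  hS : ∀ t, ‖ev t (Sc e X s Ω) - 1‖ < 1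
  hSk : ∀ t, ‖ev t (Sk e X τ) - s0‖ < s0

section
variable {e : ℝ} {X Y s τ : A} {ν Ω : ℝ}

/-- planar force on the first satellite in the rotating frame -/
noncomputable def FF (e : ℝ) (X Y : A) (Ω t : ℝ) : ℂ :=
  (((RR (dc e X Ω t) (kc e Y Ω t))⁻¹ : ℝ) : ℂ) ^ 3 * dc e X Ω t +
    mu Ω * ((((RR (d1 e X t) (k1 e Y t))⁻¹ : ℝ) : ℂ) ^ 3 * d1 e X t +
      (((RR (d2 e X t) (k2 e Y t))⁻¹ : ℝ) : ℂ) ^ 3 * d2 e X t)
/-- vertical force -/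
noncomputable def HH (e : ℝ) (X Y : A) (Ω t : ℝ) : ℝ :=
  (RR (dc e X Ω t) (kc e Y Ω t))⁻¹ ^ 3 * kc e Y Ω t +
    mu Ω * ((RR (d1 e X t) (k1 e Y t))⁻¹ ^ 3 * k1 e Y t +
      (RR (d2 e X t) (k2 e Y t))⁻¹ ^ 3 * k2 e Y t)

lemma RR_sym1 (t : ℝ) : RR (d1 e X (-t)) (k1 e Y (-t)) = RR (d2 e X t) (k2 e Y t) := by
  rw [k1_sym, ← d1_sym, RR_conj]
lemma RR_symc (t : ℝ) : RR (dc e X Ω (-t)) (kc e Y Ω (-t)) = RR (dc e X Ω t) (kc e Y Ω t) := by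
  rw [kc_even, ← RR_conj, dc_sym]

lemma mu_s0 (Ω : ℝ) : 3 * mu Ω * s0 ^ 3 = Ω ^ 2 - 1 := by
  unfold mu s0
  have h : (r3 / 3) ^ 3 = r3 ^ 3 / 27 := by ring
  rw [h, r3_3]
  have h2 := r3_sq
  nlinarith

/-- the planar sum as function -/
lemma N1_eq (h : Good e X Y s τ ν Ω) (t : ℝ) :
    (e : ℂ) * ev t (N1 e X s τ Ω) = FF e X Y Ω t - Ω ^ 2 := by
  obtain ⟨hS1, -⟩ := Sc_eq h.g3 h.hS t
  obtain ⟨hK1, -⟩ := Sk_eq h.g4 h.hSk t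
  obtain ⟨hK2, -⟩ := Sk_eq h.g4 h.hSk (-t)
  have h2 : ev t (Sc e X s Ω) = 1 + e * ev t (sgt X s Ω) := by
    unfold Sc
    rw [map_add, map_smul, ev_one, Complex.real_smul]
  have h3 : ∀ t, ev t (Sk e X τ) = s0 + e * ev t (tat X τ) := by
    intro t
    unfold Sk
    rw [map_add, map_smul, map_smul, ev_one, Complex.real_smul, Complex.real_smul, mul_one]
  have hZ : ∀ t, (e:ℂ) * ev t (cv (del1 X) (cv (Sk e X τ) (cv (Sk e X τ) (Sk e X τ))) +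
      cD (cv (tat X τ) ((s0 ^ 2) • one + s0 • Sk e X τ + cv (Sk e X τ) (Sk e X τ)))) =
      d1 e X t * ev t (Sk e X τ) ^ 3 - D1 * s0 ^ 3 := by
    intro t
    rw [map_add, ev_cD, ev_cv, ev_cv, ev_cv, ev_cv, map_add, map_add, map_smul, map_smul, ev_one, ev_cv,
      Complex.real_smul, Complex.real_smul, d1_eq]
    have h5 := h3 t
    have h6 : (e:ℂ) * ev t (tat X τ) = ev t (Sk e X τ) - s0 := by rw [h5]; ring
    push_cast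
    linear_combination (D1 * ((s0:ℂ) ^ 2 + s0 * ev t (Sk e X τ) + ev t (Sk e X τ) * ev t (Sk e X τ))) * h6
  unfold N1
  rw [map_add, map_add, map_smul, ev_re', ev_cv, ev_cv, ev_cv, ev_cv, map_add, map_add, ev_one, ev_cv, Complex.real_smul]
  have hz1 := hZ t
  have hz2 := congrArg conj (hZ (-t))
  rw [map_mul, Complex.conj_ofReal] at hz2
  have h7 : (e:ℂ) * ev t (sgt X s Ω) = ev t (Sc e X s Ω) - 1 := by rw [h2]; ring
  unfold FF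
  rw [← RR_sym1, ← hS1, ← hK1, ← hK2, ← d1_sym, dc_eq]
  rw [map_sub, map_mul, map_mul, map_pow, map_pow, Complex.conj_ofReal] at hz2
  have hreal : conj (ev (-t) (Sk e X τ)) = ev (-t) (Sk e X τ) := by rw [hK2, Complex.conj_ofReal]
  rw [hreal] at hz2
  have hmu : (3 * mu Ω * s0 ^ 3 : ℂ) = Ω ^ 2 - 1 := by exact_mod_cast mu_s0 Ω
  have hD := D1_add
  push_cast
  linear_combination (mu Ω : ℂ) * hz1 + (mu Ω : ℂ) * hz2 + (1 + ev t (Sc e X s Ω) + ev t (Sc e X s Ω) * ev t (Sc e X s Ω)) * h7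
    - (mu Ω : ℂ) * s0 ^ 3 * hD - hmu

lemma N2_eq (h : Good e X Y s τ ν Ω) (t : ℝ) :
    (e : ℂ) * ev t (N2 e X Y s τ Ω) = (HH e X Y Ω t : ℂ) := by
  obtain ⟨hS1, -⟩ := Sc_eq h.g3 h.hS t
  obtain ⟨hK1, -⟩ := Sk_eq h.g4 h.hSk t
  obtain ⟨hK2, -⟩ := Sk_eq h.g4 h.hSk (-t)
  unfold N2
  rw [map_add, map_smul, ev_re', ev_cv, ev_cv, ev_cv, ev_cv, ev_cv, ev_cv, ev_cv, ev_cv, ev_cv, Complex.real_smul]
  unfold HH
  push_cast
  have e1 := kc_eq (e := e) (Y := Y) (Ω := Ω) t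
  have e2 := k1_eq (e := e) (Y := Y) t
  have e3 := congrArg conj (k1_eq (e := e) (Y := Y) (-t))
  rw [Complex.conj_ofReal, k1_sym, map_mul, Complex.conj_ofReal] at e3
  rw [← RR_sym1, e1, e2, e3]
  have f1 : ev t (Sc e X s Ω) = ((RR (dc e X Ω t) (kc e Y Ω t) : ℝ) : ℂ)⁻¹ := by rw [hS1]; push_cast; rfl
  have f2 : ev t (Sk e X τ) = ((RR (d1 e X t) (k1 e Y t) : ℝ) : ℂ)⁻¹ := by rw [hK1]; push_cast; rfl
  have f3 : ev (-t) (Sk e X τ) = ((RR (d1 e X (-t)) (k1 e Y (-t)) : ℝ) : ℂ)⁻¹ := by rw [hK2]; push_cast; rfl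
  rw [← f1, ← f2, ← f3]
  simp only [map_mul]
  have hreal : conj (ev (-t) (Sk e X τ)) = ev (-t) (Sk e X τ) := by rw [hK2, Complex.conj_ofReal]
  rw [hreal]
  ring

end

end Pool.Agent.H399R4
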