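import Pool.Agent.H399R4.L14

set_option autoImplicit false

namespace Pool.Agent.H399R4

open Set Filter Topology MeasureTheory
open scoped NNReal ENNReal ComplexConjugate

section
variable {e : ℝ} {X Y s τ : A} {ν Ω : ℝ}

lemma d2_sym (t : ℝ) : conj (d2 e X (-t)) = d1 e X t := by
  have h := d1_sym (e := e) (X := X) (-t)
  rw [neg_neg] at h
  rw [← h, Complex.conj_conj]
lemma k2_sym (t : ℝ) : k2 e Y (-t) = k1 e Y t := by
  have h := k1_sym (e := e) (Y := Y) (-t)
  rw [neg_neg] at h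
  exact h.symm
lemma RR_sym2 (t : ℝ) : RR (d2 e X (-t)) (k2 e Y (-t)) = RR (d1 e X t) (k1 e Y t) := by
  have h := RR_sym1 (e := e) (X := X) (Y := Y) (-t)
  rw [neg_neg] at h
  exact h.symm

lemma FF_sym (t : ℝ) : conj (FF e X Y Ω (-t)) = FF e X Y Ω t := by
  unfold FF
  simp only [map_add, map_mul, map_pow, Complex.conj_ofReal]
  rw [dc_sym, d1_sym, d2_sym, RR_symc, RR_sym1, RR_sym2]
  ring

lemma HH_even (t : ℝ) : HH e X Y Ω (-t) = HH e X Y Ω t := by
  unfold HH
  rw [RR_symc, RR_sym1, RR_sym2, kc_even, k1_sym, k2_sym]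
  ring

lemma re'_N1 (h : Good e X Y s τ ν Ω) : re' (N1 e X s τ Ω) = N1 e X s τ Ω := by
  apply real_of_sym
  intro t
  have he : (e : ℂ) ≠ 0 := by exact_mod_cast h.he.ne'
  have h1 := N1_eq h t
  have h2 := congrArg conj (N1_eq h (-t))
  rw [map_mul, Complex.conj_ofReal, map_sub, FF_sym, map_pow, Complex.conj_ofReal] at h2
  apply mul_left_cancel₀ he
  rw [h1, h2]

lemma pe_N2 (h : Good e X Y s τ ν Ω) : pe (N2 e X Y s τ Ω) = N2 e X Y s τ Ω := by
  have he : (e : ℂ) ≠ 0 := by exact_mod_cast h.he.ne'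
  apply pe_of_sym
  · intro t
    have h1 := N2_eq h t
    have h2 := congrArg conj (N2_eq h (-t))
    rw [map_mul, Complex.conj_ofReal, Complex.conj_ofReal, HH_even] at h2
    apply mul_left_cancel₀ he
    rw [h1, h2]
  · intro t
    have h1 := N2_eq h t
    have h2 := congrArg conj (N2_eq h t)
    rw [map_mul, Complex.conj_ofReal, Complex.conj_ofReal] at h2
    apply mul_left_cancel₀ he
    rw [h1, h2]

lemma re'_real {a : A} (h : ∀ n, (a n).im = 0) : re' a = a := by
  apply A_ext; intro n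
  rw [re'_apply]
  apply Complex.ext
  · simp
  · simp [h n]

lemma lam_eq (h : Good e X Y s τ ν Ω) :
    ν ^ 2 • K2 (re' X) + (2 * ν * Ω) • K1 (re' X) + Ω ^ 2 • K0 (re' X) = N1 e X s τ Ω := by
  have h1 := h.g1
  unfold G1 at h1
  have h2 := congrArg re' h1
  have e1 : re' (X - re' X) = 0 := by rw [map_sub, re'_re', sub_self]
  rw [map_add, re'_re', map_smul, e1, smul_zero, add_zero, map_zero, map_sub, re'_N1 h] at h2
  have h3 : re' (ν ^ 2 • K2 (re' X) + (2 * ν * Ω) • K1 (re' X) + Ω ^ 2 • K0 (re' X)) =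
      ν ^ 2 • K2 (re' X) + (2 * ν * Ω) • K1 (re' X) + Ω ^ 2 • K0 (re' X) := by
    apply re'_real
    intro n
    simp only [A_add, A_smulR, K2_apply, K1_apply, K0_apply, re'_apply]
    simp only [Complex.add_im, Complex.im_ofReal_mul, Complex.ofReal_im, mul_zero, add_zero]
  rw [h3] at h2
  exact sub_eq_zero.1 h2

lemma ver_eq (h : Good e X Y s τ ν Ω) : ν ^ 2 • K2 (pe Y) = N2 e X Y s τ Ω := by
  have h1 := h.g2
  unfold G2 at h1
  have h2 := congrArg pe h1
  have e1 : pe (Y - pe Y) = 0 := by rw [map_sub, pe_pe, sub_self]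
  rw [map_add, pe_pe, map_smul, e1, smul_zero, add_zero, map_zero, map_sub, pe_N2 h] at h2
  have h3 : pe (ν ^ 2 • K2 (pe Y)) = ν ^ 2 • K2 (pe Y) := by
    apply A_ext; intro n
    rw [pe_apply]
    simp only [A_smulR, K2_apply, pe_apply, neg_neg, kp_neg]
    simp only [Complex.re_ofReal_mul, Complex.ofReal_re]
    push_cast
    ring
  rw [h3] at h2
  exact sub_eq_zero.1 h2

noncomputable def Wd (e : ℝ) (X : A) (t : ℝ) : ℂ := e * (Complex.I * ev t (K1 (re' X)))
noncomputable def Wdd (e : ℝ) (X : A) (t : ℝ) : ℂ := e * (Complex.I * (Complex.I * ev t (K2 (re' X))))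
noncomputable def Hd (e : ℝ) (Y : A) (t : ℝ) : ℝ := e * (Complex.I * ev t (K1 (pe Y))).re
noncomputable def Hdd (e : ℝ) (Y : A) (t : ℝ) : ℝ := e * (Complex.I * (Complex.I * ev t (K2 (pe Y)))).re

lemma W_deriv (t : ℝ) : HasDerivAt (W e X) (Wd e X t) t := by
  unfold W Wd eta
  exact ((ev_K0_deriv (re' X) t).const_mul (e:ℂ)).const_add 1
lemma Wd_deriv (t : ℝ) : HasDerivAt (Wd e X) (Wdd e X t) t := by
  unfold Wd Wdd
  exact ((ev_K1_deriv (re' X) t).const_mul Complex.I).const_mul (e:ℂ)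
lemma Wdd_cont : Continuous (Wdd e X) := by
  unfold Wdd
  exact continuous_const.mul (continuous_const.mul (continuous_const.mul (ev_cont _)))
lemma re_deriv {f : ℝ → ℂ} {f' : ℂ} {t : ℝ} (h : HasDerivAt f f' t) : HasDerivAt (fun t => (f t).re) f'.re t := by
  exact Complex.reCLM.hasFDerivAt.comp_hasDerivAt t h
lemma Hh_deriv (t : ℝ) : HasDerivAt (Hh e Y) (Hd e Y t) t := by
  unfold Hh Hd chi
  exact (re_deriv (ev_K0_deriv (pe Y) t)).const_mul e
lemma Hd_deriv (t : ℝ) : HasDerivAt (Hd e Y) (Hdd e Y t) t := by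
  unfold Hd Hdd
  exact (re_deriv ((ev_K1_deriv (pe Y) t).const_mul Complex.I)).const_mul e
lemma Hdd_cont : Continuous (Hdd e Y) := by
  unfold Hdd
  exact continuous_const.mul (Complex.continuous_re.comp (continuous_const.mul (continuous_const.mul (ev_cont _))))

/-- planar equation in the rotating frame -/
lemma planar_ode (h : Good e X Y s τ ν Ω) (t : ℝ) :
    ν ^ 2 * Wdd e X t + 2 * Complex.I * ν * Ω * Wd e X t - Ω ^ 2 * W e X t = - FF e X Y Ω t := by
  have h1 := N1_eq h t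
  rw [← lam_eq h, map_add, map_add, map_smul, map_smul, map_smul, Complex.real_smul, Complex.real_smul, Complex.real_smul] at h1
  unfold Wdd Wd W eta
  have hI : Complex.I * Complex.I = -1 := Complex.I_mul_I
  push_cast at h1
  linear_combination -h1 + (ν ^ 2 * e * ev t (K2 (re' X)) + 2 * ν * Ω * e * ev t (K1 (re' X))) * hI

lemma vert_ode (h : Good e X Y s τ ν Ω) (t : ℝ) : ν ^ 2 * Hdd e Y t = - HH e X Y Ω t := by
  have h1 := N2_eq h t
  rw [← ver_eq h, map_smul, Complex.real_smul] at h1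
  have h2 := congrArg Complex.re h1
  rw [Complex.re_ofReal_mul, Complex.re_ofReal_mul, Complex.ofReal_re] at h2
  unfold Hdd
  have h3 : (Complex.I * (Complex.I * ev t (K2 (pe Y)))).re = -(ev t (K2 (pe Y))).re := by
    rw [← mul_assoc, Complex.I_mul_I]; simp
  rw [h3]
  linarith

end

end Pool.Agent.H399R4
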