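import Pool.Agent.H399R4.L15

set_option autoImplicit false

namespace Pool.Agent.H399R4

open Set Filter Topology MeasureTheory
open scoped NNReal ENNReal ComplexConjugate

/-- force of a unit mass at `p` on a particle at `q` -/
noncomputable def fr (q p : ℂ × ℝ) : ℂ × ℝ := ((RR (p.1 - q.1) (p.2 - q.2))⁻¹ ^ 3) • (p - q)

lemma RR_neg (d : ℂ) (k : ℝ) : RR (-d) (-k) = RR d k := by
  unfold RR; rw [norm_neg, neg_sq]

lemma fr_anti (q p : ℂ × ℝ) : fr p q = -fr q p := by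
  unfold fr
  have h1 : q.1 - p.1 = -(p.1 - q.1) := by ring
  have h2 : q.2 - p.2 = -(p.2 - q.2) := by ring
  rw [h1, h2, RR_neg, ← neg_sub p q, smul_neg]

lemma RR_unit {u : ℂ} (hu : ‖u‖ = 1) (d : ℂ) (k : ℝ) : RR (u * d) k = RR d k := by
  unfold RR; rw [norm_mul, hu, one_mul]

section
variable {e : ℝ} {X Y s τ : A} {ν Ω : ℝ}

/-- rotation factor -/
noncomputable def rot (Ω T : ℝ) : ℂ := Complex.exp (((Ω * T : ℝ) : ℂ) * Complex.I)

lemma rot_norm (Ω T : ℝ) : ‖rot Ω T‖ = 1 := Complex.norm_exp_ofReal_mul_I _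
lemma rot_ne (Ω T : ℝ) : rot Ω T ≠ 0 := Complex.exp_ne_zero _

lemma rot_deriv (Ω T : ℝ) : HasDerivAt (rot Ω) (rot Ω T * (Ω * Complex.I)) T := by
  unfold rot
  have h1 : HasDerivAt (fun T : ℝ => (((Ω * T : ℝ) : ℂ)) * Complex.I) (Ω * Complex.I) T := by
    have h0 : HasDerivAt (fun t : ℝ => Ω * t) Ω T := by
      simpa using (hasDerivAt_id T).const_mul Ω
    exact (h0.ofReal_comp).mul_const Complex.I
  exact h1.cexp

/-- planar and vertical position of satellite `k` -/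
noncomputable def qs (e : ℝ) (X Y : A) (ν Ω : ℝ) (k : ℕ) (T : ℝ) : ℂ × ℝ :=
  (rot Ω T * (zt ^ k * W e X (ν * T + k * th)), Hh e Y (ν * T + k * th))

noncomputable def qsd (e : ℝ) (X Y : A) (ν Ω : ℝ) (k : ℕ) (T : ℝ) : ℂ × ℝ :=
  (rot Ω T * (zt ^ k * (Ω * Complex.I * W e X (ν * T + k * th) + ν * Wd e X (ν * T + k * th))),
    ν * Hd e Y (ν * T + k * th))

noncomputable def qsdd (e : ℝ) (X Y : A) (ν Ω : ℝ) (k : ℕ) (T : ℝ) : ℂ × ℝ :=
  (rot Ω T * (zt ^ k * (ν ^ 2 * Wdd e X (ν * T + k * th) + 2 * Complex.I * ν * Ω * Wd e X (ν * T + k * th) -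
      Ω ^ 2 * W e X (ν * T + k * th))),
    ν ^ 2 * Hdd e Y (ν * T + k * th))

lemma arg_deriv (ν c T : ℝ) : HasDerivAt (fun T : ℝ => ν * T + c) ν T := by
  simpa using ((hasDerivAt_id T).const_mul ν).add_const c

lemma comp_arg {F : Type*} [NormedAddCommGroup F] [NormedSpace ℝ F] {f : ℝ → F} {f' : F} {ν c T : ℝ}
    (h : HasDerivAt f f' (ν * T + c)) : HasDerivAt (fun T : ℝ => f (ν * T + c)) (ν • f') T :=
  h.scomp T (arg_deriv ν c T)

lemma qs_deriv (k : ℕ) (T : ℝ) : HasDerivAt (qs e X Y ν Ω k) (qsd e X Y ν Ω k T) T := by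
  unfold qs qsd
  apply HasDerivAt.prodMk
  · have h1 := (rot_deriv Ω T).mul ((comp_arg (W_deriv (e := e) (X := X) (ν * T + k * th))).const_mul (zt ^ k))
    refine h1.congr_deriv ?_
    rw [Complex.real_smul]
    ring
  · have h1 := comp_arg (Hh_deriv (e := e) (Y := Y) (ν * T + k * th))
    exact h1.congr_deriv (by rw [smul_eq_mul])

lemma qsd_deriv (k : ℕ) (T : ℝ) : HasDerivAt (qsd e X Y ν Ω k) (qsdd e X Y ν Ω k T) T := by
  unfold qsd qsdd
  apply HasDerivAt.prodMk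
  · have h0 := ((comp_arg (W_deriv (e := e) (X := X) (ν * T + k * th))).const_mul (Ω * Complex.I : ℂ)).add
      ((comp_arg (Wd_deriv (e := e) (X := X) (ν * T + k * th))).const_mul (ν : ℂ))
    have h1 := (rot_deriv Ω T).mul (h0.const_mul (zt ^ k))
    refine h1.congr_deriv ?_
    simp only [Pi.add_apply]
    rw [Complex.real_smul, Complex.real_smul]
    have hI : Complex.I ^ 2 = -1 := Complex.I_sq
    linear_combination (rot Ω T * zt ^ k * Ω ^ 2 * W e X (ν * T + k * th)) * hI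
  · have h1 := (comp_arg (Hd_deriv (e := e) (Y := Y) (ν * T + k * th))).const_mul ν
    exact h1.congr_deriv (by rw [smul_eq_mul]; ring)

lemma rot_cont (Ω : ℝ) : Continuous (rot Ω) :=
  continuous_iff_continuousAt.2 (fun T => (rot_deriv Ω T).continuousAt)
lemma W_cont : Continuous (W e X) := continuous_iff_continuousAt.2 (fun T => (W_deriv T).continuousAt)
lemma Wd_cont : Continuous (Wd e X) := continuous_iff_continuousAt.2 (fun T => (Wd_deriv T).continuousAt)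

lemma qsdd_cont (k : ℕ) : Continuous (qsdd e X Y ν Ω k) := by
  unfold qsdd
  have h1 := rot_cont Ω
  have h2 := W_cont (e := e) (X := X)
  have h3 := Wd_cont (e := e) (X := X)
  have h4 := Wdd_cont (e := e) (X := X)
  have h5 := Hdd_cont (e := e) (Y := Y)
  fun_prop

lemma qs_periodic (k : ℕ) (T : ℝ) : qs e X Y ν Ω (k + 3) T = qs e X Y ν Ω k T := by
  unfold qs
  have h1 : ν * T + ((k + 3 : ℕ) : ℝ) * th = (ν * T + k * th) + th + th + th := by push_cast; ring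
  rw [h1, W_periodic, Hh_periodic, pow_add, zt_cube, mul_one]

/-- the central body -/
noncomputable def qc (e : ℝ) (X Y : A) (ν Ω T : ℝ) : ℂ × ℝ :=
  (-mu Ω) • (qs e X Y ν Ω 0 T + qs e X Y ν Ω 1 T + qs e X Y ν Ω 2 T)
noncomputable def qcd (e : ℝ) (X Y : A) (ν Ω T : ℝ) : ℂ × ℝ :=
  (-mu Ω) • (qsd e X Y ν Ω 0 T + qsd e X Y ν Ω 1 T + qsd e X Y ν Ω 2 T)
noncomputable def qcdd (e : ℝ) (X Y : A) (ν Ω T : ℝ) : ℂ × ℝ :=
  (-mu Ω) • (qsdd e X Y ν Ω 0 T + qsdd e X Y ν Ω 1 T + qsdd e X Y ν Ω 2 T)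

lemma qc_deriv (T : ℝ) : HasDerivAt (qc e X Y ν Ω) (qcd e X Y ν Ω T) T := by
  unfold qc qcd
  exact (((qs_deriv 0 T).add (qs_deriv 1 T)).add (qs_deriv 2 T)).const_smul (-mu Ω)
lemma qcd_deriv (T : ℝ) : HasDerivAt (qcd e X Y ν Ω) (qcdd e X Y ν Ω T) T := by
  unfold qcd qcdd
  exact (((qsd_deriv 0 T).add (qsd_deriv 1 T)).add (qsd_deriv 2 T)).const_smul (-mu Ω)
lemma qcdd_cont : Continuous (qcdd e X Y ν Ω) := by
  unfold qcdd
  have h0 := qsdd_cont (e := e) (X := X) (Y := Y) (ν := ν) (Ω := Ω) 0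
  have h1 := qsdd_cont (e := e) (X := X) (Y := Y) (ν := ν) (Ω := Ω) 1
  have h2 := qsdd_cont (e := e) (X := X) (Y := Y) (ν := ν) (Ω := Ω) 2
  fun_prop

lemma qc_shift (k : ℕ) (T : ℝ) : qc e X Y ν Ω T =
    (-mu Ω) • (qs e X Y ν Ω k T + qs e X Y ν Ω (k + 1) T + qs e X Y ν Ω (k + 2) T) := by
  induction k with
  | zero => rfl
  | succ k ih =>
    rw [ih, show k + 1 + 2 = k + 3 by ring, qs_periodic, show k + 1 + 1 = k + 2 by ring]
    congr 1
    abel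

/-- relative positions -/
lemma rel_c (k : ℕ) (T : ℝ) : qc e X Y ν Ω T - qs e X Y ν Ω k T =
    (-(rot Ω T * zt ^ k * dc e X Ω (ν * T + k * th)), -kc e Y Ω (ν * T + k * th)) := by
  rw [qc_shift k]
  unfold qs dc kc
  have h1 : ν * T + ((k + 1 : ℕ) : ℝ) * th = (ν * T + k * th) + th := by push_cast; ring
  have h2 : ν * T + ((k + 2 : ℕ) : ℝ) * th = (ν * T + k * th) + th + th := by push_cast; ring
  rw [h1, h2]
  apply Prod.ext
  · simp only [Prod.fst_sub, Prod.smul_fst, Prod.fst_add, Complex.real_smul, pow_succ]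
    push_cast
    ring
  · simp only [Prod.snd_sub, Prod.smul_snd, Prod.snd_add, smul_eq_mul]
    ring

lemma rel_1 (k : ℕ) (T : ℝ) : qs e X Y ν Ω (k + 1) T - qs e X Y ν Ω k T =
    (-(rot Ω T * zt ^ k * d1 e X (ν * T + k * th)), -k1 e Y (ν * T + k * th)) := by
  unfold qs d1 k1
  have h1 : ν * T + ((k + 1 : ℕ) : ℝ) * th = (ν * T + k * th) + th := by push_cast; ring
  rw [h1]
  apply Prod.ext
  · simp only [Prod.fst_sub, pow_succ]
    ring
  · simp only [Prod.snd_sub]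
    ring

lemma rel_2 (k : ℕ) (T : ℝ) : qs e X Y ν Ω (k + 2) T - qs e X Y ν Ω k T =
    (-(rot Ω T * zt ^ k * d2 e X (ν * T + k * th)), -k2 e Y (ν * T + k * th)) := by
  unfold qs d2 k2
  have h2 : ν * T + ((k + 2 : ℕ) : ℝ) * th = (ν * T + k * th) + th + th := by push_cast; ring
  rw [h2]
  apply Prod.ext
  · simp only [Prod.fst_sub, pow_add]
    ring
  · simp only [Prod.snd_sub]
    ring

lemma unit_norm (k : ℕ) (T : ℝ) : ‖rot Ω T * zt ^ k‖ = 1 := by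
  rw [norm_mul, rot_norm, norm_pow, zt_norm, one_pow, one_mul]

lemma fr_of_rel {q p : ℂ × ℝ} {u d : ℂ} {κ : ℝ} (hu : ‖u‖ = 1) (h : p - q = (-(u * d), -κ)) :
    fr q p = (-(u * ((((RR d κ)⁻¹ : ℝ) : ℂ) ^ 3 * d)), -((RR d κ)⁻¹ ^ 3 * κ)) := by
  have h1 : p.1 - q.1 = -(u * d) := congrArg Prod.fst h
  have h2 : p.2 - q.2 = -κ := congrArg Prod.snd h
  unfold fr
  rw [h1, h2, RR_neg, RR_unit hu, h]
  apply Prod.ext
  · simp only [Prod.smul_fst, Complex.real_smul]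
    push_cast
    ring
  · simp only [Prod.smul_snd, smul_eq_mul]
    ring

/-- Newton's equation for the satellites -/
lemma newton_s (h : Good e X Y s τ ν Ω) (k : ℕ) (T : ℝ) : qsdd e X Y ν Ω k T =
    fr (qs e X Y ν Ω k T) (qc e X Y ν Ω T) + mu Ω • fr (qs e X Y ν Ω k T) (qs e X Y ν Ω (k + 1) T) +
      mu Ω • fr (qs e X Y ν Ω k T) (qs e X Y ν Ω (k + 2) T) := by
  have hu := unit_norm (Ω := Ω) k T
  rw [fr_of_rel hu (rel_c k T), fr_of_rel hu (rel_1 k T), fr_of_rel hu (rel_2 k T)]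
  unfold qsdd
  have h1 := planar_ode h (ν * T + k * th)
  have h2 := vert_ode h (ν * T + k * th)
  rw [h1, h2]
  unfold FF HH
  apply Prod.ext
  · simp only [Prod.fst_add, Prod.smul_fst, Complex.real_smul]
    ring
  · simp only [Prod.snd_add, Prod.smul_snd, smul_eq_mul]
    ring

lemma newton_c (h : Good e X Y s τ ν Ω) (T : ℝ) : qcdd e X Y ν Ω T =
    mu Ω • fr (qc e X Y ν Ω T) (qs e X Y ν Ω 0 T) + mu Ω • fr (qc e X Y ν Ω T) (qs e X Y ν Ω 1 T) +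
      mu Ω • fr (qc e X Y ν Ω T) (qs e X Y ν Ω 2 T) := by
  unfold qcdd
  rw [newton_s h 0, newton_s h 1, newton_s h 2]
  have e3 : qs e X Y ν Ω (1 + 2) T = qs e X Y ν Ω 0 T := qs_periodic 0 T
  have e4 : qs e X Y ν Ω (2 + 2) T = qs e X Y ν Ω 1 T := qs_periodic 1 T
  rw [e3, e4]
  norm_num
  rw [fr_anti (qs e X Y ν Ω 0 T) (qc e X Y ν Ω T), fr_anti (qs e X Y ν Ω 1 T) (qc e X Y ν Ω T),
    fr_anti (qs e X Y ν Ω 2 T) (qc e X Y ν Ω T), fr_anti (qs e X Y ν Ω 1 T) (qs e X Y ν Ω 0 T),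
    fr_anti (qs e X Y ν Ω 2 T) (qs e X Y ν Ω 0 T), fr_anti (qs e X Y ν Ω 2 T) (qs e X Y ν Ω 1 T)]
  module

end

end Pool.Agent.H399R4
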