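import Pool.Agent.H399R4.L16

set_option autoImplicit false

namespace Pool.Agent.H399R4

open Set Filter Topology MeasureTheory
open scoped NNReal ENNReal ComplexConjugate

abbrev E3 := EuclideanSpace ℝ (Fin 3)

noncomputable def vecLin : ℂ × ℝ →ₗ[ℝ] E3 where
  toFun q := !₂[q.1.re, q.1.im, q.2]
  map_add' a b := by
    ext i; fin_cases i <;> simp
  map_smul' c a := by
    ext i; fin_cases i <;> simp

noncomputable def vecL : ℂ × ℝ →L[ℝ] E3 := LinearMap.toContinuousLinearMap vecLin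

lemma vecL_apply (q : ℂ × ℝ) : vecL q = !₂[q.1.re, q.1.im, q.2] := rfl

lemma vecL_norm (q : ℂ × ℝ) : ‖vecL q‖ = RR q.1 q.2 := by
  rw [vecL_apply, EuclideanSpace.norm_eq]
  unfold RR
  congr 1
  simp [Fin.sum_univ_three]
  rw [← Complex.normSq_eq_norm_sq, Complex.normSq_apply]
  ring

lemma vecL_fr (q p : ℂ × ℝ) : vecL (fr q p) = (1 / ‖vecL p - vecL q‖ ^ 3) • (vecL p - vecL q) := by
  unfold fr
  rw [map_smul, ← map_sub, vecL_norm]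
  congr 1
  simp only [Prod.fst_sub, Prod.snd_sub]
  rw [inv_pow, one_div]

section
variable {e : ℝ} {X Y s τ : A} {ν Ω : ℝ}

noncomputable def pos (e : ℝ) (X Y : A) (ν Ω : ℝ) : Fin 4 → ℝ → ℂ × ℝ :=
  ![qs e X Y ν Ω 0, qs e X Y ν Ω 1, qs e X Y ν Ω 2, qc e X Y ν Ω]
noncomputable def vel (e : ℝ) (X Y : A) (ν Ω : ℝ) : Fin 4 → ℝ → ℂ × ℝ :=
  ![qsd e X Y ν Ω 0, qsd e X Y ν Ω 1, qsd e X Y ν Ω 2, qcd e X Y ν Ω]
noncomputable def acc (e : ℝ) (X Y : A) (ν Ω : ℝ) : Fin 4 → ℝ → ℂ × ℝ :=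
  ![qsdd e X Y ν Ω 0, qsdd e X Y ν Ω 1, qsdd e X Y ν Ω 2, qcdd e X Y ν Ω]
noncomputable def mass (Ω : ℝ) : Fin 4 → ℝ := ![mu Ω, mu Ω, mu Ω, 1]

lemma pos_deriv (i : Fin 4) (T : ℝ) : HasDerivAt (pos e X Y ν Ω i) (vel e X Y ν Ω i T) T := by
  fin_cases i
  · exact qs_deriv 0 T
  · exact qs_deriv 1 T
  · exact qs_deriv 2 T
  · exact qc_deriv T
lemma vel_deriv (i : Fin 4) (T : ℝ) : HasDerivAt (vel e X Y ν Ω i) (acc e X Y ν Ω i T) T := by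
  fin_cases i
  · exact qsd_deriv 0 T
  · exact qsd_deriv 1 T
  · exact qsd_deriv 2 T
  · exact qcd_deriv T
lemma acc_cont (i : Fin 4) : Continuous (acc e X Y ν Ω i) := by
  fin_cases i
  · exact qsdd_cont 0
  · exact qsdd_cont 1
  · exact qsdd_cont 2
  · exact qcdd_cont

lemma fr_self (q : ℂ × ℝ) : fr q q = 0 := by
  unfold fr; rw [sub_self q, smul_zero]

lemma newton_all (h : Good e X Y s τ ν Ω) (i : Fin 4) (T : ℝ) :
    acc e X Y ν Ω i T = ∑ j, mass Ω j • fr (pos e X Y ν Ω i T) (pos e X Y ν Ω j T) := by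
  have e3 : qs e X Y ν Ω (1 + 2) T = qs e X Y ν Ω 0 T := qs_periodic 0 T
  have e4 : qs e X Y ν Ω (2 + 2) T = qs e X Y ν Ω 1 T := qs_periodic 1 T
  rw [Fin.sum_univ_four]
  fin_cases i
  · change qsdd e X Y ν Ω 0 T = mu Ω • fr (qs e X Y ν Ω 0 T) (qs e X Y ν Ω 0 T) +
      mu Ω • fr (qs e X Y ν Ω 0 T) (qs e X Y ν Ω 1 T) + mu Ω • fr (qs e X Y ν Ω 0 T) (qs e X Y ν Ω 2 T) +
      (1:ℝ) • fr (qs e X Y ν Ω 0 T) (qc e X Y ν Ω T)
    rw [newton_s h 0, fr_self]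
    norm_num
    module
  · change qsdd e X Y ν Ω 1 T = mu Ω • fr (qs e X Y ν Ω 1 T) (qs e X Y ν Ω 0 T) +
      mu Ω • fr (qs e X Y ν Ω 1 T) (qs e X Y ν Ω 1 T) + mu Ω • fr (qs e X Y ν Ω 1 T) (qs e X Y ν Ω 2 T) +
      (1:ℝ) • fr (qs e X Y ν Ω 1 T) (qc e X Y ν Ω T)
    rw [newton_s h 1, fr_self, e3]
    norm_num
    module
  · change qsdd e X Y ν Ω 2 T = mu Ω • fr (qs e X Y ν Ω 2 T) (qs e X Y ν Ω 0 T) +
      mu Ω • fr (qs e X Y ν Ω 2 T) (qs e X Y ν Ω 1 T) + mu Ω • fr (qs e X Y ν Ω 2 T) (qs e X Y ν Ω 2 T) +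
      (1:ℝ) • fr (qs e X Y ν Ω 2 T) (qc e X Y ν Ω T)
    have e5 : qs e X Y ν Ω (2 + 1) T = qs e X Y ν Ω 0 T := qs_periodic 0 T
    rw [newton_s h 2, fr_self, e4, e5]
    norm_num
    module
  · change qcdd e X Y ν Ω T = mu Ω • fr (qc e X Y ν Ω T) (qs e X Y ν Ω 0 T) +
      mu Ω • fr (qc e X Y ν Ω T) (qs e X Y ν Ω 1 T) + mu Ω • fr (qc e X Y ν Ω T) (qs e X Y ν Ω 2 T) +
      (1:ℝ) • fr (qc e X Y ν Ω T) (qc e X Y ν Ω T)
    rw [newton_c h, fr_self]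
    norm_num

/-- the physical curves -/
noncomputable def xx (e : ℝ) (X Y : A) (ν Ω : ℝ) (i : Fin 4) (T : ℝ) : E3 := vecL (pos e X Y ν Ω i T)

lemma xx_deriv (i : Fin 4) (T : ℝ) : HasDerivAt (xx e X Y ν Ω i) (vecL (vel e X Y ν Ω i T)) T :=
  vecL.hasFDerivAt.comp_hasDerivAt T (pos_deriv i T)
lemma xx_deriv' (i : Fin 4) : deriv (xx e X Y ν Ω i) = fun T => vecL (vel e X Y ν Ω i T) :=
  funext (fun T => (xx_deriv i T).deriv)
lemma xxd_deriv (i : Fin 4) (T : ℝ) :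
    HasDerivAt (fun T => vecL (vel e X Y ν Ω i T)) (vecL (acc e X Y ν Ω i T)) T :=
  vecL.hasFDerivAt.comp_hasDerivAt T (vel_deriv i T)
lemma xx_deriv2 (i : Fin 4) : deriv (deriv (xx e X Y ν Ω i)) = fun T => vecL (acc e X Y ν Ω i T) := by
  rw [xx_deriv']
  exact funext (fun T => (xxd_deriv i T).deriv)

lemma xx_contDiff (i : Fin 4) : ContDiff ℝ 2 (xx e X Y ν Ω i) := by
  rw [show (2 : WithTop ℕ∞) = 1 + 1 by norm_num, contDiff_succ_iff_deriv]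
  refine ⟨fun T => (xx_deriv i T).differentiableAt, by simp, ?_⟩
  rw [contDiff_one_iff_deriv]
  constructor
  · rw [xx_deriv']
    exact fun T => (xxd_deriv i T).differentiableAt
  · rw [xx_deriv2]
    exact vecL.continuous.comp (acc_cont i)

lemma xx_newton (h : Good e X Y s τ ν Ω) (i : Fin 4) (T : ℝ) :
    deriv (deriv (xx e X Y ν Ω i)) T = ∑ j ∈ Finset.univ.erase i,
      (mass Ω j / ‖xx e X Y ν Ω j T - xx e X Y ν Ω i T‖ ^ 3) • (xx e X Y ν Ω j T - xx e X Y ν Ω i T) := by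
  rw [xx_deriv2, Finset.sum_erase _ (by simp)]
  simp only
  rw [newton_all h i T, map_sum]
  congr 1; ext1 j
  rw [map_smul, vecL_fr, smul_smul]
  unfold xx
  congr 1
  ring

lemma xx_com (T : ℝ) : ∑ i, mass Ω i • xx e X Y ν Ω i T = 0 := by
  rw [Fin.sum_univ_four]
  change mu Ω • vecL (qs e X Y ν Ω 0 T) + mu Ω • vecL (qs e X Y ν Ω 1 T) + mu Ω • vecL (qs e X Y ν Ω 2 T) +
    (1:ℝ) • vecL (qc e X Y ν Ω T) = 0
  unfold qc
  rw [map_smul, map_add, map_add]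
  module

/-- determinant -/
noncomputable def DD (b₀ b₁ b₂ : ℂ) (k₀ k₁ k₂ : ℝ) : ℝ :=
  k₀ * (conj b₁ * b₂).im + k₁ * (conj b₂ * b₀).im + k₂ * (conj b₀ * b₁).im

lemma DD_rot {u : ℂ} (hu : ‖u‖ = 1) (b₀ b₁ b₂ : ℂ) (k₀ k₁ k₂ : ℝ) :
    DD (u * b₀) (u * b₁) (u * b₂) k₀ k₁ k₂ = DD b₀ b₁ b₂ k₀ k₁ k₂ := by
  have h : conj u * u = 1 := by rw [Complex.conj_mul', hu]; norm_num
  have h2 : ∀ a b : ℂ, conj (u * a) * (u * b) = conj a * b := by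
    intro a b
    rw [map_mul]
    linear_combination (conj a * b) * h
  unfold DD
  rw [h2, h2, h2]

lemma lin_alg {b₀ b₁ b₂ : ℂ} {k₀ k₁ k₂ w₀ w₁ w₂ : ℝ} (hD : DD b₀ b₁ b₂ k₀ k₁ k₂ ≠ 0)
    (h1 : w₀ * b₀ + w₁ * b₁ + w₂ * b₂ = 0) (h2 : w₀ * k₀ + w₁ * k₁ + w₂ * k₂ = 0) :
    w₀ = 0 ∧ w₁ = 0 ∧ w₂ = 0 := by
  have hr := congrArg Complex.re h1
  have hi := congrArg Complex.im h1
  simp at hr hi
  unfold DD at hD
  simp only [Complex.mul_im, Complex.conj_re, Complex.conj_im] at hD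
  refine ⟨?_, ?_, ?_⟩
  · have : w₀ * (k₀ * (b₁.re * b₂.im + -b₁.im * b₂.re) + k₁ * (b₂.re * b₀.im + -b₂.im * b₀.re) +
      k₂ * (b₀.re * b₁.im + -b₀.im * b₁.re)) = 0 := by
      linear_combination (b₁.re * b₂.im - b₁.im * b₂.re) * h2 + (k₁ * b₂.re - k₂ * b₁.re) * hi +
        (k₂ * b₁.im - k₁ * b₂.im) * hr
    exact (mul_eq_zero.1 this).resolve_right hD
  · have : w₁ * (k₀ * (b₁.re * b₂.im + -b₁.im * b₂.re) + k₁ * (b₂.re * b₀.im + -b₂.im * b₀.re) +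
      k₂ * (b₀.re * b₁.im + -b₀.im * b₁.re)) = 0 := by
      linear_combination (b₂.re * b₀.im - b₂.im * b₀.re) * h2 + (k₂ * b₀.re - k₀ * b₂.re) * hi +
        (k₀ * b₂.im - k₂ * b₀.im) * hr
    exact (mul_eq_zero.1 this).resolve_right hD
  · have : w₂ * (k₀ * (b₁.re * b₂.im + -b₁.im * b₂.re) + k₁ * (b₂.re * b₀.im + -b₂.im * b₀.re) +
      k₂ * (b₀.re * b₁.im + -b₀.im * b₁.re)) = 0 := by
      linear_combination (b₀.re * b₁.im - b₀.im * b₁.re) * h2 + (k₀ * b₁.re - k₁ * b₀.re) * hi +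
        (k₁ * b₀.im - k₀ * b₁.im) * hr
    exact (mul_eq_zero.1 this).resolve_right hD

lemma vecL_inj {q : ℂ × ℝ} (h : vecL q = 0) : q = 0 := by
  rw [vecL_apply] at h
  have h0 := congrArg (fun v : E3 => v 0) h
  have h1 := congrArg (fun v : E3 => v 1) h
  have h2 := congrArg (fun v : E3 => v 2) h
  simp at h0 h1 h2
  exact Prod.ext (Complex.ext h0 h1) h2

/-- affine independence from the determinant -/
lemma xx_aff (T : ℝ)
    (hD : DD (dc e X Ω (ν * T)) (zt * dc e X Ω (ν * T + th)) (zt ^ 2 * dc e X Ω (ν * T + th + th))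
      (kc e Y Ω (ν * T)) (kc e Y Ω (ν * T + th)) (kc e Y Ω (ν * T + th + th)) ≠ 0) :
    AffineIndependent ℝ (fun i => xx e X Y ν Ω i T) := by
  rw [affineIndependent_iff_of_fintype]
  intro w hw h
  rw [Finset.weightedVSub_eq_linear_combination _ hw] at h
  rw [Fin.sum_univ_four] at hw h
  have h' : vecL (w 0 • qs e X Y ν Ω 0 T + w 1 • qs e X Y ν Ω 1 T + w 2 • qs e X Y ν Ω 2 T + w 3 • qc e X Y ν Ω T) = 0 := by
    rw [map_add, map_add, map_add, map_smul, map_smul, map_smul, map_smul]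
    exact h
  have h2 := vecL_inj h'
  have hw3 : w 3 = -(w 0 + w 1 + w 2) := by linarith
  rw [hw3] at h2
  have h3 : w 0 • (qc e X Y ν Ω T - qs e X Y ν Ω 0 T) + w 1 • (qc e X Y ν Ω T - qs e X Y ν Ω 1 T) +
      w 2 • (qc e X Y ν Ω T - qs e X Y ν Ω 2 T) = 0 := by
    have : w 0 • (qc e X Y ν Ω T - qs e X Y ν Ω 0 T) + w 1 • (qc e X Y ν Ω T - qs e X Y ν Ω 1 T) +
      w 2 • (qc e X Y ν Ω T - qs e X Y ν Ω 2 T) = -(w 0 • qs e X Y ν Ω 0 T + w 1 • qs e X Y ν Ω 1 T + w 2 • qs e X Y ν Ω 2 T + (-(w 0 + w 1 + w 2)) • qc e X Y ν Ω T) := by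
      module
    rw [this, h2, neg_zero]
  rw [rel_c 0, rel_c 1, rel_c 2] at h3
  have t0 : ν * T + ((0:ℕ):ℝ) * th = ν * T := by push_cast; ring
  have t1 : ν * T + ((1:ℕ):ℝ) * th = ν * T + th := by push_cast; ring
  have t2 : ν * T + ((2:ℕ):ℝ) * th = ν * T + th + th := by push_cast; ring
  rw [t0, t1, t2] at h3
  have f1 := congrArg Prod.fst h3
  have f2 := congrArg Prod.snd h3
  simp only [Prod.fst_add, Prod.smul_fst, Complex.real_smul, Prod.fst_zero, Prod.snd_add, Prod.smul_snd,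
    smul_eq_mul, Prod.snd_zero, pow_zero, pow_one, mul_one] at f1 f2
  rw [← DD_rot (rot_norm Ω T)] at hD
  have k := lin_alg (w₀ := w 0) (w₁ := w 1) (w₂ := w 2) hD (by linear_combination -f1) (by linarith)
  intro i
  fin_cases i
  · exact k.1
  · exact k.2.1
  · exact k.2.2
  · change w 3 = 0
    rw [hw3, k.1, k.2.1, k.2.2]; ring

end

end Pool.Agent.H399R4
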