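import Pool.Agent.H399R4.L17

set_option autoImplicit false

namespace Pool.Agent.H399R4

open Set Filter Topology MeasureTheory
open scoped NNReal ENNReal ComplexConjugate

/-- shift operator -/
noncomputable def Sh : A →L[ℝ] A := op (mulC zz 1 (fun n => by
  unfold zz
  split_ifs
  · simp
  · rw [norm_pow, zt_norm]; norm_num
  · rw [zt_norm]))

lemma ev_Sh (a : A) (t : ℝ) : ev t (Sh a) = ev (t + th) a := by
  unfold Sh
  rw [ev_mul _ a t 0 1 0 (fun n => by ring)]
  ring

/-- `a ↦ Im (ζ a)` -/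
noncomputable def mz : A →L[ℝ] A := op (mulC (fun _ => zt) 1 (fun _ => zt_norm.le))
noncomputable def mI : A →L[ℝ] A := op (mulC (fun _ => -(Complex.I / 2)) 1 (fun _ => by simp; norm_num))
noncomputable def imz : A →L[ℝ] A := mI.comp (mz - cj.comp mz)

lemma ev_mz (a : A) (t : ℝ) : ev t (mz a) = zt * ev t a := by
  have : mz a = zt • a := by
    apply A_ext; intro n; unfold mz; rw [mulC_apply, A_smulC]
  rw [this, ev_smulC]
lemma ev_mI (a : A) (t : ℝ) : ev t (mI a) = -(Complex.I / 2) * ev t a := by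
  have : mI a = (-(Complex.I / 2)) • a := by
    apply A_ext; intro n; unfold mI; rw [mulC_apply, A_smulC]
  rw [this, ev_smulC]

lemma ev_imz (a : A) (t : ℝ) : ev t (imz a) = ((zt * ev t a).im : ℂ) := by
  unfold imz
  rw [ContinuousLinearMap.comp_apply, ev_mI, _root_.sub_apply, map_sub, ContinuousLinearMap.comp_apply, ev_cj, ev_mz]
  have h := Complex.sub_conj (zt * ev t a)
  rw [h]
  have hI : Complex.I * Complex.I = -1 := Complex.I_mul_I
  push_cast
  linear_combination (-((zt * ev t a).im : ℂ)) * hI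

/-- one term -/
noncomputable def Qj (e : ℝ) (k a b : A) : A := cv k (imz (cj a + b + e • cv (cj a) b))

/-- scaled determinant -/
noncomputable def QQ (e : ℝ) (T D : A) : A :=
  Qj e T (Sh D) (Sh (Sh D)) + Qj e (Sh T) (Sh (Sh D)) D + Qj e (Sh (Sh T)) D (Sh D)

noncomputable def QD (e : ℝ) (X Y V : A) (Ω : ℝ) : A :=
  (3 * pp Ω * (r3 / 2)) • Pi0 (chi V) + QQ e (tht Y Ω) (del X Ω)

lemma zt_im : zt.im = r3 / 2 := rfl

lemma term_eq {e : ℝ} {u v : ℂ} : (conj (zt * (1 + e * u)) * (zt ^ 2 * (1 + e * v))).im =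
    r3 / 2 + e * (zt * (conj u + v + e * (conj u * v))).im := by
  have h : conj (zt * (1 + e * u)) * (zt ^ 2 * (1 + e * v)) = zt + e * (zt * (conj u + v + e * (conj u * v))) := by
    simp only [map_mul, map_add, map_one, Complex.conj_ofReal, zt_conj]
    have h2 := zt2_2
    linear_combination ((1 + (e:ℂ) * conj u) * (1 + e * v)) * h2
  rw [h, Complex.add_im, Complex.im_ofReal_mul, zt_im]

lemma term_eq2 {e : ℝ} {u v : ℂ} : (conj (zt ^ 2 * (1 + e * u)) * (1 + e * v)).im =
    r3 / 2 + e * (zt * (conj u + v + e * (conj u * v))).im := by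
  have h : conj (zt ^ 2 * (1 + e * u)) * (1 + e * v) = zt + e * (zt * (conj u + v + e * (conj u * v))) := by
    simp only [map_mul, map_add, map_one, Complex.conj_ofReal, zt_conj, map_pow]
    have h2 := zt2_2
    linear_combination ((1 + (e:ℂ) * conj u) * (1 + e * v)) * h2
  rw [h, Complex.add_im, Complex.im_ofReal_mul, zt_im]

lemma term_eq3 {e : ℝ} {u v : ℂ} : (conj (1 + e * u) * (zt * (1 + e * v))).im =
    r3 / 2 + e * (zt * (conj u + v + e * (conj u * v))).im := by
  have h : conj (1 + e * u) * (zt * (1 + e * v)) = zt + e * (zt * (conj u + v + e * (conj u * v))) := by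
    simp only [map_mul, map_add, map_one, Complex.conj_ofReal]
    ring
  rw [h, Complex.add_im, Complex.im_ofReal_mul, zt_im]

lemma ev_Qj (e : ℝ) (k a b : A) (t : ℝ) : ev t (Qj e k a b) =
    ev t k * ((zt * (conj (ev t a) + ev t b + e * (conj (ev t a) * ev t b))).im : ℂ) := by
  unfold Qj
  rw [ev_cv, ev_imz, map_add, map_add, map_smul, ev_cv, ev_cj, Complex.real_smul]

/-- the determinant is `e²` times the evaluation of the scaled one -/
lemma DD_eq {e : ℝ} {X Y V : A} {Ω : ℝ} (hV : Pi0 (chi Y) = e • Pi0 (chi V)) (t : ℝ) :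
    (DD (dc e X Ω t) (zt * dc e X Ω (t + th)) (zt ^ 2 * dc e X Ω (t + th + th))
      (kc e Y Ω t) (kc e Y Ω (t + th)) (kc e Y Ω (t + th + th)) : ℂ) = (e:ℂ) ^ 2 * ev t (QD e X Y V Ω) := by
  unfold DD
  rw [dc_eq, dc_eq, dc_eq, term_eq, term_eq2, term_eq3]
  unfold QD QQ
  rw [map_add, map_add, map_add, ev_Qj, ev_Qj, ev_Qj, map_smul, Complex.real_smul]
  simp only [ev_Sh]
  push_cast
  rw [kc_eq, kc_eq, kc_eq]
  have h1 : (ev t (tht Y Ω) + ev (t + th) (tht Y Ω) + ev (t + th + th) (tht Y Ω)) = 3 * pp Ω * (e * ev t (Pi0 (chi V))) := by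
    have h2 : ev t (Pi0 (tht Y Ω)) = (ev t (tht Y Ω) + ev (t + th) (tht Y Ω) + ev (t + th + th) (tht Y Ω)) / 3 := ev_Pi0 _ _
    have h3 : Pi0 (tht Y Ω) = (pp Ω * e) • Pi0 (chi V) := by
      unfold tht
      rw [map_add, map_smul]
      have : Pi0 (Pi0 (chi Y)) = Pi0 (chi Y) := by
        apply A_ext; intro n
        rw [Pi0_apply, Pi0_apply]
        split_ifs <;> simp
      rw [this, hV]
      unfold pp
      module
    rw [h3, map_smul, Complex.real_smul] at h2
    push_cast at h2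
    linear_combination -3 * h2
  push_cast
  linear_combination ((e:ℂ) * (r3 / 2)) * h1

end Pool.Agent.H399R4
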