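import Pool.Agent.H399R4.L18

set_option autoImplicit false

namespace Pool.Agent.H399R4

open Set Filter Topology MeasureTheory
open scoped NNReal ENNReal ComplexConjugate

lemma imz_term {c : ℂ} (hc : conj c = c) :
    c * ((((-((y0 * p0 : ℝ) : ℂ)) * zt ^ 2 + (3 * p0 : ℝ)) * c).im : ℂ) = (y0 * p0 * (r3 / 2) : ℝ) * c ^ 2 := by
  have h1 : ((c.re : ℝ) : ℂ) = c := Complex.conj_eq_iff_re.1 hc
  have h2 : c.im = 0 := Complex.conj_eq_iff_im.1 hc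
  have h3 : ((((-((y0 * p0 : ℝ) : ℂ)) * zt ^ 2 + (3 * p0 : ℝ)) * c).im) = y0 * p0 * (r3 / 2) * c.re := by
    rw [Complex.mul_im, h2, mul_zero, zero_add, Complex.add_im, Complex.ofReal_im, neg_mul, Complex.neg_im,
      Complex.im_ofReal_mul, zt_sq]
    ring
  rw [h3, Complex.ofReal_mul _ c.re, h1]
  ring

lemma ev_del0 (t : ℝ) : ev t (del X0 Om0) = (-((y0 * p0 : ℝ) : ℂ)) * ex 1 t + (3 * p0 : ℝ) * ex (-1) t := by
  rw [del_X0, map_add, map_smul, map_smul, ev_sg, ev_sg, Complex.real_smul, Complex.real_smul]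
  push_cast
  ring
lemma ev_tht0 (t : ℝ) : ev t (tht Y0 Om0) = ex 1 t + ex (-1) t := by
  rw [tht_Y0, map_add, ev_sg, ev_sg]

lemma exa (t : ℝ) : ex 1 (t + th) = ex 1 t * zt ^ 2 := by rw [ex_shift, ex_one_th]
lemma exb (t : ℝ) : ex (-1) (t + th) = ex (-1) t * zt := by
  rw [ex_shift, ex_th]
  unfold zz
  norm_num

lemma ex_mul (t : ℝ) : ex 1 t * ex (-1) t = 1 := by
  rw [← ex_add]; norm_num [ex_zero]

/-- value of the scaled determinant in the limit -/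
lemma QQ_base (t : ℝ) : ev t (QQ 0 (tht Y0 Om0) (del X0 Om0)) = (3 * r3 * y0 * p0 : ℝ) := by
  unfold QQ
  rw [map_add, map_add, ev_Qj, ev_Qj, ev_Qj]
  simp only [ev_Sh, ev_del0, ev_tht0, exa, exb, Complex.ofReal_zero, zero_mul, add_zero]
  set E := ex 1 t with hE
  set F := ex (-1) t with hF
  have hc1 : conj E = F := by rw [hE, ex_conj]
  have hc2 : conj F = E := by rw [hF, ex_conj]; norm_num; rfl
  have h3 := zt_cube
  have h22 : (zt ^ 2) ^ 2 = zt := by rw [sq (zt ^ 2)]; exact zt2_2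
  have hz2 : conj (zt ^ 2) = zt := by rw [map_pow, zt_conj]; exact h22
  have e1 : zt * (conj (-((y0 * p0 : ℝ) : ℂ) * (E * zt ^ 2) + ((3 * p0 : ℝ) : ℂ) * (F * zt)) +
      (-((y0 * p0 : ℝ) : ℂ) * (E * zt ^ 2 * zt ^ 2) + ((3 * p0 : ℝ) : ℂ) * (F * zt * zt))) =
      (-((y0 * p0 : ℝ) : ℂ) * zt ^ 2 + ((3 * p0 : ℝ) : ℂ)) * (E + F) := by
    simp only [map_add, map_mul, map_neg, Complex.conj_ofReal, hc1, hc2, hz2, zt_conj]
    linear_combination (-((y0 * p0 : ℝ) : ℂ) * E * zt ^ 2 + ((3 * p0 : ℝ) : ℂ) * E + ((3 * p0 : ℝ) : ℂ) * F) * h3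
  have e2 : zt * (conj (-((y0 * p0 : ℝ) : ℂ) * (E * zt ^ 2 * zt ^ 2) + ((3 * p0 : ℝ) : ℂ) * (F * zt * zt)) +
      (-((y0 * p0 : ℝ) : ℂ) * E + ((3 * p0 : ℝ) : ℂ) * F)) =
      (-((y0 * p0 : ℝ) : ℂ) * zt ^ 2 + ((3 * p0 : ℝ) : ℂ)) * (E * zt ^ 2 + F * zt) := by
    simp only [map_add, map_mul, map_neg, Complex.conj_ofReal, hc1, hc2, hz2, zt_conj]
    linear_combination (-((y0 * p0 : ℝ) : ℂ) * (-(E * zt)) + ((3 * p0 : ℝ) : ℂ) * E * zt ^ 2) * h3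
  have e3 : zt * (conj (-((y0 * p0 : ℝ) : ℂ) * E + ((3 * p0 : ℝ) : ℂ) * F) +
      (-((y0 * p0 : ℝ) : ℂ) * (E * zt ^ 2) + ((3 * p0 : ℝ) : ℂ) * (F * zt))) =
      (-((y0 * p0 : ℝ) : ℂ) * zt ^ 2 + ((3 * p0 : ℝ) : ℂ)) * (E * zt ^ 2 * zt ^ 2 + F * zt * zt) := by
    simp only [map_add, map_mul, map_neg, Complex.conj_ofReal, hc1, hc2]
    linear_combination (((y0 * p0 : ℝ) : ℂ) * F * zt - ((3 * p0 : ℝ) : ℂ) * E * zt + ((y0 * p0 : ℝ) : ℂ) * E * zt ^ 3) * h3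
  have c1 : conj (E + F) = E + F := by rw [map_add, hc1, hc2, add_comm]
  have c2 : conj (E * zt ^ 2 + F * zt) = E * zt ^ 2 + F * zt := by
    rw [map_add, map_mul, map_mul, hc1, hc2, hz2, zt_conj, add_comm]
  have c3 : conj (E * zt ^ 2 * zt ^ 2 + F * zt * zt) = E * zt ^ 2 * zt ^ 2 + F * zt * zt := by
    simp only [map_add, map_mul, hc1, hc2, hz2, zt_conj]
    linear_combination (0:ℂ) * h3
  rw [e1, e2, e3, imz_term c1, imz_term c2, imz_term c3]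
  have hEF : E * F = 1 := ex_mul t
  have hs := zt_sum
  push_cast
  linear_combination ((y0:ℂ) * p0 * (r3 / 2)) * (E ^ 2 * hs + E ^ 2 * (zt + zt ^ 2 * (zt ^ 3 + 1)) * h3 + F ^ 2 * hs +
    F ^ 2 * zt * h3 + 2 * E * F * (zt ^ 3 + 2) * h3 + 6 * hEF)

lemma QD_base {V : E} (hV : DE V = -DG (1, 0)) (t : ℝ) :
    ev t (QD 0 X0 Y0 V.2.1 Om0) = (12 * r3 * y0 ^ 2 : ℝ) := by
  unfold QD
  rw [map_add, map_smul, second_order hV, map_smul, ev_one, QQ_base, pp_Om0, Complex.real_smul, Complex.real_smul]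
  have h := res_rel
  have h2 : ((p0 * (9 - y0) : ℝ) : ℂ) = ((8 * y0 ^ 2 : ℝ) : ℂ) := by rw [h]
  push_cast at h2 ⊢
  linear_combination (3 / 2 * (r3:ℂ)) * h2

lemma QD_cont : Continuous (fun q : ℝ × A × A × A × ℝ => QD q.1 q.2.1 q.2.2.1 q.2.2.2.1 q.2.2.2.2) := by
  unfold QD QQ Qj pp del tht eta chi mu
  fun_prop

end Pool.Agent.H399R4
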