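import Pool.Agent.H399R4.L1

set_option autoImplicit false

namespace Pool.Agent.H399R4

open Set Filter Topology MeasureTheory
open scoped NNReal ENNReal ComplexConjugate

/-! ### calculus of evaluation -/

/-- weight `1/(1+n²)` -/
noncomputable def kp (n : ℤ) : ℝ := 1 / (1 + (n:ℝ) ^ 2)

lemma kp_pos (n : ℤ) : 0 < kp n := by unfold kp; positivity
lemma kp_le (n : ℤ) : kp n ≤ 1 := by
  unfold kp
  rw [div_le_one (by positivity)]
  nlinarith [sq_nonneg (n:ℝ)]
lemma kp_neg (n : ℤ) : kp (-n) = kp n := by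
  unfold kp; push_cast; ring
lemma kp_mul (n : ℤ) : kp n * (1 + (n:ℝ) ^ 2) = 1 := by
  unfold kp; field_simp

lemma n_kp_le (n : ℤ) : |(n:ℝ)| * kp n ≤ 1 := by
  unfold kp
  rw [mul_one_div, div_le_one (by positivity)]
  nlinarith [abs_nonneg (n:ℝ), sq_abs (n:ℝ), sq_nonneg (|(n:ℝ)| - 1)]

lemma n2_kp_le (n : ℤ) : (n:ℝ) ^ 2 * kp n ≤ 1 := by
  unfold kp
  rw [mul_one_div, div_le_one (by positivity)]
  linarith

/-- multiplier with given symbol -/
noncomputable def mulC (α : ℤ → ℂ) (C : ℝ) (h : ∀ n, ‖α n‖ ≤ C) : Coef where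
  α := α
  β := 0
  γ := 0
  δ := 0
  C := C
  h := fun n => by
    have := (norm_nonneg _).trans (h n)
    simp [h n, this]

lemma mulC_apply (α : ℤ → ℂ) (C : ℝ) (h : ∀ n, ‖α n‖ ≤ C) (a : A) (n : ℤ) :
    op (mulC α C h) a n = α n * a n := by
  rw [op_apply]; simp [mulC]

/-- smoothing operator -/
noncomputable def K0 : A →L[ℝ] A := op (mulC (fun n => (kp n : ℂ)) 1 (fun n => by
  rw [Complex.norm_real, Real.norm_eq_abs, abs_of_pos (kp_pos n)]; exact kp_le n))

noncomputable def K1 : A →L[ℝ] A := op (mulC (fun n => ((n * kp n : ℝ) : ℂ)) 1 (fun n => by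
  rw [Complex.norm_real, Real.norm_eq_abs, abs_mul, abs_of_pos (kp_pos n)]; exact n_kp_le n))

noncomputable def K2 : A →L[ℝ] A := op (mulC (fun n => ((n ^ 2 * kp n : ℝ) : ℂ)) 1 (fun n => by
  rw [Complex.norm_real, Real.norm_eq_abs, abs_of_nonneg (by have := kp_pos n; positivity)]; exact n2_kp_le n))

lemma K0_apply (a : A) (n : ℤ) : K0 a n = kp n * a n := mulC_apply _ _ _ _ _
lemma K1_apply (a : A) (n : ℤ) : K1 a n = (n * kp n : ℝ) * a n := mulC_apply _ _ _ _ _
lemma K2_apply (a : A) (n : ℤ) : K2 a n = (n ^ 2 * kp n : ℝ) * a n := mulC_apply _ _ _ _ _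

lemma ex_hasDeriv (n : ℤ) (t : ℝ) : HasDerivAt (ex n) ((n : ℂ) * Complex.I * ex n t) t := by
  unfold ex
  have h1 : HasDerivAt (fun t : ℝ => (((n : ℝ) * t : ℝ) : ℂ) * Complex.I) ((n : ℂ) * Complex.I) t := by
    have h0 : HasDerivAt (fun t : ℝ => (n : ℝ) * t) (n : ℝ) t := by
      simpa using (hasDerivAt_id t).const_mul (n : ℝ)
    have := (h0.ofReal_comp).mul_const Complex.I
    refine this.congr_deriv (by simp)
  exact h1.cexp.congr_deriv (by ring)

lemma ex_cont (n : ℤ) : Continuous (ex n) :=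
  continuous_iff_continuousAt.2 (fun t => (ex_hasDeriv n t).continuousAt)

lemma ev_cont (a : A) : Continuous (fun t => ev t a) := by
  simp only [ev_apply]
  apply continuous_tsum (f := fun (n : ℤ) (t : ℝ) => a n * ex n t)
    (fun n => continuous_const.mul (ex_cont n)) (A_summable a)
  intro n t
  rw [norm_mul, ex_norm, mul_one]

lemma ev_deriv {a b : A} (h : ∀ n : ℤ, b n = n * Complex.I * a n) (t : ℝ) :
    HasDerivAt (fun t => ev t a) (ev t b) t := by
  simp only [ev_apply]
  apply hasDerivAt_tsum (g := fun (n : ℤ) (t : ℝ) => a n * ex n t)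
    (g' := fun (n : ℤ) (t : ℝ) => b n * ex n t) (A_summable b) (y₀ := 0)
  · intro n y
    have := (ex_hasDeriv n y).const_mul (a n)
    refine this.congr_deriv ?_
    rw [h]; ring
  · intro n y
    rw [norm_mul, ex_norm, mul_one]
  · exact (ev_summable a 0).of_norm

lemma ev_K0_deriv (a : A) (t : ℝ) : HasDerivAt (fun t => ev t (K0 a)) (Complex.I * ev t (K1 a)) t := by
  rw [← ev_smulC]
  apply ev_deriv
  intro n
  rw [A_smulC, K0_apply, K1_apply]
  push_cast
  ring

lemma ev_K1_deriv (a : A) (t : ℝ) : HasDerivAt (fun t => ev t (K1 a)) (Complex.I * ev t (K2 a)) t := by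
  rw [← ev_smulC]
  apply ev_deriv
  intro n
  rw [A_smulC, K2_apply, K1_apply]
  push_cast
  ring

/-! ### uniqueness of coefficients -/

lemma int_ex (n : ℤ) : ∫ t in (0:ℝ)..(2 * Real.pi), ex n t = if n = 0 then (2 * Real.pi : ℂ) else 0 := by
  split_ifs with h
  · subst h
    simp [ex_zero]
  · have hn : (n : ℂ) * Complex.I ≠ 0 := mul_ne_zero (by exact_mod_cast h) Complex.I_ne_zero
    have h1 : ∀ t ∈ uIcc (0:ℝ) (2 * Real.pi), HasDerivAt (fun t => ex n t / ((n : ℂ) * Complex.I)) (ex n t) t := by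
      intro t _
      have := (ex_hasDeriv n t).div_const ((n : ℂ) * Complex.I)
      refine this.congr_deriv ?_
      field_simp
    rw [intervalIntegral.integral_eq_sub_of_hasDerivAt h1 ((ex_cont n).intervalIntegrable _ _)]
    have h2 : ex n (2 * Real.pi) = ex n 0 := by
      unfold ex
      have : (((n : ℝ) * (2 * Real.pi) : ℝ) : ℂ) * Complex.I = n * (2 * Real.pi * Complex.I) := by
        push_cast; ring
      rw [this, Complex.exp_int_mul_two_pi_mul_I]
      simp
    rw [h2, sub_self]

lemma coord_integral (a : A) (m : ℤ) :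
    ∫ t in (0:ℝ)..(2 * Real.pi), ev t a * ex (-m) t = 2 * Real.pi * a m := by
  have h1 := intervalIntegral.hasSum_intervalIntegral_of_summable_norm (a := 0) (b := 2 * Real.pi)
    (f := fun n : ℤ => (⟨fun t => a n * ex n t * ex (-m) t, by
      have := ex_cont n; have := ex_cont (-m); fun_prop⟩ : C(ℝ, ℂ))) (by
      refine Summable.of_nonneg_of_le (fun _ => norm_nonneg _) (fun n => ?_) (A_summable a)
      apply (ContinuousMap.norm_le _ (norm_nonneg _)).2
      intro x
      simp [ex_norm])
  simp only [ContinuousMap.coe_mk] at h1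
  have h2 : ∀ n : ℤ, ∫ t in (0:ℝ)..(2 * Real.pi), a n * ex n t * ex (-m) t =
      if n = m then 2 * Real.pi * a m else 0 := by
    intro n
    have : ∀ t, a n * ex n t * ex (-m) t = a n * ex (n - m) t := by
      intro t
      rw [mul_assoc, ← ex_add, sub_eq_add_neg]
    simp_rw [this]
    rw [intervalIntegral.integral_const_mul, int_ex]
    by_cases h : n = m
    · subst h; simp; ring
    · rw [if_neg (sub_ne_zero.2 h), if_neg h, mul_zero]
  simp_rw [h2] at h1
  have h3 := h1.unique (hasSum_ite_eq m (2 * Real.pi * a m))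
  rw [← h3]
  congr 1
  ext t
  rw [ev_apply, tsum_mul_right]

lemma ev_injective {a b : A} (h : ∀ t, ev t a = ev t b) : a = b := by
  apply A_ext
  intro m
  have h1 := coord_integral a m
  have h2 := coord_integral b m
  simp_rw [h] at h1
  rw [h1] at h2
  have : (2 * Real.pi : ℂ) ≠ 0 := by
    simp [Real.pi_ne_zero]
  exact mul_left_cancel₀ this h2

/-! ### symmetries -/

/-- complex conjugate function -/
noncomputable def cj : A →L[ℝ] A := op ⟨0, 0, 0, 1, 1, fun n => by simp⟩
/-- conjugated coefficients -/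
noncomputable def rh : A →L[ℝ] A := op ⟨0, 1, 0, 0, 1, fun n => by simp⟩
/-- real part of the coefficients -/
noncomputable def re' : A →L[ℝ] A := op ⟨fun _ => 1 / 2, fun _ => 1 / 2, 0, 0, 1, fun n => by simp; norm_num⟩
/-- real even part -/
noncomputable def pe : A →L[ℝ] A :=
  op ⟨fun _ => 1 / 4, fun _ => 1 / 4, fun _ => 1 / 4, fun _ => 1 / 4, 1, fun n => by simp; norm_num⟩

lemma cj_apply (a : A) (n : ℤ) : cj a n = conj (a (-n)) := by
  unfold cj; rw [op_apply]; simp
lemma rh_apply (a : A) (n : ℤ) : rh a n = conj (a n) := by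
  unfold rh; rw [op_apply]; simp
lemma re'_apply (a : A) (n : ℤ) : re' a n = ((a n).re : ℂ) := by
  unfold re'; rw [op_apply]
  apply Complex.ext <;> simp
  · ring
lemma pe_apply (a : A) (n : ℤ) : pe a n = ((((a n).re + (a (-n)).re) / 2 : ℝ) : ℂ) := by
  unfold pe; rw [op_apply]
  apply Complex.ext <;> simp
  · ring

lemma ev_cj (a : A) (t : ℝ) : ev t (cj a) = conj (ev t a) := by
  rw [ev_apply, ev_apply, Complex.conj_tsum, ← (Equiv.neg ℤ).tsum_eq]
  congr 1; ext n
  simp only [Equiv.neg_apply, cj_apply, map_mul, ex_conj, neg_neg]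

lemma ev_rh (a : A) (t : ℝ) : ev t (rh a) = conj (ev (-t) a) := by
  rw [ev_apply, ev_apply, Complex.conj_tsum]
  congr 1; ext n
  simp only [rh_apply, map_mul, ex_conj, ex_neg, neg_neg]

lemma re'_eq (a : A) : re' a = (1/2 : ℝ) • (a + rh a) := by
  apply A_ext; intro n
  rw [re'_apply, A_smulR, A_add, rh_apply]
  apply Complex.ext <;> simp
  ring

lemma ev_re' (a : A) (t : ℝ) : ev t (re' a) = (ev t a + conj (ev (-t) a)) / 2 := by
  rw [re'_eq, map_smul, map_add, ev_rh, Complex.real_smul]
  push_cast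
  ring

/-- elements with `conj f(-t) = f(t)` have real coefficients -/
lemma real_of_sym {a : A} (h : ∀ t, conj (ev (-t) a) = ev t a) : re' a = a := by
  apply ev_injective
  intro t
  rw [ev_re', h]
  ring

lemma pe_eq (a : A) : pe a = (1/2 : ℝ) • (re' a + cj (re' a)) := by
  apply A_ext; intro n
  rw [pe_apply, A_smulR, A_add, re'_apply, cj_apply, re'_apply]
  simp
  ring

lemma pe_of_sym {a : A} (h1 : ∀ t, conj (ev (-t) a) = ev t a) (h2 : ∀ t, conj (ev t a) = ev t a) :
    pe a = a := by
  rw [pe_eq, real_of_sym h1]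
  apply ev_injective
  intro t
  rw [map_smul, map_add, ev_cj, h2, Complex.real_smul]
  push_cast
  ring

lemma re'_re' (a : A) : re' (re' a) = re' a := by
  apply A_ext; intro n
  simp [re'_apply]

lemma pe_pe (a : A) : pe (pe a) = pe a := by
  apply A_ext; intro n
  simp [pe_apply]
  ring

lemma re'_pe (a : A) : re' (pe a) = pe a := by
  apply A_ext; intro n
  rw [re'_apply, pe_apply]
  simp

lemma cj_pe (a : A) : cj (pe a) = pe a := by
  apply A_ext; intro n
  rw [cj_apply, pe_apply, pe_apply, Complex.conj_ofReal, neg_neg, add_comm]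

lemma ev_re'_sym (a : A) (t : ℝ) : conj (ev (-t) (re' a)) = ev t (re' a) := by
  rw [← ev_rh]
  congr 1
  apply A_ext; intro n
  rw [rh_apply, re'_apply, Complex.conj_ofReal]

lemma ev_pe_real (a : A) (t : ℝ) : conj (ev t (pe a)) = ev t (pe a) := by
  rw [← ev_cj, cj_pe]

lemma ev_pe_even (a : A) (t : ℝ) : ev (-t) (pe a) = ev t (pe a) := by
  have h := ev_re'_sym (pe a) t
  rw [re'_pe] at h
  rw [← h, ev_pe_real]

/-! ### compactness -/

/-- one-coordinate injection -/
noncomputable def inj (n : ℤ) : ℂ →L[ℝ] A :=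
  LinearMap.mkContinuous
    { toFun := fun z => z • sg n
      map_add' := fun a b => add_smul a b _
      map_smul' := fun c a => by
        apply A_ext; intro m
        simp [A_smulR]
        ring } ‖sg n‖ (fun z => by
      simp only [LinearMap.coe_mk, AddHom.coe_mk]
      rw [mul_comm, norm_smul])

noncomputable def trunc (N : ℕ) : A →L[ℝ] A := ∑ n ∈ Finset.Icc (-(N:ℤ)) N, (inj n).comp (coord n)

lemma trunc_apply (N : ℕ) (a : A) (m : ℤ) :
    trunc N a m = if m ∈ Finset.Icc (-(N:ℤ)) N then a m else 0 := by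
  have h1 : trunc N a m = ∑ n ∈ Finset.Icc (-(N:ℤ)) N, a n * (if m = n then 1 else 0) := by
    unfold trunc
    rw [_root_.sum_apply]
    have : ∀ s : Finset ℤ, (∑ n ∈ s, ((inj n).comp (coord n)) a : A) m =
        ∑ n ∈ s, a n * (if m = n then 1 else 0) := by
      intro s
      induction s using Finset.induction_on with
      | empty => simp
      | insert x s hx ih =>
        rw [Finset.sum_insert hx, Finset.sum_insert hx, A_add, ih]
        congr 1
    exact this _
  rw [h1]
  simp

lemma trunc_compact (N : ℕ) : IsCompactOperator (trunc N) := by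
  unfold trunc
  have : ∀ s : Finset ℤ, IsCompactOperator (∑ n ∈ s, (inj n).comp (coord n) : A →L[ℝ] A) := by
    intro s
    induction s using Finset.induction_on with
    | empty =>
      rw [Finset.sum_empty]
      exact isCompactOperator_zero
    | insert x s hx ih =>
      rw [Finset.sum_insert hx]
      have h1 : IsCompactOperator ((inj x).comp (coord x) : A →L[ℝ] A) := by
        exact (isCompactOperator_of_locallyCompactSpace_rng (inj x)).comp_clm (coord x)
      exact h1.add ih
  exact this _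

lemma op_compact (c : Coef) (C : ℝ)
    (h : ∀ n : ℤ, ‖c.α n‖ ≤ C / (1 + |(n:ℝ)|) ∧ ‖c.β n‖ ≤ C / (1 + |(n:ℝ)|) ∧
      ‖c.γ n‖ ≤ C / (1 + |(n:ℝ)|) ∧ ‖c.δ n‖ ≤ C / (1 + |(n:ℝ)|)) : IsCompactOperator (op c) := by
  have hC : 0 ≤ C := by
    have := (norm_nonneg _).trans (h 0).1
    simpa using this
  apply isCompactOperator_of_tendsto (F := fun N : ℕ => (trunc N).comp (op c)) (l := atTop)
  · rw [tendsto_iff_norm_sub_tendsto_zero]
    have h0 : Tendsto (fun N : ℕ => 4 * (C / (1 + (N:ℝ)))) atTop (𝓝 0) := by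
      have h1 : Tendsto (fun N : ℕ => C / (1 + (N:ℝ))) atTop (𝓝 0) :=
        Tendsto.div_atTop tendsto_const_nhds (tendsto_const_nhds.add_atTop tendsto_natCast_atTop_atTop)
      simpa using h1.const_mul 4
    refine squeeze_zero (fun _ => norm_nonneg _) (fun N => ?_) h0
    apply ContinuousLinearMap.opNorm_le_bound _ (by positivity)
    intro a
    rw [A_norm]
    have hs := A_summable a
    have hb : ∀ n, ‖((trunc N).comp (op c) - op c) a n‖ ≤ 2 * (C / (1 + N)) * (‖a n‖ + ‖a (-n)‖) := by
      intro n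
      have e1 : ((trunc N).comp (op c) - op c) a n = (if n ∈ Finset.Icc (-(N:ℤ)) N then op c a n else 0) - op c a n := by
        rw [← trunc_apply]; rfl
      rw [e1]
      by_cases hn : n ∈ Finset.Icc (-(N:ℤ)) N
      · rw [if_pos hn, sub_self, norm_zero]
        positivity
      · rw [if_neg hn, zero_sub, norm_neg]
        have h2 : (N:ℝ) ≤ |(n:ℝ)| := by
          rw [Finset.mem_Icc] at hn
          have : (N:ℤ) ≤ |n| := by
            by_contra h3
            push Not at h3
            rw [abs_lt] at h3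
            exact hn ⟨h3.1.le, h3.2.le⟩
          exact_mod_cast this
        have h3 : C / (1 + |(n:ℝ)|) ≤ C / (1 + N) := by
          apply div_le_div_of_nonneg_left hC (by positivity) (by linarith)
        have h4 := h n
        have : ‖opFun c.α c.β c.γ c.δ a n‖ ≤ 2 * (C / (1 + N)) * (‖a n‖ + ‖a (-n)‖) := by
          have e1 : ‖c.α n * a n‖ ≤ C / (1 + N) * ‖a n‖ := by
            rw [norm_mul]; gcongr; exact h4.1.trans h3
          have e2 : ‖c.β n * conj (a n)‖ ≤ C / (1 + N) * ‖a n‖ := by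
            rw [norm_mul, RCLike.norm_conj]; gcongr; exact h4.2.1.trans h3
          have e3 : ‖c.γ n * a (-n)‖ ≤ C / (1 + N) * ‖a (-n)‖ := by
            rw [norm_mul]; gcongr; exact h4.2.2.1.trans h3
          have e4 : ‖c.δ n * conj (a (-n))‖ ≤ C / (1 + N) * ‖a (-n)‖ := by
            rw [norm_mul, RCLike.norm_conj]; gcongr; exact h4.2.2.2.trans h3
          unfold opFun
          have f1 := norm_add_le (c.α n * a n + c.β n * conj (a n) + c.γ n * a (-n)) (c.δ n * conj (a (-n)))
          have f2 := norm_add_le (c.α n * a n + c.β n * conj (a n)) (c.γ n * a (-n))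
          have f3 := norm_add_le (c.α n * a n) (c.β n * conj (a n))
          linarith
        exact this
    calc ∑' n, ‖((trunc N).comp (op c) - op c) a n‖
        ≤ ∑' n, 2 * (C / (1 + N)) * (‖a n‖ + ‖a (-n)‖) := by
          apply (A_summable _).tsum_le_tsum hb
          exact (hs.add (neg_summable hs)).mul_left _
      _ = 4 * (C / (1 + N)) * ‖a‖ := by
          rw [tsum_mul_left, hs.tsum_add (neg_summable hs), neg_tsum (fun n => ‖a n‖), A_norm]
          ring
  · filter_upwards with N
    exact (trunc_compact N).comp_clm (op c)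

end Pool.Agent.H399R4
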