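import Pool.Agent.H399R4.L19

set_option autoImplicit false

namespace Pool.Agent.H399R4

open Set Filter Topology MeasureTheory
open scoped NNReal ENNReal ComplexConjugate

/-- filter: `e → 0+` uniformly in time -/
noncomputable def lf : Filter (ℝ × ℝ) := 𝓝[>] (0:ℝ) ×ˢ 𝓟 univ

lemma lf_fst {α : Type*} {f : ℝ → α} {l : Filter α} (h : Tendsto f (𝓝[>] 0) l) :
    Tendsto (fun q : ℝ × ℝ => f q.1) lf l := h.comp tendsto_fst

lemma lf_ev {P : ℝ × ℝ → Prop} (h : ∀ᶠ q in lf, P q) : ∀ᶠ e in 𝓝[>] (0:ℝ), ∀ T, P (e, T) := by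
  unfold lf at h
  rw [eventually_prod_principal_iff] at h
  filter_upwards [h] with e he T
  exact he T (mem_univ _)

lemma mu0_pos : 0 < mu Om0 := by
  rw [mu_Om0]
  have h1 := r3_pos
  have h2 := y0_bounds
  apply mul_pos h1
  linarith

section branch
variable {ψ : ℝ → E} (hc : Tendsto ψ (𝓝[>] 0) (𝓝 U0))

include hc

lemma tX : Tendsto (fun e => (ψ e).1) (𝓝[>] 0) (𝓝 X0) := (continuous_fst.tendsto U0).comp hc
lemma tY : Tendsto (fun e => (ψ e).2.1) (𝓝[>] 0) (𝓝 Y0) :=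
  ((continuous_fst.comp continuous_snd).tendsto U0).comp hc
lemma ts : Tendsto (fun e => (ψ e).2.2.1) (𝓝[>] 0) (𝓝 0) :=
  ((continuous_fst.comp (continuous_snd.comp continuous_snd)).tendsto U0).comp hc
lemma tτ : Tendsto (fun e => (ψ e).2.2.2.1) (𝓝[>] 0) (𝓝 0) :=
  ((continuous_fst.comp (continuous_snd.comp (continuous_snd.comp continuous_snd))).tendsto U0).comp hc
lemma tν : Tendsto (fun e => (ψ e).2.2.2.2.1) (𝓝[>] 0) (𝓝 Om0) :=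
  ((continuous_fst.comp (continuous_snd.comp (continuous_snd.comp (continuous_snd.comp continuous_snd)))).tendsto U0).comp hc
lemma tΩ : Tendsto (fun e => (ψ e).2.2.2.2.2) (𝓝[>] 0) (𝓝 Om0) :=
  ((continuous_snd.comp (continuous_snd.comp (continuous_snd.comp (continuous_snd.comp continuous_snd)))).tendsto U0).comp hc

omit hc in
lemma te : Tendsto (fun e : ℝ => e) (𝓝[>] 0) (𝓝 0) := nhdsWithin_le_nhds

lemma tmu : Tendsto (fun e => mu (ψ e).2.2.2.2.2) (𝓝[>] 0) (𝓝 (mu Om0)) := by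
  have : Continuous mu := by unfold mu; fun_prop
  exact (this.tendsto _).comp (tΩ hc)

lemma tSc : Tendsto (fun e => ‖Sc e (ψ e).1 (ψ e).2.2.1 (ψ e).2.2.2.2.2 - one‖) (𝓝[>] 0) (𝓝 0) := by
  have h1 : Continuous (fun q : ℝ × A × A × ℝ => ‖Sc q.1 q.2.1 q.2.2.1 q.2.2.2 - one‖) := by
    unfold Sc sgt del eta mu
    fun_prop
  have h2 := (h1.tendsto (0, X0, 0, Om0)).comp (te.prodMk_nhds ((tX hc).prodMk_nhds ((ts hc).prodMk_nhds (tΩ hc))))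
  have h3 : ‖Sc 0 X0 0 Om0 - one‖ = 0 := by
    unfold Sc; rw [zero_smul, add_zero, sub_self, norm_zero]
  simp only [h3] at h2
  exact h2

lemma tSk : Tendsto (fun e => ‖Sk e (ψ e).1 (ψ e).2.2.2.1 - s0 • one‖) (𝓝[>] 0) (𝓝 0) := by
  have h1 : Continuous (fun q : ℝ × A × A => ‖Sk q.1 q.2.1 q.2.2 - s0 • one‖) := by
    unfold Sk tat del1 eta
    fun_prop
  have h2 := (h1.tendsto (0, X0, 0)).comp (te.prodMk_nhds ((tX hc).prodMk_nhds (tτ hc)))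
  have h3 : ‖Sk 0 X0 0 - s0 • one‖ = 0 := by
    unfold Sk; rw [zero_smul, add_zero, sub_self, norm_zero]
  simp only [h3] at h2
  exact h2

lemma good_ev (hG : ∀ᶠ e in 𝓝[>] (0:ℝ), G (e, ψ e) = 0) : ∀ᶠ e in 𝓝[>] (0:ℝ),
    Good e (ψ e).1 (ψ e).2.1 (ψ e).2.2.1 (ψ e).2.2.2.1 (ψ e).2.2.2.2.1 (ψ e).2.2.2.2.2 := by
  filter_upwards [hG, (tSc hc).eventually (gt_mem_nhds one_pos), (tSk hc).eventually (gt_mem_nhds s0_pos),
    self_mem_nhdsWithin] with e h1 h2 h3 h4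
  unfold G at h1
  simp only [Prod.mk_eq_zero] at h1
  refine ⟨h4, h1.1, h1.2.1, h1.2.2.1, h1.2.2.2.1, ?_, ?_⟩
  · intro t
    have : ev t (Sc e (ψ e).1 (ψ e).2.2.1 (ψ e).2.2.2.2.2) - 1 = ev t (Sc e (ψ e).1 (ψ e).2.2.1 (ψ e).2.2.2.2.2 - one) := by
      rw [map_sub, ev_one]
    rw [this]
    exact (ev_le _ _).trans_lt h2
  · intro t
    have : ev t (Sk e (ψ e).1 (ψ e).2.2.2.1) - s0 = ev t (Sk e (ψ e).1 (ψ e).2.2.2.1 - s0 • one) := by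
      rw [map_sub, map_smul, ev_one, Complex.real_smul, mul_one]
    rw [this]
    exact (ev_le _ _).trans_lt h3

/-- inverse distances to the center -/
lemma inv_c (hG : ∀ᶠ e in 𝓝[>] (0:ℝ), G (e, ψ e) = 0) (a : ℝ → ℝ → ℝ) :
    Tendsto (fun q : ℝ × ℝ => (RR (dc q.1 (ψ q.1).1 (ψ q.1).2.2.2.2.2 (a q.1 q.2)) (kc q.1 (ψ q.1).2.1 (ψ q.1).2.2.2.2.2 (a q.1 q.2)))⁻¹)
      lf (𝓝 1) := by
  rw [tendsto_iff_norm_sub_tendsto_zero]
  refine squeeze_zero' (Eventually.of_forall (fun _ => norm_nonneg _)) ?_ (lf_fst (tSc hc))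
  have h1 : ∀ᶠ q in lf, Good q.1 (ψ q.1).1 (ψ q.1).2.1 (ψ q.1).2.2.1 (ψ q.1).2.2.2.1 (ψ q.1).2.2.2.2.1 (ψ q.1).2.2.2.2.2 :=
    (good_ev hc hG).prod_inl _
  filter_upwards [h1] with q hq
  obtain ⟨h2, -⟩ := Sc_eq hq.g3 hq.hS (a q.1 q.2)
  have h3 := ev_le (a q.1 q.2) (Sc q.1 (ψ q.1).1 (ψ q.1).2.2.1 (ψ q.1).2.2.2.2.2 - one)
  rw [map_sub, ev_one, h2] at h3
  have : ‖(((RR (dc q.1 (ψ q.1).1 (ψ q.1).2.2.2.2.2 (a q.1 q.2)) (kc q.1 (ψ q.1).2.1 (ψ q.1).2.2.2.2.2 (a q.1 q.2)))⁻¹ : ℝ) : ℂ) - 1‖ =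
      ‖(RR (dc q.1 (ψ q.1).1 (ψ q.1).2.2.2.2.2 (a q.1 q.2)) (kc q.1 (ψ q.1).2.1 (ψ q.1).2.2.2.2.2 (a q.1 q.2)))⁻¹ - 1‖ := by
    rw [← Complex.ofReal_one, ← Complex.ofReal_sub, Complex.norm_real]
  rw [this] at h3
  exact h3

/-- inverse distances between satellites -/
lemma inv_s (hG : ∀ᶠ e in 𝓝[>] (0:ℝ), G (e, ψ e) = 0) (a : ℝ → ℝ → ℝ) :
    Tendsto (fun q : ℝ × ℝ => (RR (d1 q.1 (ψ q.1).1 (a q.1 q.2)) (k1 q.1 (ψ q.1).2.1 (a q.1 q.2)))⁻¹)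
      lf (𝓝 s0) := by
  rw [tendsto_iff_norm_sub_tendsto_zero]
  refine squeeze_zero' (Eventually.of_forall (fun _ => norm_nonneg _)) ?_ (lf_fst (tSk hc))
  have h1 : ∀ᶠ q in lf, Good q.1 (ψ q.1).1 (ψ q.1).2.1 (ψ q.1).2.2.1 (ψ q.1).2.2.2.1 (ψ q.1).2.2.2.2.1 (ψ q.1).2.2.2.2.2 :=
    (good_ev hc hG).prod_inl _
  filter_upwards [h1] with q hq
  obtain ⟨h2, -⟩ := Sk_eq hq.g4 hq.hSk (a q.1 q.2)
  have h3 := ev_le (a q.1 q.2) (Sk q.1 (ψ q.1).1 (ψ q.1).2.2.2.1 - s0 • one)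
  rw [map_sub, map_smul, ev_one, h2, Complex.real_smul, mul_one, ← Complex.ofReal_sub, Complex.norm_real] at h3
  exact h3

/-- planar position in the rotating frame -/
lemma lW (a : ℝ → ℝ → ℝ) : Tendsto (fun q : ℝ × ℝ => W q.1 (ψ q.1).1 (a q.1 q.2)) lf (𝓝 1) := by
  rw [tendsto_iff_norm_sub_tendsto_zero]
  have h1 : Tendsto (fun e : ℝ => |e| * ‖eta (ψ e).1‖) (𝓝[>] 0) (𝓝 0) := by
    have h2 : Continuous (fun q : ℝ × A => |q.1| * ‖eta q.2‖) := by unfold eta; fun_prop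
    have h3 := (h2.tendsto (0, X0)).comp (te.prodMk_nhds (tX hc))
    simpa [Function.comp_def] using h3
  refine squeeze_zero (fun _ => norm_nonneg _) (fun q => ?_) (lf_fst h1)
  unfold W
  rw [add_sub_cancel_left, norm_mul, Complex.norm_real, Real.norm_eq_abs]
  exact mul_le_mul_of_nonneg_left (ev_le _ _) (abs_nonneg _)

lemma lWd (a : ℝ → ℝ → ℝ) : Tendsto (fun q : ℝ × ℝ => Wd q.1 (ψ q.1).1 (a q.1 q.2)) lf (𝓝 0) := by
  rw [tendsto_zero_iff_norm_tendsto_zero]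
  have h1 : Tendsto (fun e : ℝ => |e| * ‖K1 (re' (ψ e).1)‖) (𝓝[>] 0) (𝓝 0) := by
    have h2 : Continuous (fun q : ℝ × A => |q.1| * ‖K1 (re' q.2)‖) := by fun_prop
    have h3 := (h2.tendsto (0, X0)).comp (te.prodMk_nhds (tX hc))
    simpa [Function.comp_def] using h3
  refine squeeze_zero (fun _ => norm_nonneg _) (fun q => ?_) (lf_fst h1)
  unfold Wd
  rw [norm_mul, Complex.norm_real, Real.norm_eq_abs, norm_mul, Complex.norm_I, one_mul]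
  exact mul_le_mul_of_nonneg_left (ev_le _ _) (abs_nonneg _)

lemma lHd (a : ℝ → ℝ → ℝ) : Tendsto (fun q : ℝ × ℝ => Hd q.1 (ψ q.1).2.1 (a q.1 q.2)) lf (𝓝 0) := by
  rw [tendsto_zero_iff_norm_tendsto_zero]
  have h1 : Tendsto (fun e : ℝ => |e| * ‖K1 (pe (ψ e).2.1)‖) (𝓝[>] 0) (𝓝 0) := by
    have h2 : Continuous (fun q : ℝ × A => |q.1| * ‖K1 (pe q.2)‖) := by fun_prop
    have h3 := (h2.tendsto (0, Y0)).comp (te.prodMk_nhds (tY hc))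
    simpa [Function.comp_def] using h3
  refine squeeze_zero (fun _ => norm_nonneg _) (fun q => ?_) (lf_fst h1)
  unfold Hd
  rw [norm_mul, Real.norm_eq_abs]
  apply mul_le_mul_of_nonneg_left _ (abs_nonneg _)
  rw [Real.norm_eq_abs]
  refine (Complex.abs_re_le_norm _).trans ?_
  rw [norm_mul, Complex.norm_I, one_mul]
  exact ev_le _ _

/-- velocities in the rotating frame -/
lemma lz (k : ℕ) (a : ℝ → ℝ → ℝ) : Tendsto (fun q : ℝ × ℝ =>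
    zt ^ k * (((ψ q.1).2.2.2.2.2 : ℂ) * Complex.I * W q.1 (ψ q.1).1 (a q.1 q.2) +
      ((ψ q.1).2.2.2.2.1 : ℂ) * Wd q.1 (ψ q.1).1 (a q.1 q.2))) lf (𝓝 (zt ^ k * (Om0 * Complex.I))) := by
  have h1 : Tendsto (fun q : ℝ × ℝ => ((ψ q.1).2.2.2.2.2 : ℂ)) lf (𝓝 (Om0 : ℂ)) :=
    lf_fst ((Complex.continuous_ofReal.tendsto Om0).comp (tΩ hc))
  have h2 : Tendsto (fun q : ℝ × ℝ => ((ψ q.1).2.2.2.2.1 : ℂ)) lf (𝓝 (Om0 : ℂ)) :=
    lf_fst ((Complex.continuous_ofReal.tendsto Om0).comp (tν hc))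
  have h3 := (((h1.mul_const Complex.I).mul (lW hc a)).add (h2.mul (lWd hc a))).const_mul (zt ^ k)
  simpa using h3

lemma lh (a : ℝ → ℝ → ℝ) : Tendsto (fun q : ℝ × ℝ => (ψ q.1).2.2.2.2.1 * Hd q.1 (ψ q.1).2.1 (a q.1 q.2)) lf (𝓝 0) := by
  have h := (lf_fst (tν hc)).mul (lHd hc a)
  simpa using h

end branch

end Pool.Agent.H399R4
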