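import Pool.Agent.H399R4.L20

set_option autoImplicit false

namespace Pool.Agent.H399R4

open Set Filter Topology MeasureTheory
open scoped NNReal ENNReal ComplexConjugate

lemma RR_sq (d : ℂ) (k : ℝ) : RR d k ^ 2 = ‖d‖ ^ 2 + k ^ 2 := Real.sq_sqrt (by positivity)

/-- sum over pairs -/
noncomputable def pairs (m : Fin 4 → ℝ) (x : Fin 4 → E3) : ℝ :=
  m 0 * m 1 / ‖x 0 - x 1‖ + m 0 * m 2 / ‖x 0 - x 2‖ + m 0 * m 3 / ‖x 0 - x 3‖ +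
    m 1 * m 2 / ‖x 1 - x 2‖ + m 1 * m 3 / ‖x 1 - x 3‖ + m 2 * m 3 / ‖x 2 - x 3‖

lemma pot1 (m : Fin 4 → ℝ) (x : Fin 4 → E3) :
    (1 / 2 : ℝ) * ∑ i, ∑ j ∈ Finset.univ.erase i, m i * m j / ‖x i - x j‖ = pairs m x := by
  have h : ∀ i, ∑ j ∈ Finset.univ.erase i, m i * m j / ‖x i - x j‖ = ∑ j, m i * m j / ‖x i - x j‖ :=
    fun i => Finset.sum_erase _ (by simp)
  simp only [h, Fin.sum_univ_four, sub_self, norm_zero, div_zero]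
  unfold pairs
  rw [norm_sub_rev (x 1) (x 0), norm_sub_rev (x 2) (x 0), norm_sub_rev (x 3) (x 0), norm_sub_rev (x 2) (x 1),
    norm_sub_rev (x 3) (x 1), norm_sub_rev (x 3) (x 2)]
  ring

lemma pot2 (m : Fin 4 → ℝ) (x : Fin 4 → E3) :
    ∑ i : Fin 4, ∑ j ∈ Finset.univ.filter (fun j => i < j), m i * m j / ‖x i - x j‖ = pairs m x := by
  simp only [Finset.sum_filter, Fin.sum_univ_four]
  have h01 : (0 : Fin 4) < 1 := by decide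
  have h02 : (0 : Fin 4) < 2 := by decide
  have h03 : (0 : Fin 4) < 3 := by decide
  have h12 : (1 : Fin 4) < 2 := by decide
  have h13 : (1 : Fin 4) < 3 := by decide
  have h23 : (2 : Fin 4) < 3 := by decide
  simp only [h01, h02, h03, h12, h13, h23, if_true, lt_irrefl, if_false, not_lt.2 h01.le, not_lt.2 h02.le,
    not_lt.2 h03.le, not_lt.2 h12.le, not_lt.2 h13.le, not_lt.2 h23.le]
  unfold pairs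
  ring

section
variable {e : ℝ} {X Y s τ : A} {ν Ω : ℝ}

noncomputable def zv (e : ℝ) (X : A) (ν Ω : ℝ) (k : ℕ) (T : ℝ) : ℂ :=
  zt ^ k * (Ω * Complex.I * W e X (ν * T + k * th) + ν * Wd e X (ν * T + k * th))
noncomputable def hv (e : ℝ) (Y : A) (ν : ℝ) (k : ℕ) (T : ℝ) : ℝ := ν * Hd e Y (ν * T + k * th)
noncomputable def ivc (e : ℝ) (X Y : A) (ν Ω : ℝ) (k : ℕ) (T : ℝ) : ℝ :=
  (RR (dc e X Ω (ν * T + k * th)) (kc e Y Ω (ν * T + k * th)))⁻¹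
noncomputable def ivs (e : ℝ) (X Y : A) (ν : ℝ) (k : ℕ) (T : ℝ) : ℝ :=
  (RR (d1 e X (ν * T + k * th)) (k1 e Y (ν * T + k * th)))⁻¹

noncomputable def EN (e : ℝ) (X Y : A) (ν Ω T : ℝ) : ℝ :=
  (1 / 2) * (mu Ω * ((‖zv e X ν Ω 0 T‖ ^ 2 + hv e Y ν 0 T ^ 2) + (‖zv e X ν Ω 1 T‖ ^ 2 + hv e Y ν 1 T ^ 2) +
    (‖zv e X ν Ω 2 T‖ ^ 2 + hv e Y ν 2 T ^ 2)) +
    mu Ω ^ 2 * (‖zv e X ν Ω 0 T + zv e X ν Ω 1 T + zv e X ν Ω 2 T‖ ^ 2 +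
      (hv e Y ν 0 T + hv e Y ν 1 T + hv e Y ν 2 T) ^ 2)) -
  (mu Ω ^ 2 * (ivs e X Y ν 0 T + ivs e X Y ν 1 T + ivs e X Y ν 2 T) +
    mu Ω * (ivc e X Y ν Ω 0 T + ivc e X Y ν Ω 1 T + ivc e X Y ν Ω 2 T))

lemma qsd_eq (k : ℕ) (T : ℝ) : qsd e X Y ν Ω k T = (rot Ω T * zv e X ν Ω k T, hv e Y ν k T) := rfl

lemma speed_s (k : ℕ) (T : ℝ) : ‖vecL (qsd e X Y ν Ω k T)‖ ^ 2 = ‖zv e X ν Ω k T‖ ^ 2 + hv e Y ν k T ^ 2 := by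
  rw [vecL_norm, qsd_eq, RR_unit (rot_norm Ω T), RR_sq]

lemma speed_c (T : ℝ) : ‖vecL (qcd e X Y ν Ω T)‖ ^ 2 =
    mu Ω ^ 2 * (‖zv e X ν Ω 0 T + zv e X ν Ω 1 T + zv e X ν Ω 2 T‖ ^ 2 +
      (hv e Y ν 0 T + hv e Y ν 1 T + hv e Y ν 2 T) ^ 2) := by
  unfold qcd
  rw [map_smul, norm_smul, mul_pow, Real.norm_eq_abs, sq_abs, neg_sq, qsd_eq, qsd_eq, qsd_eq, vecL_norm]
  simp only [Prod.mk_add_mk]
  rw [← mul_add, ← mul_add, RR_unit (rot_norm Ω T), RR_sq]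

lemma dist_c (k : ℕ) (T : ℝ) : (‖vecL (qs e X Y ν Ω k T) - vecL (qc e X Y ν Ω T)‖)⁻¹ = ivc e X Y ν Ω k T := by
  rw [norm_sub_rev, ← map_sub, vecL_norm, rel_c]
  simp only
  rw [RR_neg, RR_unit (unit_norm k T)]
  rfl

lemma dist_s (k : ℕ) (T : ℝ) : (‖vecL (qs e X Y ν Ω k T) - vecL (qs e X Y ν Ω (k + 1) T)‖)⁻¹ = ivs e X Y ν k T := by
  rw [norm_sub_rev, ← map_sub, vecL_norm, rel_1]
  simp only
  rw [RR_neg, RR_unit (unit_norm k T)]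
  rfl

lemma kin_eq (T : ℝ) : ∑ i, mass Ω i * ‖deriv (xx e X Y ν Ω i) T‖ ^ 2 =
    mu Ω * ((‖zv e X ν Ω 0 T‖ ^ 2 + hv e Y ν 0 T ^ 2) + (‖zv e X ν Ω 1 T‖ ^ 2 + hv e Y ν 1 T ^ 2) +
    (‖zv e X ν Ω 2 T‖ ^ 2 + hv e Y ν 2 T ^ 2)) +
    mu Ω ^ 2 * (‖zv e X ν Ω 0 T + zv e X ν Ω 1 T + zv e X ν Ω 2 T‖ ^ 2 +
      (hv e Y ν 0 T + hv e Y ν 1 T + hv e Y ν 2 T) ^ 2) := by
  simp only [xx_deriv']
  rw [Fin.sum_univ_four, ← speed_c, ← speed_s, ← speed_s, ← speed_s]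
  change mu Ω * ‖vecL (qsd e X Y ν Ω 0 T)‖ ^ 2 + mu Ω * ‖vecL (qsd e X Y ν Ω 1 T)‖ ^ 2 +
    mu Ω * ‖vecL (qsd e X Y ν Ω 2 T)‖ ^ 2 + 1 * ‖vecL (qcd e X Y ν Ω T)‖ ^ 2 = _
  ring

lemma pairs_eq (T : ℝ) : pairs (mass Ω) (fun i => xx e X Y ν Ω i T) =
    mu Ω ^ 2 * (ivs e X Y ν 0 T + ivs e X Y ν 1 T + ivs e X Y ν 2 T) +
    mu Ω * (ivc e X Y ν Ω 0 T + ivc e X Y ν Ω 1 T + ivc e X Y ν Ω 2 T) := by
  have h3 : qs e X Y ν Ω (2 + 1) T = qs e X Y ν Ω 0 T := qs_periodic 0 T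
  rw [← dist_c, ← dist_c, ← dist_c, ← dist_s, ← dist_s, ← dist_s 2, h3]
  change mu Ω * mu Ω / ‖vecL (qs e X Y ν Ω 0 T) - vecL (qs e X Y ν Ω 1 T)‖ +
    mu Ω * mu Ω / ‖vecL (qs e X Y ν Ω 0 T) - vecL (qs e X Y ν Ω 2 T)‖ +
    mu Ω * 1 / ‖vecL (qs e X Y ν Ω 0 T) - vecL (qc e X Y ν Ω T)‖ +
    mu Ω * mu Ω / ‖vecL (qs e X Y ν Ω 1 T) - vecL (qs e X Y ν Ω 2 T)‖ +
    mu Ω * 1 / ‖vecL (qs e X Y ν Ω 1 T) - vecL (qc e X Y ν Ω T)‖ +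
    mu Ω * 1 / ‖vecL (qs e X Y ν Ω 2 T) - vecL (qc e X Y ν Ω T)‖ = _
  rw [norm_sub_rev (vecL (qs e X Y ν Ω 0 T)) (vecL (qs e X Y ν Ω 2 T))]
  norm_num
  ring

lemma energy_eq (T : ℝ) : (1 / 2 : ℝ) * ∑ i, mass Ω i * ‖deriv (xx e X Y ν Ω i) T‖ ^ 2 -
    pairs (mass Ω) (fun i => xx e X Y ν Ω i T) = EN e X Y ν Ω T := by
  rw [kin_eq, pairs_eq]
  rfl

end

section branch
variable {ψ : ℝ → E} (hc : Tendsto ψ (𝓝[>] 0) (𝓝 U0))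

include hc

lemma EN_lim (hG : ∀ᶠ e in 𝓝[>] (0:ℝ), G (e, ψ e) = 0) :
    Tendsto (fun q : ℝ × ℝ => EN q.1 (ψ q.1).1 (ψ q.1).2.1 (ψ q.1).2.2.2.2.1 (ψ q.1).2.2.2.2.2 q.2) lf
      (𝓝 (-(3 / 2) * (mu Om0 * y0))) := by
  have hm := lf_fst (tmu hc)
  have hz : ∀ k : ℕ, Tendsto (fun q : ℝ × ℝ => zv q.1 (ψ q.1).1 (ψ q.1).2.2.2.2.1 (ψ q.1).2.2.2.2.2 k q.2) lf
      (𝓝 (zt ^ k * (Om0 * Complex.I))) := fun k => lz hc k (fun e T => (ψ e).2.2.2.2.1 * T + k * th)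
  have hh : ∀ k : ℕ, Tendsto (fun q : ℝ × ℝ => hv q.1 (ψ q.1).2.1 (ψ q.1).2.2.2.2.1 k q.2) lf (𝓝 0) :=
    fun k => lh hc (fun e T => (ψ e).2.2.2.2.1 * T + k * th)
  have hC : ∀ k : ℕ, Tendsto (fun q : ℝ × ℝ => ivc q.1 (ψ q.1).1 (ψ q.1).2.1 (ψ q.1).2.2.2.2.1 (ψ q.1).2.2.2.2.2 k q.2) lf (𝓝 1) :=
    fun k => inv_c hc hG (fun e T => (ψ e).2.2.2.2.1 * T + k * th)
  have hS : ∀ k : ℕ, Tendsto (fun q : ℝ × ℝ => ivs q.1 (ψ q.1).1 (ψ q.1).2.1 (ψ q.1).2.2.2.2.1 k q.2) lf (𝓝 s0) :=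
    fun k => inv_s hc hG (fun e T => (ψ e).2.2.2.2.1 * T + k * th)
  have key := ((((hm.mul ((((hz 0).norm.pow 2).add ((hh 0).pow 2)).add (((hz 1).norm.pow 2).add ((hh 1).pow 2)) |>.add
    (((hz 2).norm.pow 2).add ((hh 2).pow 2)))).add ((hm.pow 2).mul (((((hz 0).add (hz 1)).add (hz 2)).norm.pow 2).add
      ((((hh 0).add (hh 1)).add (hh 2)).pow 2)))).const_mul (1/2 : ℝ))).sub
      (((hm.pow 2).mul (((hS 0).add (hS 1)).add (hS 2))).add (hm.mul (((hC 0).add (hC 1)).add (hC 2))))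
  have hlim : (1/2 : ℝ) * (mu Om0 * ((‖zt ^ 0 * (Om0 * Complex.I)‖ ^ 2 + 0 ^ 2) + (‖zt ^ 1 * (Om0 * Complex.I)‖ ^ 2 + 0 ^ 2) +
      (‖zt ^ 2 * (Om0 * Complex.I)‖ ^ 2 + 0 ^ 2)) + mu Om0 ^ 2 * (‖zt ^ 0 * (Om0 * Complex.I) + zt ^ 1 * (Om0 * Complex.I) +
      zt ^ 2 * (Om0 * Complex.I)‖ ^ 2 + (0 + 0 + 0) ^ 2)) - (mu Om0 ^ 2 * (s0 + s0 + s0) + mu Om0 * (1 + 1 + 1)) =
      -(3 / 2) * (mu Om0 * y0) := by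
    have h1 : zt ^ 0 * (Om0 * Complex.I) + zt ^ 1 * (Om0 * Complex.I) + zt ^ 2 * (Om0 * Complex.I) = 0 := by
      linear_combination (Om0 * Complex.I) * zt_sum
    have h2 : ∀ k : ℕ, ‖zt ^ k * (Om0 * Complex.I)‖ ^ 2 = y0 := by
      intro k
      rw [norm_mul, norm_pow, zt_norm, one_pow, one_mul, norm_mul, Complex.norm_I, mul_one, Complex.norm_real,
        Real.norm_eq_abs, sq_abs, Om0_sq]
    rw [h1, h2, h2, h2, norm_zero]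
    have h3 : mu Om0 * s0 = y0 - 1 := by
      rw [mu_Om0]; unfold s0
      have := r3_sq
      linear_combination ((y0 - 1) / 3) * this
    linear_combination (-3 * mu Om0) * h3
  rw [← hlim]
  exact key

lemma energy_ev (hG : ∀ᶠ e in 𝓝[>] (0:ℝ), G (e, ψ e) = 0) :
    ∀ᶠ e in 𝓝[>] (0:ℝ), ∀ T, EN e (ψ e).1 (ψ e).2.1 (ψ e).2.2.2.2.1 (ψ e).2.2.2.2.2 T < 0 := by
  apply lf_ev (P := fun q => EN q.1 (ψ q.1).1 (ψ q.1).2.1 (ψ q.1).2.2.2.2.1 (ψ q.1).2.2.2.2.2 q.2 < 0)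
  apply (EN_lim hc hG).eventually_lt_const
  have h1 := mu0_pos
  have h2 := y0_pos
  have : 0 < mu Om0 * y0 := mul_pos h1 h2
  linarith

end branch

end Pool.Agent.H399R4
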