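import Pool.Agent.H399R4.L21

set_option autoImplicit false

namespace Pool.Agent.H399R4

open Set Filter Topology MeasureTheory
open scoped NNReal ENNReal ComplexConjugate

section
variable {e : ℝ} {X Y s τ : A} {ν Ω : ℝ}

lemma qs_bdd (k : ℕ) (T : ℝ) : ‖qs e X Y ν Ω k T‖ ≤ 1 + |e| * ‖eta X‖ + |e| * ‖chi Y‖ := by
  have hn : ∀ a : A, 0 ≤ |e| * ‖a‖ := fun a => mul_nonneg (abs_nonneg _) (norm_nonneg _)
  unfold qs
  rw [Prod.norm_mk]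
  apply max_le
  · rw [← mul_assoc, norm_mul, unit_norm, one_mul]
    unfold W
    refine (norm_add_le _ _).trans ?_
    rw [norm_one, norm_mul, Complex.norm_real, Real.norm_eq_abs]
    have h1 := mul_le_mul_of_nonneg_left (ev_le (ν * T + k * th) (eta X)) (abs_nonneg e)
    have h2 := hn (chi Y)
    linarith
  · unfold Hh
    rw [norm_mul, Real.norm_eq_abs, Real.norm_eq_abs]
    have h0 : |(ev (ν * T + k * th) (chi Y)).re| ≤ ‖chi Y‖ := (Complex.abs_re_le_norm _).trans (ev_le _ _)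
    have h1 := mul_le_mul_of_nonneg_left h0 (abs_nonneg e)
    have h2 := hn (eta X)
    linarith

lemma qc_bdd (T : ℝ) : ‖qc e X Y ν Ω T‖ ≤ |mu Ω| * (3 * (1 + |e| * ‖eta X‖ + |e| * ‖chi Y‖)) := by
  unfold qc
  rw [norm_smul, Real.norm_eq_abs, abs_neg]
  apply mul_le_mul_of_nonneg_left _ (abs_nonneg _)
  have h0 := qs_bdd (e := e) (X := X) (Y := Y) (ν := ν) (Ω := Ω) 0 T
  have h1 := qs_bdd (e := e) (X := X) (Y := Y) (ν := ν) (Ω := Ω) 1 T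
  have h2 := qs_bdd (e := e) (X := X) (Y := Y) (ν := ν) (Ω := Ω) 2 T
  have h3 := norm_add_le (qs e X Y ν Ω 0 T + qs e X Y ν Ω 1 T) (qs e X Y ν Ω 2 T)
  have h4 := norm_add_le (qs e X Y ν Ω 0 T) (qs e X Y ν Ω 1 T)
  linarith

lemma xx_bdd : ∃ R : ℝ, ∀ (i : Fin 4) (T : ℝ), ‖xx e X Y ν Ω i T‖ ≤ R := by
  set B : ℝ := 1 + |e| * ‖eta X‖ + |e| * ‖chi Y‖ with hB
  have hB0 : 0 ≤ B := by
    rw [hB]
    positivity
  refine ⟨‖vecL‖ * (B + |mu Ω| * (3 * B)), fun i T => ?_⟩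
  unfold xx
  refine (vecL.le_opNorm _).trans (mul_le_mul_of_nonneg_left ?_ (norm_nonneg _))
  have h2 : 0 ≤ |mu Ω| * (3 * B) := by positivity
  fin_cases i
  · have := qs_bdd (e := e) (X := X) (Y := Y) (ν := ν) (Ω := Ω) 0 T
    change ‖qs e X Y ν Ω 0 T‖ ≤ _
    linarith
  · have := qs_bdd (e := e) (X := X) (Y := Y) (ν := ν) (Ω := Ω) 1 T
    change ‖qs e X Y ν Ω 1 T‖ ≤ _
    linarith
  · have := qs_bdd (e := e) (X := X) (Y := Y) (ν := ν) (Ω := Ω) 2 T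
    change ‖qs e X Y ν Ω 2 T‖ ≤ _
    linarith
  · have := qc_bdd (e := e) (X := X) (Y := Y) (ν := ν) (Ω := Ω) T
    change ‖qc e X Y ν Ω T‖ ≤ _
    linarith

end

lemma Pi0_chi_Y0 : Pi0 (chi Y0) = 0 := by
  rw [chi_Y0]
  apply A_ext; intro n
  rw [Pi0_apply, A_add, sg_apply, sg_apply]
  change _ = (0 : ℂ)
  by_cases h1 : n = 1
  · subst h1; simp
  · by_cases h2 : n = -1
    · subst h2; simp
    · simp [h1, h2]

lemma QD_lim {ψ : ℝ → E} (hc : Tendsto ψ (𝓝[>] 0) (𝓝 U0)) {f : ℝ → A} {a : A} (hf : Tendsto f (𝓝[>] 0) (𝓝 a)) :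
    Tendsto (fun e => QD e (ψ e).1 (ψ e).2.1 (f e) (ψ e).2.2.2.2.2) (𝓝[>] 0) (𝓝 (QD 0 X0 Y0 a Om0)) := by
  have h1 : Tendsto (fun e : ℝ => (e, (ψ e).1, (ψ e).2.1, f e, (ψ e).2.2.2.2.2)) (𝓝[>] 0) (𝓝 (0, X0, Y0, a, Om0)) :=
    te.prodMk_nhds ((tX hc).prodMk_nhds ((tY hc).prodMk_nhds (hf.prodMk_nhds (tΩ hc))))
  have h2 := QD_cont.tendsto (0, X0, Y0, a, Om0)
  have h3 := Tendsto.comp h2 h1
  exact h3

lemma det_ev {ψ : ℝ → E} {V : E} (h0 : ψ 0 = U0) (hd : HasDerivAt ψ V 0) (hV : DE V = -DG (1, 0)) :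
    ∀ᶠ e in 𝓝[>] (0:ℝ), ∀ t,
      DD (dc e (ψ e).1 (ψ e).2.2.2.2.2 t) (zt * dc e (ψ e).1 (ψ e).2.2.2.2.2 (t + th))
        (zt ^ 2 * dc e (ψ e).1 (ψ e).2.2.2.2.2 (t + th + th))
      (kc e (ψ e).2.1 (ψ e).2.2.2.2.2 t) (kc e (ψ e).2.1 (ψ e).2.2.2.2.2 (t + th))
      (kc e (ψ e).2.1 (ψ e).2.2.2.2.2 (t + th + th)) ≠ 0 := by
  have hc : Tendsto ψ (𝓝[>] 0) (𝓝 U0) := by
    have h := hd.continuousAt.tendsto
    rw [h0] at h
    exact h.mono_left nhdsWithin_le_nhds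
  have hs : Tendsto (slope ψ 0) (𝓝[>] 0) (𝓝 V) := by
    have h := hasDerivAt_iff_tendsto_slope.1 hd
    refine h.mono_left (nhdsWithin_mono _ ?_)
    intro x hx
    exact (ne_of_gt hx)
  have hVe : Tendsto (fun e => (slope ψ 0 e).2.1) (𝓝[>] 0) (𝓝 V.2.1) :=
    ((continuous_fst.comp continuous_snd).tendsto V).comp hs
  have hQ : Tendsto (fun e => ‖QD e (ψ e).1 (ψ e).2.1 (slope ψ 0 e).2.1 (ψ e).2.2.2.2.2 - QD 0 X0 Y0 V.2.1 Om0‖)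
      (𝓝[>] 0) (𝓝 0) := by
    exact tendsto_iff_norm_sub_tendsto_zero.1 (QD_lim hc hVe)
  have hpos : 0 < 12 * r3 * y0 ^ 2 := by
    have h1 := r3_pos
    have h2 := y0_pos
    positivity
  filter_upwards [hQ.eventually_lt_const hpos, self_mem_nhdsWithin] with e h1 h2 t
  have h2' : 0 < e := h2
  have hY : Pi0 (chi (ψ e).2.1) = e • Pi0 (chi (slope ψ 0 e).2.1) := by
    have h3 : ψ e = ψ 0 + e • slope ψ 0 e := by
      rw [slope_def_module, sub_zero, smul_smul, mul_inv_cancel₀ h2'.ne', one_smul]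
      abel
    have h4 : (ψ e).2.1 = Y0 + e • (slope ψ 0 e).2.1 := by
      have h5 := congrArg (fun q : E => q.2.1) h3
      simp only [Prod.snd_add, Prod.fst_add, Prod.smul_snd, Prod.smul_fst] at h5
      rw [h5, h0]
      rfl
    have h6 : chi (ψ e).2.1 = chi Y0 + e • chi (slope ψ 0 e).2.1 := by
      rw [h4]
      unfold chi
      rw [map_add, map_add, map_smul, map_smul]
    rw [h6, map_add, map_smul, Pi0_chi_Y0, zero_add]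
  intro hD
  have h7 := DD_eq (X := (ψ e).1) (Ω := (ψ e).2.2.2.2.2) hY t
  rw [hD, Complex.ofReal_zero] at h7
  have h8 : ev t (QD e (ψ e).1 (ψ e).2.1 (slope ψ 0 e).2.1 (ψ e).2.2.2.2.2) = 0 := by
    have he : ((e:ℂ)) ^ 2 ≠ 0 := pow_ne_zero _ (by exact_mod_cast h2'.ne')
    exact (mul_eq_zero.1 h7.symm).resolve_left he
  have h9 := ev_le t (QD e (ψ e).1 (ψ e).2.1 (slope ψ 0 e).2.1 (ψ e).2.2.2.2.2 - QD 0 X0 Y0 V.2.1 Om0)
  rw [map_sub, h8, QD_base hV, zero_sub, norm_neg, Complex.norm_real, Real.norm_eq_abs, abs_of_pos hpos] at h9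
  linarith

/-- existence of the solution -/
theorem exists_solution : ∃ (e ν Ω : ℝ) (X Y s τ : A), Good e X Y s τ ν Ω ∧ 0 < mu Ω ∧
    (∀ T, EN e X Y ν Ω T < 0) ∧ (∀ T, AffineIndependent ℝ (fun i => xx e X Y ν Ω i T)) := by
  obtain ⟨ψ, V, h0, hd, hG, hV⟩ := exists_branch
  have hG' : ∀ᶠ e in 𝓝[>] (0:ℝ), G (e, ψ e) = 0 := hG.filter_mono nhdsWithin_le_nhds
  have hc : Tendsto ψ (𝓝[>] 0) (𝓝 U0) := by
    have h := hd.continuousAt.tendsto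
    rw [h0] at h
    exact h.mono_left nhdsWithin_le_nhds
  have hm : ∀ᶠ e in 𝓝[>] (0:ℝ), 0 < mu (ψ e).2.2.2.2.2 := (tmu hc).eventually_const_lt mu0_pos
  obtain ⟨e, h1, h2, h3, h4⟩ := ((good_ev hc hG').and (hm.and ((energy_ev hc hG').and (det_ev h0 hd hV)))).exists
  exact ⟨e, (ψ e).2.2.2.2.1, (ψ e).2.2.2.2.2, (ψ e).1, (ψ e).2.1, (ψ e).2.2.1, (ψ e).2.2.2.1, h1, h2, h3,
    fun T => xx_aff T (h4 _)⟩

end Pool.Agent.H399R4
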