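import Pool.Agent.H399R4.L2

set_option autoImplicit false

namespace Pool.Agent.H399R4

open Set Filter Topology MeasureTheory
open scoped NNReal ENNReal ComplexConjugate

/-! ### constants -/

noncomputable def r3 : ℝ := √3
lemma r3_sq : r3 ^ 2 = 3 := Real.sq_sqrt (by norm_num)
lemma r3_pos : 0 < r3 := Real.sqrt_pos.2 (by norm_num)
lemma r3_bounds : 1.732 < r3 ∧ r3 < 1.7321 := by
  have h := r3_sq
  have h0 := r3_pos
  constructor
  · by_contra h1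
    push Not at h1
    nlinarith
  · by_contra h1
    push Not at h1
    nlinarith

/-- squared frequency at the resonance -/
noncomputable def y0 : ℝ := (243 * r3 - 315) / 37
noncomputable def p0 : ℝ := 1 + 3 * (r3 * (y0 - 1))
noncomputable def Om0 : ℝ := √y0

lemma y0_bounds : 2.861 < y0 ∧ y0 < 2.863 := by
  have h := r3_bounds
  unfold y0
  constructor
  · rw [lt_div_iff₀ (by norm_num)]; linarith
  · rw [div_lt_iff₀ (by norm_num)]; linarith

lemma y0_pos : 0 < y0 := by linarith [y0_bounds.1]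
lemma Om0_sq : Om0 ^ 2 = y0 := Real.sq_sqrt y0_pos.le
lemma Om0_pos : 0 < Om0 := Real.sqrt_pos.2 y0_pos

lemma p0_eq : p0 = (2224 - 1056 * r3) / 37 := by
  unfold p0 y0
  have h := r3_sq
  field_simp
  nlinarith

lemma p0_bounds : 10.67 < p0 ∧ p0 < 10.68 := by
  have h := r3_bounds
  rw [p0_eq]
  constructor
  · rw [lt_div_iff₀ (by norm_num)]; linarith
  · rw [div_lt_iff₀ (by norm_num)]; linarith

/-- the resonance relation -/
lemma res_rel : p0 * (9 - y0) = 8 * y0 ^ 2 := by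
  rw [p0_eq]
  unfold y0
  have h := r3_sq
  field_simp
  nlinarith

/-- cube root of unity -/
noncomputable def zt : ℂ := ⟨-1 / 2, r3 / 2⟩
lemma zt_sq : zt ^ 2 = ⟨-1 / 2, -r3 / 2⟩ := by
  have h := r3_sq
  unfold zt
  apply Complex.ext
  · simp [pow_two]; nlinarith
  · simp [pow_two]; ring
lemma zt_cube : zt ^ 3 = 1 := by
  have h := r3_sq
  rw [pow_succ, zt_sq]
  unfold zt
  apply Complex.ext
  · simp; nlinarith
  · simp; ring
lemma zt_conj : conj zt = zt ^ 2 := by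
  rw [zt_sq]
  unfold zt
  apply Complex.ext
  · simp
  · simp; ring
lemma zt_norm : ‖zt‖ = 1 := by
  have h1 : ‖zt‖ ^ 3 = 1 := by rw [← norm_pow, zt_cube, norm_one]
  have h2 := norm_nonneg zt
  nlinarith [sq_nonneg (‖zt‖ - 1), sq_nonneg (‖zt‖ + 1)]

noncomputable def D1 : ℂ := 1 - zt
lemma D1_eq : D1 = ⟨3 / 2, -r3 / 2⟩ := by
  unfold D1 zt
  apply Complex.ext
  · simp; norm_num
  · simp; ring

noncomputable def s0 : ℝ := r3 / 3
lemma s0_sq : s0 ^ 2 = 1 / 3 := by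
  unfold s0
  have := r3_sq
  field_simp
  linarith
lemma s0_pos : 0 < s0 := by unfold s0; have := r3_pos; positivity

/-- symbol `1 - ζ^(1+2n)` -/
noncomputable def m1 (n : ℤ) : ℂ := if n % 3 = 0 then 1 - zt else if n % 3 = 1 then 0 else 1 - zt ^ 2
/-- symbol `1 - ζ^(2n)` -/
noncomputable def m2 (n : ℤ) : ℂ := if n % 3 = 0 then 0 else if n % 3 = 1 then 1 - zt ^ 2 else 1 - zt

lemma one_sub_zt : ‖1 - zt‖ ≤ 2 := by
  refine (norm_sub_le _ _).trans ?_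
  rw [zt_norm, norm_one]; norm_num
lemma one_sub_zt2 : ‖1 - zt ^ 2‖ ≤ 2 := by
  refine (norm_sub_le _ _).trans ?_
  rw [norm_pow, zt_norm, norm_one]; norm_num

lemma m1_le (n : ℤ) : ‖m1 n‖ ≤ 2 := by
  unfold m1
  split_ifs
  · exact one_sub_zt
  · simp
  · exact one_sub_zt2
lemma m2_le (n : ℤ) : ‖m2 n‖ ≤ 2 := by
  unfold m2
  split_ifs
  · simp
  · exact one_sub_zt2
  · exact one_sub_zt

noncomputable def M1 : A →L[ℝ] A := op (mulC m1 2 m1_le)
noncomputable def M2 : A →L[ℝ] A := op (mulC m2 2 m2_le)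
noncomputable def Pi0 : A →L[ℝ] A := op (mulC (fun n => if n % 3 = 0 then 1 else 0) 1 (fun n => by split_ifs <;> simp))
noncomputable def Pi1 : A →L[ℝ] A := op (mulC (fun n => if n % 3 = 1 then 1 else 0) 1 (fun n => by split_ifs <;> simp))
noncomputable def cD : A →L[ℝ] A := op (mulC (fun _ => D1) 2 (fun _ => one_sub_zt))
noncomputable def cDb : A →L[ℝ] A := op (mulC (fun _ => conj D1) 2 (fun _ => by
  rw [RCLike.norm_conj]; exact one_sub_zt))

lemma M1_apply (a : A) (n : ℤ) : M1 a n = m1 n * a n := mulC_apply _ _ _ _ _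
lemma M2_apply (a : A) (n : ℤ) : M2 a n = m2 n * a n := mulC_apply _ _ _ _ _
lemma Pi0_apply (a : A) (n : ℤ) : Pi0 a n = (if n % 3 = 0 then 1 else 0) * a n := mulC_apply _ _ _ _ _
lemma Pi1_apply (a : A) (n : ℤ) : Pi1 a n = (if n % 3 = 1 then 1 else 0) * a n := mulC_apply _ _ _ _ _
lemma cD_apply (a : A) (n : ℤ) : cD a n = D1 * a n := mulC_apply _ _ _ _ _
lemma cDb_apply (a : A) (n : ℤ) : cDb a n = conj D1 * a n := mulC_apply _ _ _ _ _

/-! ### the equations -/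

noncomputable abbrev E := A × A × A × A × ℝ × ℝ

noncomputable def one : A := sg 0

noncomputable def eta (X : A) : A := K0 (re' X)
noncomputable def chi (Y : A) : A := K0 (pe Y)
noncomputable def mu (Ω : ℝ) : ℝ := r3 * (Ω ^ 2 - 1)
noncomputable def pp (Ω : ℝ) : ℝ := 1 + 3 * mu Ω
noncomputable def del (X : A) (Ω : ℝ) : A := eta X + (3 * mu Ω) • Pi1 (eta X)
noncomputable def tht (Y : A) (Ω : ℝ) : A := chi Y + (3 * mu Ω) • Pi0 (chi Y)
noncomputable def del1 (X : A) : A := M1 (eta X)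
noncomputable def tht1 (Y : A) : A := M2 (chi Y)
noncomputable def Rc (e : ℝ) (X Y : A) (Ω : ℝ) : A :=
  del X Ω + cj (del X Ω) + e • (cv (del X Ω) (cj (del X Ω)) + cv (tht Y Ω) (tht Y Ω))
noncomputable def sgt (X s : A) (Ω : ℝ) : A := s - (1/2 : ℝ) • (del X Ω + cj (del X Ω))
noncomputable def Rk (e : ℝ) (X Y : A) : A :=
  cD (cj (del1 X)) + cDb (del1 X) + e • (cv (del1 X) (cj (del1 X)) + cv (tht1 Y) (tht1 Y))
noncomputable def tat (X τ : A) : A := τ - (s0 / 6) • (cD (cj (del1 X)) + cDb (del1 X))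
noncomputable def Sc (e : ℝ) (X s : A) (Ω : ℝ) : A := one + e • sgt X s Ω
noncomputable def Sk (e : ℝ) (X τ : A) : A := s0 • one + e • tat X τ

noncomputable def G3 (e : ℝ) (X Y s : A) (Ω : ℝ) : A :=
  cv (cv (sgt X s Ω) (one + Sc e X s Ω)) (one + e • Rc e X Y Ω) + Rc e X Y Ω
noncomputable def G4 (e : ℝ) (X Y τ : A) : A :=
  cv (cv (tat X τ) (s0 • one + Sk e X τ)) ((3:ℝ) • one + e • Rk e X Y) + (s0 ^ 2) • Rk e X Y

noncomputable def N1 (e : ℝ) (X s τ : A) (Ω : ℝ) : A :=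
  cv (del X Ω) (cv (Sc e X s Ω) (cv (Sc e X s Ω) (Sc e X s Ω))) +
    cv (sgt X s Ω) (one + Sc e X s Ω + cv (Sc e X s Ω) (Sc e X s Ω)) +
  (2 * mu Ω) • re' (cv (del1 X) (cv (Sk e X τ) (cv (Sk e X τ) (Sk e X τ))) +
    cD (cv (tat X τ) ((s0 ^ 2) • one + s0 • Sk e X τ + cv (Sk e X τ) (Sk e X τ))))

noncomputable def N2 (e : ℝ) (X Y s τ : A) (Ω : ℝ) : A :=
  cv (tht Y Ω) (cv (Sc e X s Ω) (cv (Sc e X s Ω) (Sc e X s Ω))) +
  (2 * mu Ω) • re' (cv (tht1 Y) (cv (Sk e X τ) (cv (Sk e X τ) (Sk e X τ))))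

noncomputable def G1 (e : ℝ) (X s τ : A) (ν Ω : ℝ) : A :=
  re' (ν ^ 2 • K2 (re' X) + (2 * ν * Ω) • K1 (re' X) + Ω ^ 2 • K0 (re' X) - N1 e X s τ Ω) +
    y0 • (X - re' X)

noncomputable def G2 (e : ℝ) (X Y s τ : A) (ν Ω : ℝ) : A :=
  pe (ν ^ 2 • K2 (pe Y) - N2 e X Y s τ Ω) + y0 • (Y - pe Y)

noncomputable def G (q : ℝ × E) : E :=
  (G1 q.1 q.2.1 q.2.2.2.1 q.2.2.2.2.1 q.2.2.2.2.2.1 q.2.2.2.2.2.2,
   G2 q.1 q.2.1 q.2.2.1 q.2.2.2.1 q.2.2.2.2.1 q.2.2.2.2.2.1 q.2.2.2.2.2.2,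
   G3 q.1 q.2.1 q.2.2.1 q.2.2.2.1 q.2.2.2.2.2.2,
   G4 q.1 q.2.1 q.2.2.1 q.2.2.2.2.1,
   (q.2.1 1).re - (-2 * y0),
   ((q.2.2.1 1).re + (q.2.2.1 (-1)).re) / 2 - 2)

lemma G_contDiff : ContDiff ℝ 1 G := by
  have h1 : ∀ n : ℤ, ContDiff ℝ 1 (fun a : A => (a n).re) := fun n =>
    (Complex.reCLM.comp (coord n)).contDiff
  unfold G
  refine ContDiff.prodMk ?_ (ContDiff.prodMk ?_ (ContDiff.prodMk ?_ (ContDiff.prodMk ?_ (ContDiff.prodMk ?_ ?_))))
  · unfold G1 N1 Sc Sk sgt tat del del1 eta mu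
    fun_prop
  · unfold G2 N2 Sc Sk sgt tat del del1 tht tht1 chi eta mu
    fun_prop
  · unfold G3 Rc Sc sgt del tht chi eta mu
    fun_prop
  · unfold G4 Rk Sk tat del1 tht1 chi eta
    fun_prop
  · exact ((h1 1).comp (by fun_prop)).sub contDiff_const
  · exact ((((h1 1).comp (by fun_prop)).add ((h1 (-1)).comp (by fun_prop))).div_const _).sub contDiff_const

end Pool.Agent.H399R4
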