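import Pool.Agent.H399R4.L3

set_option autoImplicit false

namespace Pool.Agent.H399R4

open Set Filter Topology MeasureTheory
open scoped NNReal ENNReal ComplexConjugate

lemma r3_3 : r3 ^ 3 = 3 * r3 := by rw [pow_succ, r3_sq]
lemma r3_4 : r3 ^ 4 = 9 := by rw [pow_succ, r3_3]; nlinarith [r3_sq]
lemma r3_5 : r3 ^ 5 = 9 * r3 := by rw [pow_succ, r3_4]
lemma r3_6 : r3 ^ 6 = 27 := by rw [pow_succ, r3_5]; nlinarith [r3_sq]

lemma cv_one (a : A) : cv a one = a := cv_sg_zero a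
lemma one_cv (a : A) : cv one a = a := sg_zero_cv a
lemma cv_sone (c : ℝ) (a : A) : cv a (c • one) = c • a := by rw [map_smul, cv_one]
lemma sone_cv (c : ℝ) (a : A) : cv (c • one) a = c • a := by
  rw [map_smul, _root_.smul_apply, one_cv]

lemma G3_zero (X Y s : A) (Ω : ℝ) : G3 0 X Y s Ω = (2:ℝ) • s := by
  unfold G3 Sc Rc sgt
  simp only [zero_smul, add_zero, cv_one]
  rw [map_add, cv_one]
  module

lemma G4_zero (X Y τ : A) : G4 0 X Y τ = (6 * s0) • τ := by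
  unfold G4 Sk Rk tat
  simp only [zero_smul, add_zero, cv_sone]
  rw [← two_smul ℝ (s0 • one), smul_smul, cv_sone]
  have h := s0_sq
  set w := cD (cj (del1 X)) + cDb (del1 X)
  have h2 : s0 ^ 2 • w = (1 / 3 : ℝ) • w := by rw [h]
  rw [h2, smul_smul, smul_sub, smul_smul]
  have h3 : 3 * (2 * s0) * (s0 / 6) = (1/3 : ℝ) := by nlinarith
  rw [h3, show 3 * (2 * s0) = 6 * s0 by ring]
  abel

lemma N1_zero (X s τ : A) (Ω : ℝ) : N1 0 X s τ Ω = del X Ω + (3:ℝ) • sgt X s Ω +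
    (2 * mu Ω) • re' ((s0 ^ 3) • del1 X + cD ((3 * s0 ^ 2) • tat X τ)) := by
  unfold N1 Sc Sk
  simp only [zero_smul, add_zero, cv_one, one_cv, sone_cv, cv_sone, smul_smul]
  have e1 : cv (sgt X s Ω) (one + one + one) = (3:ℝ) • sgt X s Ω := by
    rw [map_add, map_add, cv_one]; module
  have e2 : cv (tat X τ) (s0 ^ 2 • one + (s0 * s0) • one + (s0 * s0) • one) = (3 * s0 ^ 2) • tat X τ := by
    rw [map_add, map_add, cv_sone, cv_sone]; module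
  have e3 : s0 * s0 * s0 = s0 ^ 3 := by ring
  rw [e1, e2, e3]

lemma N2_zero (X Y s τ : A) (Ω : ℝ) : N2 0 X Y s τ Ω = tht Y Ω +
    (2 * mu Ω) • re' ((s0 ^ 3) • tht1 Y) := by
  unfold N2 Sc Sk
  simp only [zero_smul, add_zero, cv_one, one_cv, sone_cv, cv_sone, smul_smul]
  have e3 : s0 * s0 * s0 = s0 ^ 3 := by ring
  rw [e3]

noncomputable def bt (n : ℤ) (Ω : ℝ) : ℝ := if n % 3 = 1 then pp Ω / 2 else Ω ^ 2 / 2
noncomputable def gm (n : ℤ) (Ω : ℝ) : ℝ :=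
  if n % 3 = 0 then 3 / 2 * Ω ^ 2 else if n % 3 = 1 then 3 / 2 else 3 / 2 * pp Ω
noncomputable def vt (n : ℤ) (Ω : ℝ) : ℝ := if n % 3 = 0 then pp Ω else Ω ^ 2

lemma eta_apply (X : A) (n : ℤ) : eta X n = ((kp n * (X n).re : ℝ) : ℂ) := by
  unfold eta; rw [K0_apply, re'_apply]; push_cast; rfl
lemma chi_apply (Y : A) (n : ℤ) : chi Y n = ((kp n * (((Y n).re + (Y (-n)).re) / 2) : ℝ) : ℂ) := by
  unfold chi; rw [K0_apply, pe_apply]; push_cast; rfl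

lemma del_apply (X : A) (Ω : ℝ) (n : ℤ) :
    del X Ω n = (((1 + 3 * mu Ω * (if n % 3 = 1 then 1 else 0)) * (kp n * (X n).re) : ℝ) : ℂ) := by
  unfold del
  rw [A_add, A_smulR, Pi1_apply, eta_apply]
  split_ifs
  · push_cast; ring
  · push_cast; ring
lemma tht_apply (Y : A) (Ω : ℝ) (n : ℤ) :
    tht Y Ω n = (((1 + 3 * mu Ω * (if n % 3 = 0 then 1 else 0)) * (kp n * (((Y n).re + (Y (-n)).re) / 2)) : ℝ) : ℂ) := by
  unfold tht
  rw [A_add, A_smulR, Pi0_apply, chi_apply]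
  split_ifs
  · push_cast; ring
  · push_cast; ring
lemma del1_apply (X : A) (n : ℤ) : del1 X n = m1 n * ((kp n * (X n).re : ℝ) : ℂ) := by
  unfold del1; rw [M1_apply, eta_apply]
lemma tht1_apply (Y : A) (n : ℤ) : tht1 Y n = m2 n * ((kp n * (((Y n).re + (Y (-n)).re) / 2) : ℝ) : ℂ) := by
  unfold tht1; rw [M2_apply, chi_apply]

lemma one_sub_zt_eq : (1 - zt : ℂ) = ⟨3 / 2, -r3 / 2⟩ := D1_eq
lemma one_sub_zt2_eq : (1 - zt ^ 2 : ℂ) = ⟨3 / 2, r3 / 2⟩ := by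
  rw [zt_sq]
  apply Complex.ext
  · simp; norm_num
  · simp; ring

lemma m1_re (n : ℤ) : (m1 n).re = if n % 3 = 1 then 0 else 3 / 2 := by
  unfold m1
  rw [one_sub_zt_eq, one_sub_zt2_eq]
  split_ifs <;> first | rfl | omega
lemma m1_im (n : ℤ) : (m1 n).im = if n % 3 = 0 then -r3 / 2 else if n % 3 = 1 then 0 else r3 / 2 := by
  unfold m1
  rw [one_sub_zt_eq, one_sub_zt2_eq]
  split_ifs <;> rfl
lemma m2_re (n : ℤ) : (m2 n).re = if n % 3 = 0 then 0 else 3 / 2 := by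
  unfold m2
  rw [one_sub_zt_eq, one_sub_zt2_eq]
  split_ifs <;> rfl
lemma m2_im (n : ℤ) : (m2 n).im = if n % 3 = 0 then 0 else if n % 3 = 1 then r3 / 2 else -r3 / 2 := by
  unfold m2
  rw [one_sub_zt_eq, one_sub_zt2_eq]
  split_ifs <;> rfl

lemma mod3 (n : ℤ) : (n % 3 = 0 ∧ (-n) % 3 = 0) ∨ (n % 3 = 1 ∧ (-n) % 3 = 2) ∨ (n % 3 = 2 ∧ (-n) % 3 = 1) := by
  omega

lemma N1_zero_re (X s τ : A) (Ω : ℝ) (n : ℤ) : (N1 0 X s τ Ω n).re =
    -(bt n Ω * (kp n * (X n).re) + gm n Ω * (kp n * (X (-n)).re)) + 3 * (s n).re + 2 * mu Ω * (D1 * τ n).re := by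
  rw [N1_zero]
  unfold sgt tat
  simp only [A_add, A_sub, A_smulR, re'_apply, cD_apply, cDb_apply, cj_apply, del_apply, del1_apply]
  have h3 := r3_sq
  have hs : s0 ^ 3 = r3 / 9 := by
    unfold s0
    have : (r3 / 3) ^ 3 = r3 ^ 2 * r3 / 27 := by ring
    rw [this, h3]; ring
  have hs2 := s0_sq
  rw [kp_neg]
  set a := kp n * (X n).re
  set b := kp n * (X (-n)).re
  have hre1 := m1_re n
  have him1 := m1_im n
  have hre2 := m1_re (-n)
  have him2 := m1_im (-n)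
  have hD : D1.re = 3 / 2 := by rw [D1_eq]
  have hD' : D1.im = -r3 / 2 := by rw [D1_eq]
  have hsv : s0 = r3 / 3 := rfl
  simp only [Complex.add_re, Complex.sub_re, Complex.mul_re, Complex.ofReal_re, Complex.ofReal_im,
    Complex.conj_re, Complex.conj_im, Complex.mul_im, Complex.add_im, Complex.sub_im, map_mul,
    Complex.conj_ofReal, hD, hD', hre1, him1, hre2, him2]
  unfold bt gm pp mu
  rcases mod3 n with ⟨h1, h2⟩ | ⟨h1, h2⟩ | ⟨h1, h2⟩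
  all_goals
    simp only [h1, h2]
    norm_num
    rw [hsv]
    ring_nf
    simp only [r3_sq, r3_3, r3_4, r3_5, r3_6]
    ring

lemma N2_zero_re (X Y s τ : A) (Ω : ℝ) (n : ℤ) : (N2 0 X Y s τ Ω n).re =
    vt n Ω * (kp n * (((Y n).re + (Y (-n)).re) / 2)) := by
  rw [N2_zero]
  simp only [A_add, A_smulR, re'_apply, tht_apply, tht1_apply]
  have hsv : s0 = r3 / 3 := rfl
  set a := kp n * (((Y n).re + (Y (-n)).re) / 2)
  have hre1 := m2_re n
  simp only [Complex.add_re, Complex.mul_re, Complex.ofReal_re, Complex.ofReal_im, hre1]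
  unfold vt pp mu
  rcases mod3 n with ⟨h1, h2⟩ | ⟨h1, h2⟩ | ⟨h1, h2⟩
  all_goals
    simp only [h1]
    norm_num
    try (rw [hsv]; ring_nf; try simp only [r3_sq, r3_3, r3_4, r3_5, r3_6]; try ring)

lemma G1_zero_apply (X s τ : A) (ν Ω : ℝ) (n : ℤ) : G1 0 X s τ ν Ω n =
    ((((n * ν + Ω) ^ 2 + bt n Ω) * (kp n * (X n).re) + gm n Ω * (kp n * (X (-n)).re) - 3 * (s n).re
      - 2 * mu Ω * (D1 * τ n).re : ℝ) : ℂ) + y0 * (X n - (X n).re) := by
  unfold G1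
  rw [A_add, A_smulR, A_sub, re'_apply, re'_apply]
  congr 2
  simp only [A_sub, A_add, A_smulR, K2_apply, K1_apply, K0_apply, re'_apply, Complex.sub_re]
  rw [N1_zero_re]
  have : ∀ c d e f g h : ℝ, ((c : ℂ) * ((d : ℂ) * (e : ℂ)) + (f : ℂ) * ((g : ℂ) * (e : ℂ)) + (h : ℂ) * ((kp n : ℂ) * (e : ℂ))).re
      = c * (d * e) + f * (g * e) + h * (kp n * e) := by
    intro c d e f g h
    norm_cast
  rw [this]
  ring

lemma G2_zero_apply (X Y s τ : A) (ν Ω : ℝ) (n : ℤ) : G2 0 X Y s τ ν Ω n =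
    (((n ^ 2 * ν ^ 2 - vt n Ω) * (kp n * (((Y n).re + (Y (-n)).re) / 2)) : ℝ) : ℂ) +
      y0 * (Y n - (((Y n).re + (Y (-n)).re) / 2 : ℝ)) := by
  unfold G2
  rw [A_add, A_smulR, A_sub, pe_apply, pe_apply]
  congr 2
  simp only [A_sub, A_smulR, K2_apply, pe_apply, Complex.sub_re]
  rw [N2_zero_re, N2_zero_re]
  have hv : vt (-n) Ω = vt n Ω := by
    unfold vt
    rcases mod3 n with ⟨h1, h2⟩ | ⟨h1, h2⟩ | ⟨h1, h2⟩ <;> simp [h1, h2]
  rw [hv, kp_neg, neg_neg]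
  have : ∀ c d e : ℝ, ((c : ℂ) * ((d : ℂ) * (e : ℂ))).re = c * (d * e) := by
    intro c d e
    norm_cast
  rw [this, this]
  push_cast
  ring

end Pool.Agent.H399R4
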