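import Pool.Agent.H399R4.L4

set_option autoImplicit false

namespace Pool.Agent.H399R4

open Set Filter Topology MeasureTheory
open scoped NNReal ENNReal ComplexConjugate

noncomputable abbrev P4 := A × A × ℝ × ℝ

lemma mu_Om0 : mu Om0 = r3 * (y0 - 1) := by unfold mu; rw [Om0_sq]
lemma pp_Om0 : pp Om0 = p0 := by unfold pp p0; rw [mu_Om0]

/-- values of the coefficients at the resonance -/
noncomputable def b0 (n : ℤ) : ℝ := if n % 3 = 1 then p0 / 2 else y0 / 2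
noncomputable def g0 (n : ℤ) : ℝ := if n % 3 = 0 then 3 / 2 * y0 else if n % 3 = 1 then 3 / 2 else 3 / 2 * p0
noncomputable def v0 (n : ℤ) : ℝ := if n % 3 = 0 then p0 else y0

lemma bt_Om0 (n : ℤ) : bt n Om0 = b0 n := by
  unfold bt b0; rw [pp_Om0, Om0_sq]
lemma gm_Om0 (n : ℤ) : gm n Om0 = g0 n := by
  unfold gm g0; rw [pp_Om0, Om0_sq]
lemma vt_Om0 (n : ℤ) : vt n Om0 = v0 n := by
  unfold vt v0; rw [pp_Om0, Om0_sq]

lemma b0_le (n : ℤ) : 0 ≤ b0 n ∧ b0 n ≤ 20 := by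
  have h1 := p0_bounds
  have h2 := y0_bounds
  unfold b0; split_ifs <;> constructor <;> linarith
lemma g0_le (n : ℤ) : 0 ≤ g0 n ∧ g0 n ≤ 20 := by
  have h1 := p0_bounds
  have h2 := y0_bounds
  unfold g0; split_ifs <;> constructor <;> linarith
lemma v0_le (n : ℤ) : 0 ≤ v0 n ∧ v0 n ≤ 20 := by
  have h1 := p0_bounds
  have h2 := y0_bounds
  unfold v0; split_ifs <;> constructor <;> linarith

lemma kp_dec (n : ℤ) : kp n ≤ 2 / (1 + |(n:ℝ)|) := by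
  unfold kp
  rw [div_le_div_iff₀ (by positivity) (by positivity)]
  nlinarith [sq_abs (n:ℝ), sq_nonneg (|(n:ℝ)| - 1), abs_nonneg (n:ℝ), sq_nonneg (|(n:ℝ)| - 1/4)]

lemma n_kp_dec (n : ℤ) : |(n:ℝ)| * kp n ≤ 2 / (1 + |(n:ℝ)|) := by
  unfold kp
  rw [mul_one_div, div_le_div_iff₀ (by positivity) (by positivity)]
  nlinarith [sq_abs (n:ℝ), sq_nonneg (|(n:ℝ)| - 1), abs_nonneg (n:ℝ)]

lemma cc1_bound (n : ℤ) : |(2 * n * y0 + b0 n) * kp n / 2| ≤ 30 / (1 + |(n:ℝ)|) := by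
  have h1 := y0_bounds
  have h2 := b0_le n
  have h3 := kp_dec n
  have h4 := n_kp_dec n
  have h5 := kp_pos n
  have h6 : |2 * n * y0 + b0 n| ≤ 2 * |(n:ℝ)| * 3 + 20 := by
    refine (abs_add_le _ _).trans ?_
    rw [abs_mul, abs_mul, abs_two, abs_of_pos y0_pos, abs_of_nonneg h2.1]
    have := abs_nonneg (n:ℝ)
    nlinarith
  rw [abs_div, abs_mul, abs_of_pos h5, abs_two]
  have h7 : |2 * n * y0 + b0 n| * kp n ≤ (2 * |(n:ℝ)| * 3 + 20) * kp n := by gcongr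
  have h8 : 30 / (1 + |(n:ℝ)|) = 15 * (2 / (1 + |(n:ℝ)|)) := by ring
  rw [h8]
  nlinarith

lemma cc2_bound (n : ℤ) : |g0 n * kp n / 2| ≤ 30 / (1 + |(n:ℝ)|) := by
  have h2 := g0_le n
  have h3 := kp_dec n
  have h5 := kp_pos n
  rw [abs_of_nonneg (by have := h2.1; positivity)]
  have h8 : 30 / (1 + |(n:ℝ)|) = 15 * (2 / (1 + |(n:ℝ)|)) := by ring
  rw [h8]
  nlinarith

lemma cc3_bound (n : ℤ) : |(y0 + v0 n) * kp n / 4| ≤ 30 / (1 + |(n:ℝ)|) := by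
  have h1 := y0_bounds
  have h2 := v0_le n
  have h3 := kp_dec n
  have h5 := kp_pos n
  rw [abs_of_nonneg (by have := h2.1; have := y0_pos; positivity)]
  have h8 : 30 / (1 + |(n:ℝ)|) = 15 * (2 / (1 + |(n:ℝ)|)) := by ring
  rw [h8]
  nlinarith

lemma thirty (n : ℤ) : 30 / (1 + |(n:ℝ)|) ≤ 30 := by
  rw [div_le_iff₀ (by positivity)]
  have := abs_nonneg (n:ℝ)
  linarith

noncomputable def c1 : Coef where
  α := fun n => (((2 * n * y0 + b0 n) * kp n / 2 : ℝ) : ℂ)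
  β := fun n => (((2 * n * y0 + b0 n) * kp n / 2 : ℝ) : ℂ)
  γ := fun n => ((g0 n * kp n / 2 : ℝ) : ℂ)
  δ := fun n => ((g0 n * kp n / 2 : ℝ) : ℂ)
  C := 30
  h := fun n => by
    have h1 := (cc1_bound n).trans (thirty n)
    have h2 := (cc2_bound n).trans (thirty n)
    rw [Complex.norm_real, Real.norm_eq_abs, Complex.norm_real, Real.norm_eq_abs]
    exact ⟨h1, h1, h2, h2⟩

noncomputable def c2 : Coef where
  α := fun n => ((-((y0 + v0 n) * kp n / 4) : ℝ) : ℂ)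
  β := fun n => ((-((y0 + v0 n) * kp n / 4) : ℝ) : ℂ)
  γ := fun n => ((-((y0 + v0 n) * kp n / 4) : ℝ) : ℂ)
  δ := fun n => ((-((y0 + v0 n) * kp n / 4) : ℝ) : ℂ)
  C := 30
  h := fun n => by
    have h1 := (cc3_bound n).trans (thirty n)
    rw [Complex.norm_real, Real.norm_eq_abs, abs_neg]
    exact ⟨h1, h1, h1, h1⟩

lemma c1_compact : IsCompactOperator (op c1) := by
  apply op_compact c1 30
  intro n
  have h1 := cc1_bound n
  have h2 := cc2_bound n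
  simp only [c1]
  rw [Complex.norm_real, Real.norm_eq_abs, Complex.norm_real, Real.norm_eq_abs]
  exact ⟨h1, h1, h2, h2⟩

lemma c2_compact : IsCompactOperator (op c2) := by
  apply op_compact c2 30
  intro n
  have h1 := cc3_bound n
  simp only [c2]
  rw [Complex.norm_real, Real.norm_eq_abs, abs_neg]
  exact ⟨h1, h1, h1, h1⟩

lemma c1_apply (X : A) (n : ℤ) : op c1 X n =
    (((2 * n * y0 + b0 n) * kp n * (X n).re + g0 n * kp n * (X (-n)).re : ℝ) : ℂ) := by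
  rw [op_apply]
  simp only [c1]
  apply Complex.ext
  · simp only [Complex.add_re, Complex.re_ofReal_mul, Complex.conj_re, Complex.ofReal_re]
    ring
  · simp only [Complex.add_im, Complex.im_ofReal_mul, Complex.conj_im, Complex.ofReal_im]
    ring

lemma c2_apply (Y : A) (n : ℤ) : op c2 Y n =
    ((-((y0 + v0 n) * kp n * (((Y n).re + (Y (-n)).re) / 2)) : ℝ) : ℂ) := by
  rw [op_apply]
  simp only [c2]
  apply Complex.ext
  · simp only [Complex.add_re, Complex.re_ofReal_mul, Complex.conj_re, Complex.ofReal_re]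
    ring
  · simp only [Complex.add_im, Complex.im_ofReal_mul, Complex.conj_im, Complex.ofReal_im]
    ring

noncomputable def u1A : A := (-4 * Om0 * y0) • sg 1
noncomputable def v1A : A := (-y0 * Om0 * (4 + 3 * r3)) • sg 1 + (3 * p0 * Om0 - 9 * r3 * Om0 * y0) • sg (-1)
noncomputable def u2A : A := (2 * Om0) • (sg 1 + sg (-1))

noncomputable def reC (n : ℤ) : A →L[ℝ] ℝ := Complex.reCLM.comp (coord n)
@[simp] lemma reC_apply (n : ℤ) (a : A) : reC n a = (a n).re := rfl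

noncomputable def amp1 : A →L[ℝ] ℝ := reC 1
noncomputable def amp2 : A →L[ℝ] ℝ := (1/2 : ℝ) • (reC 1 + reC (-1))
lemma amp1_apply (a : A) : amp1 a = (a 1).re := rfl
lemma amp2_apply (a : A) : amp2 a = ((a 1).re + (a (-1)).re) / 2 := by
  unfold amp2
  simp
  ring

open ContinuousLinearMap in
noncomputable def Jf : (ℝ × ℝ × ℝ × ℝ) →L[ℝ] P4 :=
  ((smulRight (fst ℝ ℝ (ℝ × ℝ × ℝ)) u1A + smulRight ((fst ℝ ℝ (ℝ × ℝ)).comp (snd ℝ ℝ (ℝ × ℝ × ℝ))) v1A).prod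
    ((smulRight (fst ℝ ℝ (ℝ × ℝ × ℝ) - (fst ℝ ℝ (ℝ × ℝ)).comp (snd ℝ ℝ (ℝ × ℝ × ℝ))) u2A).prod
    (((fst ℝ ℝ ℝ).comp ((snd ℝ ℝ (ℝ × ℝ)).comp (snd ℝ ℝ (ℝ × ℝ × ℝ))) - y0 • fst ℝ ℝ (ℝ × ℝ × ℝ)).prod
    ((snd ℝ ℝ ℝ).comp ((snd ℝ ℝ (ℝ × ℝ)).comp (snd ℝ ℝ (ℝ × ℝ × ℝ))) -
      y0 • (fst ℝ ℝ (ℝ × ℝ)).comp (snd ℝ ℝ (ℝ × ℝ × ℝ))))))

open ContinuousLinearMap in
noncomputable def Qf : P4 →L[ℝ] (ℝ × ℝ × ℝ × ℝ) :=
  ((fst ℝ ℝ ℝ).comp ((snd ℝ A (ℝ × ℝ)).comp (snd ℝ A (A × ℝ × ℝ)))).prod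
    (((snd ℝ ℝ ℝ).comp ((snd ℝ A (ℝ × ℝ)).comp (snd ℝ A (A × ℝ × ℝ)))).prod
    ((amp1.comp (fst ℝ A (A × ℝ × ℝ))).prod (amp2.comp ((fst ℝ A (ℝ × ℝ)).comp (snd ℝ A (A × ℝ × ℝ))))))

open ContinuousLinearMap in
/-- compact part -/
noncomputable def Tc : P4 →L[ℝ] P4 :=
  (inl ℝ A (A × ℝ × ℝ)).comp ((op c1).comp (fst ℝ A (A × ℝ × ℝ))) +
  ((inr ℝ A (A × ℝ × ℝ)).comp ((inl ℝ A (ℝ × ℝ)).comp
    ((op c2).comp ((fst ℝ A (ℝ × ℝ)).comp (snd ℝ A (A × ℝ × ℝ)))))) +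
  Jf.comp Qf

lemma Tc_apply (X Y : A) (ν Ω : ℝ) : Tc (X, Y, ν, Ω) =
    (op c1 X + (ν • u1A + Ω • v1A), op c2 Y + (ν - Ω) • u2A, amp1 X - y0 * ν, amp2 Y - y0 * Ω) := by
  unfold Tc Jf Qf
  simp

lemma Tc_compact : IsCompactOperator Tc := by
  unfold Tc
  have hJ : IsCompactOperator (Jf : (ℝ × ℝ × ℝ × ℝ) →L[ℝ] P4) := isCompactOperator_of_locallyCompactSpace_rng Jf
  have h3 : IsCompactOperator (Jf.comp Qf) := hJ.comp_clm Qf
  refine IsCompactOperator.add (IsCompactOperator.add ?_ ?_) h3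
  · exact (c1_compact.comp_clm (ContinuousLinearMap.fst ℝ A (A × ℝ × ℝ))).clm_comp (ContinuousLinearMap.inl ℝ A (A × ℝ × ℝ))
  · exact ((c2_compact.comp_clm _).clm_comp (ContinuousLinearMap.inl ℝ A (ℝ × ℝ))).clm_comp (ContinuousLinearMap.inr ℝ A (A × ℝ × ℝ))

/-- reduced linear operator -/
noncomputable def L1 : P4 →L[ℝ] P4 := y0 • ContinuousLinearMap.id ℝ P4 + Tc

lemma L1_apply (X Y : A) (ν Ω : ℝ) : L1 (X, Y, ν, Ω) =
    (y0 • X + (op c1 X + (ν • u1A + Ω • v1A)), y0 • Y + (op c2 Y + (ν - Ω) • u2A), amp1 X, amp2 Y) := by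
  unfold L1
  rw [_root_.add_apply, Tc_apply]
  simp

end Pool.Agent.H399R4
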