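import Pool.Agent.H399R4.L5

set_option autoImplicit false

namespace Pool.Agent.H399R4

open Set Filter Topology MeasureTheory
open scoped NNReal ENNReal ComplexConjugate

lemma planar_zero {n : ℤ} {x x' : ℝ} (h1 : ((n + 1) ^ 2 * y0 + b0 n) * x + g0 n * x' = 0)
    (h2 : ((1 - n) ^ 2 * y0 + b0 (-n)) * x' + g0 (-n) * x = 0) (hn : n ≠ 1) (hn' : n ≠ -1)
    (hn0 : n = 0 → x = x') : x = 0 := by
  have hy := y0_bounds
  have hy0 := y0_pos
  have hp := p0_bounds
  have key : (((1 - n) ^ 2 * y0 + b0 (-n)) * ((n + 1) ^ 2 * y0 + b0 n) - g0 n * g0 (-n)) * x = 0 := by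
    have := congrArg (fun z => ((1 - n) ^ 2 * y0 + b0 (-n)) * z) h1
    have h3 := congrArg (fun z => g0 n * z) h2
    simp only [mul_zero] at this h3
    linarith
  rcases mod3 n with ⟨e1, e2⟩ | ⟨e1, e2⟩ | ⟨e1, e2⟩
  · by_cases h0 : n = 0
    · have hx := hn0 h0
      subst hx
      subst h0
      have hb : b0 0 = y0 / 2 := by unfold b0; norm_num
      have hg : g0 0 = 3 / 2 * y0 := by unfold g0; norm_num
      rw [hb, hg] at h1
      have : 3 * y0 * x = 0 := by push_cast at h1; linarith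
      rcases mul_eq_zero.1 this with h | h
      · nlinarith
      · exact h
    · have hb : b0 n = y0 / 2 := by unfold b0; rw [e1]; norm_num
      have hb' : b0 (-n) = y0 / 2 := by unfold b0; rw [e2]; norm_num
      have hg : g0 n = 3 / 2 * y0 := by unfold g0; rw [if_pos e1]
      have hg' : g0 (-n) = 3 / 2 * y0 := by unfold g0; rw [if_pos e2]
      rw [hb, hb', hg, hg'] at key
      have h4 : (((1 - (n:ℝ)) ^ 2 * y0 + y0 / 2) * ((n + 1) ^ 2 * y0 + y0 / 2) - 3 / 2 * y0 * (3 / 2 * y0)) =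
          y0 ^ 2 * ((n:ℝ) ^ 2 * (n ^ 2 - 1)) := by ring
      rw [h4] at key
      rcases mul_eq_zero.1 key with h | h
      · exfalso
        have h5 : (n:ℝ) ^ 2 * (n ^ 2 - 1) ≠ 0 := by
          have h6 : n ^ 2 * (n ^ 2 - 1) ≠ 0 := by
            have : n ^ 2 - 1 = (n - 1) * (n + 1) := by ring
            rw [this]
            apply mul_ne_zero (pow_ne_zero 2 h0)
            apply mul_ne_zero <;> omega
          exact_mod_cast h6
        rcases mul_eq_zero.1 h with h7 | h7
        · nlinarith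
        · exact h5 h7
      · exact h
  · have hb : b0 n = p0 / 2 := by unfold b0; rw [if_pos e1]
    have hb' : b0 (-n) = y0 / 2 := by unfold b0; rw [e2]; norm_num
    have hg : g0 n = 3 / 2 := by unfold g0; rw [e1]; norm_num
    have hg' : g0 (-n) = 3 / 2 * p0 := by unfold g0; rw [e2]; norm_num
    rw [hb, hb', hg, hg'] at key
    have h5 : (9:ℝ) ≤ (1 - n) ^ 2 := by
      have h6 : (9:ℤ) ≤ (1 - n) ^ 2 := by
        have : 1 - n ≤ -3 ∨ 3 ≤ 1 - n := by omega
        rcases this with h | h <;> nlinarith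
      exact_mod_cast h6
    have h6 : 0 ≤ ((n:ℝ) + 1) ^ 2 := by positivity
    rcases mul_eq_zero.1 key with h | h
    · exfalso
      have h7 : 0 ≤ ((1 - (n:ℝ)) ^ 2 * y0 + y0 / 2) * ((n + 1) ^ 2 * y0) := by positivity
      have h8 : 9 * y0 * (p0 / 2) ≤ ((1 - (n:ℝ)) ^ 2 * y0 + y0 / 2) * (p0 / 2) := by
        apply mul_le_mul_of_nonneg_right _ (by linarith)
        nlinarith
      nlinarith
    · exact h
  · have hb : b0 n = y0 / 2 := by unfold b0; rw [e1]; norm_num
    have hb' : b0 (-n) = p0 / 2 := by unfold b0; rw [if_pos e2]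
    have hg : g0 n = 3 / 2 * p0 := by unfold g0; rw [e1]; norm_num
    have hg' : g0 (-n) = 3 / 2 := by unfold g0; rw [e2]; norm_num
    rw [hb, hb', hg, hg'] at key
    have h5 : (9:ℝ) ≤ (n + 1) ^ 2 := by
      have h6 : (9:ℤ) ≤ (n + 1) ^ 2 := by
        have : n + 1 ≤ -3 ∨ 3 ≤ n + 1 := by omega
        rcases this with h | h <;> nlinarith
      exact_mod_cast h6
    rcases mul_eq_zero.1 key with h | h
    · exfalso
      have h7 : 0 ≤ ((1 - (n:ℝ)) ^ 2 * y0) * ((n + 1) ^ 2 * y0 + y0 / 2) := by positivity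
      have h8 : (p0 / 2) * (9 * y0) ≤ (p0 / 2) * ((n + 1) ^ 2 * y0 + y0 / 2) := by
        apply mul_le_mul_of_nonneg_left _ (by linarith)
        nlinarith
      nlinarith
    · exact h

lemma vert_ne {n : ℤ} (hn : n ≠ 1) (hn' : n ≠ -1) : (n:ℝ) ^ 2 * y0 - v0 n ≠ 0 := by
  have hy := y0_bounds
  have hp := p0_bounds
  unfold v0
  split_ifs with h
  · by_cases h0 : n = 0
    · subst h0; norm_num; linarith
    · have h6 : (9:ℝ) ≤ (n:ℝ) ^ 2 := by
        have h6 : (9:ℤ) ≤ n ^ 2 := by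
          have : n ≤ -3 ∨ 3 ≤ n := by omega
          rcases this with h | h <;> nlinarith
        exact_mod_cast h6
      intro h7
      nlinarith
  · intro h7
    have h8 : y0 * ((n:ℝ) ^ 2 - 1) = 0 := by linarith
    rcases mul_eq_zero.1 h8 with h9 | h9
    · linarith
    · have h10 : (n:ℝ) ^ 2 = ((1:ℤ):ℝ) := by push_cast; linarith
      have h11 : n ^ 2 = 1 := by exact_mod_cast h10
      have h12 : (n - 1) * (n + 1) = 0 := by nlinarith
      rcases mul_eq_zero.1 h12 with h | h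
      · exact hn (by omega)
      · exact hn' (by omega)


noncomputable def ru1 (n : ℤ) : ℝ := if n = 1 then -4 * Om0 * y0 else 0
noncomputable def rv1 (n : ℤ) : ℝ :=
  if n = 1 then -y0 * Om0 * (4 + 3 * r3) else if n = -1 then 3 * p0 * Om0 - 9 * r3 * Om0 * y0 else 0
noncomputable def ru2 (n : ℤ) : ℝ := if n = 1 then 2 * Om0 else if n = -1 then 2 * Om0 else 0

lemma u1A_apply (n : ℤ) : u1A n = (ru1 n : ℂ) := by
  unfold u1A ru1
  rw [A_smulR, sg_apply]
  split_ifs <;> simp
lemma v1A_apply (n : ℤ) : v1A n = (rv1 n : ℂ) := by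
  unfold v1A rv1
  rw [A_add, A_smulR, A_smulR, sg_apply, sg_apply]
  by_cases h : n = 1
  · subst h; norm_num
  · by_cases h' : n = -1
    · subst h'; norm_num
    · simp [h, h']
lemma u2A_apply (n : ℤ) : u2A n = (ru2 n : ℂ) := by
  unfold u2A ru2
  rw [A_smulR, A_add, sg_apply, sg_apply]
  by_cases h : n = 1
  · subst h; norm_num
  · by_cases h' : n = -1
    · subst h'; norm_num
    · simp [h, h']

lemma ofReal_part {c : ℝ} {z : ℂ} {r : ℝ} (hc : c ≠ 0) (h : (c : ℂ) * z + (r : ℂ) = 0) :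
    z.im = 0 ∧ c * z.re + r = 0 := by
  have h1 := congrArg Complex.im h
  have h2 := congrArg Complex.re h
  simp at h1 h2
  refine ⟨?_, h2⟩
  rcases h1 with h1 | h1
  · exact absurd h1 hc
  · exact h1

lemma L1_inj {X Y : A} {ν Ω : ℝ} (h : L1 (X, Y, ν, Ω) = 0) : X = 0 ∧ Y = 0 ∧ ν = 0 ∧ Ω = 0 := by
  rw [L1_apply] at h
  simp only [Prod.mk_eq_zero] at h
  obtain ⟨ha, hb, hc, hd⟩ := h
  rw [amp1_apply] at hc
  rw [amp2_apply] at hd
  have hy := y0_bounds
  have hy0 := y0_pos
  have hp := p0_bounds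
  have hO := Om0_pos
  have hr := r3_bounds
  -- planar coordinates
  have pX : ∀ n, (X n).im = 0 ∧ y0 * (X n).re +
      ((2 * n * y0 + b0 n) * kp n * (X n).re + g0 n * kp n * (X (-n)).re + (ν * ru1 n + Ω * rv1 n)) = 0 := by
    intro n
    have h1 : (y0 • X + (op c1 X + (ν • u1A + Ω • v1A))) n = 0 := by rw [ha]; rfl
    simp only [A_add, A_smulR, c1_apply, u1A_apply, v1A_apply] at h1
    apply ofReal_part hy0.ne'
    rw [← h1]
    push_cast
    ring
  have pY : ∀ n, (Y n).im = 0 ∧ y0 * (Y n).re +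
      (-((y0 + v0 n) * kp n * (((Y n).re + (Y (-n)).re) / 2)) + (ν - Ω) * ru2 n) = 0 := by
    intro n
    have h1 : (y0 • Y + (op c2 Y + (ν - Ω) • u2A)) n = 0 := by rw [hb]; rfl
    simp only [A_add, A_smulR, c2_apply, u2A_apply] at h1
    apply ofReal_part hy0.ne'
    rw [← h1]
    push_cast
    ring
  have hv : ∀ n, v0 (-n) = v0 n := by
    intro n
    unfold v0
    rcases mod3 n with ⟨h1, h2⟩ | ⟨h1, h2⟩ | ⟨h1, h2⟩ <;> simp [h1, h2]
  have hru : ∀ n, ru2 (-n) = ru2 n := by
    intro n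
    unfold ru2
    by_cases h1 : n = 1
    · subst h1; norm_num
    · by_cases h2 : n = -1
      · subst h2; norm_num
      · have h3 : ¬ (-n = 1) := by omega
        have h4 : ¬ (-n = -1) := by omega
        simp [h1, h2, h3]
  have evY : ∀ n, (Y n).re = (Y (-n)).re := by
    intro n
    have h1 := (pY n).2
    have h2 := (pY (-n)).2
    rw [hv, kp_neg, hru, neg_neg] at h2
    have h3 : y0 * ((Y n).re - (Y (-n)).re) = 0 := by linarith
    rcases mul_eq_zero.1 h3 with h4 | h4 <;> linarith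
  have qY : ∀ n : ℤ, ((n:ℝ) ^ 2 * y0 - v0 n) * (Y n).re + (1 + (n:ℝ) ^ 2) * ((ν - Ω) * ru2 n) = 0 := by
    intro n
    have h1 := (pY n).2
    rw [← evY n] at h1
    have h2 := kp_mul n
    have h3 : (1 + (n:ℝ) ^ 2) * (y0 * (Y n).re +
      (-((y0 + v0 n) * kp n * (((Y n).re + (Y n).re) / 2)) + (ν - Ω) * ru2 n)) = 0 := by
      rw [h1, mul_zero]
    have h4 : (1 + (n:ℝ) ^ 2) * (y0 * (Y n).re +
      (-((y0 + v0 n) * kp n * (((Y n).re + (Y n).re) / 2)) + (ν - Ω) * ru2 n)) =
      (1 + (n:ℝ) ^ 2) * (y0 * (Y n).re) - (kp n * (1 + (n:ℝ) ^ 2)) * ((y0 + v0 n) * (Y n).re) +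
        (1 + (n:ℝ) ^ 2) * ((ν - Ω) * ru2 n) := by ring
    rw [h4, h2] at h3
    linarith
  have hv1 : v0 1 = y0 := by unfold v0; norm_num
  have hνΩ : ν = Ω := by
    have h1 := qY 1
    rw [hv1] at h1
    have h2 : ru2 1 = 2 * Om0 := by unfold ru2; norm_num
    rw [h2] at h1
    push_cast at h1
    have h3 : Om0 * (ν - Ω) = 0 := by linarith
    rcases mul_eq_zero.1 h3 with h4 | h4 <;> linarith
  subst hνΩ
  have qX : ∀ n : ℤ, (((n:ℝ) + 1) ^ 2 * y0 + b0 n) * (X n).re + g0 n * (X (-n)).re +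
      (1 + (n:ℝ) ^ 2) * (ν * ru1 n + ν * rv1 n) = 0 := by
    intro n
    have h1 := (pX n).2
    have h2 := kp_mul n
    have h3 : (1 + (n:ℝ) ^ 2) * (y0 * (X n).re +
      ((2 * n * y0 + b0 n) * kp n * (X n).re + g0 n * kp n * (X (-n)).re + (ν * ru1 n + ν * rv1 n))) = 0 := by
      rw [h1, mul_zero]
    have h4 : (1 + (n:ℝ) ^ 2) * (y0 * (X n).re +
      ((2 * n * y0 + b0 n) * kp n * (X n).re + g0 n * kp n * (X (-n)).re + (ν * ru1 n + ν * rv1 n))) =
      (1 + (n:ℝ) ^ 2) * (y0 * (X n).re) + (kp n * (1 + (n:ℝ) ^ 2)) * ((2 * n * y0 + b0 n) * (X n).re + g0 n * (X (-n)).re) +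
        (1 + (n:ℝ) ^ 2) * (ν * ru1 n + ν * rv1 n) := by ring
    rw [h4, h2] at h3
    linarith
  -- the resonant block
  have b1 : b0 1 = p0 / 2 := by unfold b0; norm_num
  have bm1 : b0 (-1) = y0 / 2 := by unfold b0; norm_num
  have g1 : g0 1 = 3 / 2 := by unfold g0; norm_num
  have gm1 : g0 (-1) = 3 / 2 * p0 := by unfold g0; norm_num
  have q1 := qX 1
  have qm := qX (-1)
  rw [b1, g1, hc] at q1
  rw [bm1, gm1, neg_neg, hc] at qm
  have e1 : ru1 1 = -4 * Om0 * y0 := by unfold ru1; norm_num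
  have e2 : ru1 (-1) = 0 := by unfold ru1; norm_num
  have e3 : rv1 1 = -y0 * Om0 * (4 + 3 * r3) := by unfold rv1; norm_num
  have e4 : rv1 (-1) = 3 * p0 * Om0 - 9 * r3 * Om0 * y0 := by unfold rv1; norm_num
  rw [e1, e3] at q1
  rw [e2, e4] at qm
  push_cast at q1 qm
  have hx : (X (-1)).re = 4 / 3 * (ν * Om0 * y0 * (8 + 3 * r3)) := by linarith
  rw [hx] at qm
  have hν0 : ν = 0 := by
    have h1 : (ν * Om0) * ((2 / 3) * y0 ^ 2 * (8 + 3 * r3) + 6 * p0 - 18 * r3 * y0) = 0 := by
      linarith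
    rcases mul_eq_zero.1 h1 with h2 | h2
    · rcases mul_eq_zero.1 h2 with h3 | h3
      · exact h3
      · linarith
    · exfalso
      nlinarith
  subst hν0
  have hX : ∀ n, (X n).re = 0 := by
    intro n
    by_cases h1 : n = 1
    · subst h1; exact hc
    · by_cases h2 : n = -1
      · subst h2; rw [hx]; ring
      · apply planar_zero (n := n) (x' := (X (-n)).re) _ _ h1 h2
        · intro h3; subst h3; simp
        · have := qX n
          simp only [zero_mul, add_zero, mul_zero] at this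
          exact this
        · have := qX (-n)
          simp only [zero_mul, add_zero, mul_zero, neg_neg] at this
          rw [← this]
          push_cast
          ring
  have hY : ∀ n, (Y n).re = 0 := by
    intro n
    by_cases h1 : n = 1
    · subst h1
      have := evY 1
      linarith
    · by_cases h2 : n = -1
      · subst h2
        have := evY 1
        linarith
      · have h3 := qY n
        simp only [sub_self, zero_mul, mul_zero, add_zero] at h3
        rcases mul_eq_zero.1 h3 with h4 | h4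
        · exact absurd h4 (vert_ne h1 h2)
        · exact h4
  refine ⟨?_, ?_, rfl, rfl⟩
  · apply A_ext; intro n
    exact Complex.ext (hX n) (pX n).1
  · apply A_ext; intro n
    exact Complex.ext (hY n) (pY n).1

lemma L1_bij : Function.Bijective L1 := by
  have hy0 := y0_pos
  set T : P4 →L[ℝ] P4 := -((1 / y0) • Tc) with hT
  have hc : IsCompactOperator T := (Tc_compact.smul (1 / y0)).neg
  have hL : ∀ v, L1 v = y0 • (v - T v) := by
    intro v
    unfold L1
    rw [hT]
    simp only [_root_.add_apply, _root_.smul_apply, _root_.neg_apply, ContinuousLinearMap.id_apply]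
    rw [sub_neg_eq_add, smul_add, smul_smul, mul_one_div_cancel hy0.ne', one_smul]
  rcases hc.hasEigenvalue_or_mem_resolventSet (μ := (1:ℝ)) one_ne_zero with h | h
  · exfalso
    obtain ⟨v, hv⟩ := h.exists_hasEigenvector
    have h1 : T v = (1:ℝ) • v := hv.apply_eq_smul
    have h2 : L1 v = 0 := by rw [hL, h1, one_smul, sub_self, smul_zero]
    obtain ⟨X, Y, ν, Ω⟩ := v
    obtain ⟨hX, hY, h3, h4⟩ := L1_inj h2
    apply hv.2
    rw [hX, hY, h3, h4]
    rfl
  · rw [spectrum.mem_resolventSet_iff, ContinuousLinearMap.isUnit_iff_bijective] at h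
    constructor
    · intro v w hvw
      apply h.1
      have := hL v
      rw [hL v, hL w] at hvw
      have h2 := smul_right_injective P4 hy0.ne' hvw
      simpa using h2
    · intro w
      obtain ⟨v, hv⟩ := h.2 (y0⁻¹ • w)
      refine ⟨v, ?_⟩
      rw [hL]
      have h2 : v - T v = y0⁻¹ • w := by simpa using hv
      rw [h2, smul_smul, mul_inv_cancel₀ hy0.ne', one_smul]

end Pool.Agent.H399R4
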