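import Pool.Agent.H399R4.L6

set_option autoImplicit false

namespace Pool.Agent.H399R4

open Set Filter Topology MeasureTheory
open scoped NNReal ENNReal ComplexConjugate

noncomputable def X0 : A := (-2 * y0) • sg 1 + (6 * p0) • sg (-1)
noncomputable def Y0 : A := (2:ℝ) • sg 1 + (2:ℝ) • sg (-1)
noncomputable def U0 : E := (X0, Y0, 0, 0, Om0, Om0)

noncomputable def rx (n : ℤ) : ℝ := if n = 1 then -2 * y0 else if n = -1 then 6 * p0 else 0
noncomputable def ry (n : ℤ) : ℝ := if n = 1 then 2 else if n = -1 then 2 else 0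

lemma X0_apply (n : ℤ) : X0 n = (rx n : ℂ) := by
  unfold X0 rx
  rw [A_add, A_smulR, A_smulR, sg_apply, sg_apply]
  by_cases h : n = 1
  · subst h; norm_num
  · by_cases h' : n = -1
    · subst h'; norm_num
    · simp [h, h']
lemma Y0_apply (n : ℤ) : Y0 n = (ry n : ℂ) := by
  unfold Y0 ry
  rw [A_add, A_smulR, A_smulR, sg_apply, sg_apply]
  by_cases h : n = 1
  · subst h; norm_num
  · by_cases h' : n = -1
    · subst h'; norm_num
    · simp [h, h']

lemma X0_re (n : ℤ) : (X0 n).re = rx n := by rw [X0_apply, Complex.ofReal_re]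
lemma Y0_re (n : ℤ) : (Y0 n).re = ry n := by rw [Y0_apply, Complex.ofReal_re]

lemma kp_one : kp 1 = 1 / 2 := by unfold kp; norm_num
lemma kp_mone : kp (-1) = 1 / 2 := by unfold kp; norm_num

lemma ry_neg (n : ℤ) : ry (-n) = ry n := by
  unfold ry
  by_cases h1 : n = 1
  · subst h1; norm_num
  · by_cases h2 : n = -1
    · subst h2; norm_num
    · have h3 : ¬ (-n = 1) := by omega
      simp [h1, h2, h3]

lemma G_base : G (0, U0) = 0 := by
  unfold G U0
  simp only
  rw [G3_zero, G4_zero]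
  have h1 : G1 0 X0 0 0 Om0 Om0 = 0 := by
    apply A_ext; intro n
    rw [G1_zero_apply, X0_re, X0_re, bt_Om0, gm_Om0]
    simp only [A_zero, Complex.zero_re, mul_zero, sub_zero, X0_apply, sub_self, add_zero]
    rw [Complex.ofReal_eq_zero]
    have hr := res_rel
    have ho := Om0_sq
    by_cases h : n = 1
    · subst h
      have e1 : rx 1 = -2 * y0 := by unfold rx; norm_num
      have e2 : rx (-1) = 6 * p0 := by unfold rx; norm_num
      have e3 : b0 1 = p0 / 2 := by unfold b0; norm_num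
      have e4 : g0 1 = 3 / 2 := by unfold g0; norm_num
      rw [e1, e2, e3, e4, kp_one]
      push_cast
      have : (1 * Om0 + Om0) ^ 2 = 4 * Om0 ^ 2 := by ring
      rw [this, ho]
      nlinarith
    · by_cases h' : n = -1
      · subst h'
        have e1 : rx (-1) = 6 * p0 := by unfold rx; norm_num
        have e2 : rx (-(-1)) = -2 * y0 := by unfold rx; norm_num
        have e3 : b0 (-1) = y0 / 2 := by unfold b0; norm_num
        have e4 : g0 (-1) = 3 / 2 * p0 := by unfold g0; norm_num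
        rw [e1, e2, e3, e4, kp_mone]
        push_cast
        ring
      · have e1 : rx n = 0 := by unfold rx; simp [h, h']
        have e2 : rx (-n) = 0 := by
          unfold rx
          have h3 : ¬ (-n = 1) := by omega
          have h4 : ¬ (-n = -1) := by omega
          simp [h, h3]
        rw [e1, e2]; ring
  have h2 : G2 0 X0 Y0 0 0 Om0 Om0 = 0 := by
    apply A_ext; intro n
    rw [G2_zero_apply, Y0_re, Y0_re, vt_Om0, Y0_apply, ry_neg, Om0_sq]
    have e : (ry n + ry n) / 2 = ry n := by ring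
    rw [e, sub_self, mul_zero, add_zero, A_zero, Complex.ofReal_eq_zero]
    by_cases h : n = 1
    · subst h
      have : v0 1 = y0 := by unfold v0; norm_num
      rw [this]; push_cast; ring
    · by_cases h' : n = -1
      · subst h'
        have : v0 (-1) = y0 := by unfold v0; norm_num
        rw [this]; push_cast; ring
      · have e1 : ry n = 0 := by unfold ry; simp [h, h']
        rw [e1]; ring
  rw [h1, h2, X0_re, Y0_re, Y0_re]
  have e1 : rx 1 = -2 * y0 := by unfold rx; norm_num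
  have e2 : ry 1 = 2 := by unfold ry; norm_num
  have e3 : ry (-1) = 2 := by unfold ry; norm_num
  rw [e1, e2, e3]
  simp

/-! derivatives of the coefficients -/

noncomputable def bt' (n : ℤ) : ℝ := if n % 3 = 1 then 3 * r3 * Om0 else Om0
noncomputable def gm' (n : ℤ) : ℝ := if n % 3 = 0 then 3 * Om0 else if n % 3 = 1 then 0 else 9 * r3 * Om0
noncomputable def vt' (n : ℤ) : ℝ := if n % 3 = 0 then 6 * r3 * Om0 else 2 * Om0

lemma sq_deriv (x : ℝ) : HasDerivAt (fun x : ℝ => x ^ 2) (2 * x) x := by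
  simpa using hasDerivAt_pow 2 x

lemma mu_deriv (x : ℝ) : HasDerivAt mu (r3 * (2 * x)) x := by
  unfold mu
  exact ((sq_deriv x).sub_const 1).const_mul r3
lemma pp_deriv (x : ℝ) : HasDerivAt pp (3 * (r3 * (2 * x))) x := by
  unfold pp
  exact ((mu_deriv x).const_mul 3).const_add 1

lemma bt_deriv (n : ℤ) : HasDerivAt (bt n) (bt' n) Om0 := by
  unfold bt bt'
  split_ifs
  · exact ((pp_deriv Om0).div_const 2).congr_deriv (by ring)
  · exact ((sq_deriv Om0).div_const 2).congr_deriv (by ring)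
lemma gm_deriv (n : ℤ) : HasDerivAt (gm n) (gm' n) Om0 := by
  unfold gm gm'
  split_ifs
  · exact ((sq_deriv Om0).const_mul (3/2)).congr_deriv (by ring)
  · exact hasDerivAt_const _ _
  · exact ((pp_deriv Om0).const_mul (3/2)).congr_deriv (by ring)
lemma vt_deriv (n : ℤ) : HasDerivAt (vt n) (vt' n) Om0 := by
  unfold vt vt'
  split_ifs
  · exact (pp_deriv Om0).congr_deriv (by ring)
  · exact (sq_deriv Om0).congr_deriv (by ring)

lemma lin_deriv (a b : ℝ) : HasDerivAt (fun t : ℝ => a + t * b) b 0 := by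
  simpa using ((hasDerivAt_id (0:ℝ)).mul_const b).const_add a

lemma comp_lin {f : ℝ → ℝ} {f' : ℝ} (h : HasDerivAt f f' Om0) (b : ℝ) :
    HasDerivAt (fun t : ℝ => f (Om0 + t * b)) (f' * b) 0 := by
  have h1 := lin_deriv Om0 b
  have h2 : HasDerivAt f f' (Om0 + 0 * b) := by simpa using h
  exact h2.comp (0:ℝ) h1

lemma H1_deriv (n : ℤ) (a₀ a₁ b₀ b₁ s w ν Ω : ℝ) :
    HasDerivAt (fun t : ℝ => ((n * (Om0 + t * ν) + (Om0 + t * Ω)) ^ 2 + bt n (Om0 + t * Ω)) * (kp n * (a₀ + t * a₁)) +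
      gm n (Om0 + t * Ω) * (kp n * (b₀ + t * b₁)) - 3 * (t * s) - 2 * mu (Om0 + t * Ω) * (t * w))
    ((2 * (n + 1) * Om0 * (n * ν + Ω) + bt' n * Ω) * (kp n * a₀) + ((n + 1) ^ 2 * y0 + b0 n) * (kp n * a₁) +
      gm' n * Ω * (kp n * b₀) + g0 n * (kp n * b₁) - 3 * s - 2 * mu Om0 * w) 0 := by
  have e1 : HasDerivAt (fun t : ℝ => n * (Om0 + t * ν) + (Om0 + t * Ω)) (n * ν + Ω) 0 :=
    ((lin_deriv Om0 ν).const_mul (n:ℝ)).add (lin_deriv Om0 Ω)
  have e2 := (e1.pow 2).add (comp_lin (bt_deriv n) Ω)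
  have e3 := e2.mul ((lin_deriv a₀ a₁).const_mul (kp n))
  have e4 := (comp_lin (gm_deriv n) Ω).mul ((lin_deriv b₀ b₁).const_mul (kp n))
  have e5 : HasDerivAt (fun t : ℝ => 3 * (t * s)) (3 * s) 0 := by
    simpa using ((hasDerivAt_id (0:ℝ)).mul_const s).const_mul 3
  have e6 : HasDerivAt (fun t : ℝ => t * w) w 0 := by
    simpa using (hasDerivAt_id (0:ℝ)).mul_const w
  have e7 := ((comp_lin (mu_deriv Om0) Ω).const_mul 2).mul e6
  have e8 := ((e3.add e4).sub e5).sub e7
  refine e8.congr_deriv ?_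
  simp
  rw [bt_Om0, gm_Om0, ← Om0_sq]
  ring

lemma H2_deriv (n : ℤ) (a₀ a₁ ν Ω : ℝ) :
    HasDerivAt (fun t : ℝ => (n ^ 2 * (Om0 + t * ν) ^ 2 - vt n (Om0 + t * Ω)) * (kp n * (a₀ + t * a₁)))
    ((2 * n ^ 2 * Om0 * ν - vt' n * Ω) * (kp n * a₀) + (n ^ 2 * y0 - v0 n) * (kp n * a₁)) 0 := by
  have e1 := (((lin_deriv Om0 ν).pow 2).const_mul ((n:ℝ) ^ 2)).sub (comp_lin (vt_deriv n) Ω)
  have e3 := e1.mul ((lin_deriv a₀ a₁).const_mul (kp n))
  refine e3.congr_deriv ?_
  simp
  rw [vt_Om0, ← Om0_sq]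
  ring

end Pool.Agent.H399R4
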