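import Pool.Agent.H399R4.L7

set_option autoImplicit false

namespace Pool.Agent.H399R4

open Set Filter Topology MeasureTheory
open scoped NNReal ENNReal ComplexConjugate

/-- derivative of `G` -/
noncomputable def DG : ℝ × E →L[ℝ] E := fderiv ℝ G (0, U0)

lemma G_strict : HasStrictFDerivAt G DG (0, U0) :=
  G_contDiff.contDiffAt.hasStrictFDerivAt (by norm_num)

lemma path_deriv (V : E) : HasDerivAt (fun t : ℝ => G (0, U0 + t • V)) (DG (0, V)) 0 := by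
  have h1 : HasDerivAt (fun t : ℝ => ((0:ℝ), U0 + t • V)) ((0:ℝ), V) 0 := by
    apply HasDerivAt.prodMk (hasDerivAt_const _ _)
    simpa using ((hasDerivAt_id (0:ℝ)).smul_const V).const_add U0
  have h2 : HasFDerivAt G DG ((0:ℝ), U0 + (0:ℝ) • V) := by
    simpa using G_strict.hasFDerivAt
  exact h2.comp_hasDerivAt (0:ℝ) h1

lemma ru1_eq (n : ℤ) : 2 * (n + 1) * Om0 * n * (kp n * rx n) = ru1 n := by
  unfold rx ru1
  by_cases h : n = 1
  · subst h; rw [kp_one, if_pos rfl, if_pos rfl]; push_cast; ring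
  · by_cases h' : n = -1
    · subst h'; norm_num
    · simp [h, h']

lemma rv1_eq (n : ℤ) : (2 * (n + 1) * Om0 + bt' n) * (kp n * rx n) + gm' n * (kp n * rx (-n)) = rv1 n := by
  unfold rv1
  by_cases h : n = 1
  · subst h
    have e1 : rx 1 = -2 * y0 := by unfold rx; norm_num
    have e3 : bt' 1 = 3 * r3 * Om0 := by unfold bt'; norm_num
    have e4 : gm' 1 = 0 := by unfold gm'; norm_num
    rw [e1, e3, e4, kp_one, if_pos rfl]
    push_cast; ring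
  · by_cases h' : n = -1
    · subst h'
      have e1 : rx (-1) = 6 * p0 := by unfold rx; norm_num
      have e2 : rx (-(-1)) = -2 * y0 := by unfold rx; norm_num
      have e3 : bt' (-1) = Om0 := by unfold bt'; norm_num
      have e4 : gm' (-1) = 9 * r3 * Om0 := by unfold gm'; norm_num
      rw [e1, e2, e3, e4, kp_mone, if_neg h, if_pos rfl]
      push_cast; ring
    · have e1 : rx n = 0 := by unfold rx; simp [h, h']
      have e2 : rx (-n) = 0 := by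
        unfold rx
        have h3 : ¬ (-n = 1) := by omega
        simp [h, h3]
      rw [e1, e2, if_neg h, if_neg h']; ring

lemma ru2_eq (n : ℤ) (ν Ω : ℝ) : (2 * n ^ 2 * Om0 * ν - vt' n * Ω) * (kp n * ry n) = (ν - Ω) * ru2 n := by
  unfold ru2
  by_cases h : n = 1
  · subst h
    have e1 : ry 1 = 2 := by unfold ry; norm_num
    have e3 : vt' 1 = 2 * Om0 := by unfold vt'; norm_num
    rw [e1, e3, kp_one, if_pos rfl]
    push_cast; ring
  · by_cases h' : n = -1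
    · subst h'
      have e1 : ry (-1) = 2 := by unfold ry; norm_num
      have e3 : vt' (-1) = 2 * Om0 := by unfold vt'; norm_num
      rw [e1, e3, kp_mone, if_neg h, if_pos rfl]
      push_cast; ring
    · have e1 : ry n = 0 := by unfold ry; simp [h, h']
      rw [e1, if_neg h, if_neg h']; ring

lemma DG_1 (X Y s τ : A) (ν Ω : ℝ) (n : ℤ) : (DG (0, (X, Y, s, τ, ν, Ω))).1 n =
    (L1 (X, Y, ν, Ω)).1 n - ((3 * (s n).re + 2 * mu Om0 * (D1 * τ n).re : ℝ) : ℂ) := by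
  have h1 := path_deriv (X, Y, s, τ, ν, Ω)
  have h2 := ((coord n).comp (ContinuousLinearMap.fst ℝ A (A × A × A × ℝ × ℝ))).hasFDerivAt.comp_hasDerivAt (0:ℝ) h1
  have h3 : ((⇑((coord n).comp (ContinuousLinearMap.fst ℝ A (A × A × A × ℝ × ℝ)))) ∘
      fun t : ℝ => G (0, U0 + t • (X, Y, s, τ, ν, Ω))) = fun t : ℝ =>
      ((((n * (Om0 + t * ν) + (Om0 + t * Ω)) ^ 2 + bt n (Om0 + t * Ω)) * (kp n * (rx n + t * (X n).re)) +
      gm n (Om0 + t * Ω) * (kp n * (rx (-n) + t * (X (-n)).re)) - 3 * (t * (s n).re) -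
        2 * mu (Om0 + t * Ω) * (t * (D1 * τ n).re) : ℝ) : ℂ) + (y0 : ℂ) * ((t : ℂ) * (X n - (X n).re)) := by
    ext t
    have e : (((coord n).comp (ContinuousLinearMap.fst ℝ A (A × A × A × ℝ × ℝ))) ∘
      fun t : ℝ => G (0, U0 + t • (X, Y, s, τ, ν, Ω))) t =
      G1 0 (X0 + t • X) (0 + t • s) (0 + t • τ) (Om0 + t * ν) (Om0 + t * Ω) n := rfl
    rw [e, G1_zero_apply]
    simp only [zero_add, A_add, A_smulR, Complex.add_re, Complex.re_ofReal_mul, X0_re]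
    have e2 : (D1 * ((t:ℂ) * τ n)).re = t * (D1 * τ n).re := by
      rw [mul_left_comm, Complex.re_ofReal_mul]
    rw [e2, X0_apply]
    congr 1
    push_cast
    ring
  rw [h3] at h2
  have h4 := (H1_deriv n (rx n) (X n).re (rx (-n)) (X (-n)).re (s n).re (D1 * τ n).re ν Ω).ofReal_comp
  have h5 : HasDerivAt (fun t : ℝ => (y0 : ℂ) * ((t : ℂ) * (X n - (X n).re))) ((y0 : ℂ) * (X n - (X n).re)) 0 := by
    have := ((hasDerivAt_id (0:ℝ)).ofReal_comp.mul_const (X n - ((X n).re : ℂ))).const_mul (y0 : ℂ)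
    refine this.congr_deriv (by simp)
  have h6 := h2.unique (h4.add h5)
  have h7 : (DG (0, (X, Y, s, τ, ν, Ω))).1 n = ((coord n).comp (ContinuousLinearMap.fst ℝ A (A × A × A × ℝ × ℝ))) (DG (0, (X, Y, s, τ, ν, Ω))) := rfl
  rw [h7, h6, L1_apply]
  simp only [A_add, A_smulR, c1_apply, u1A_apply, v1A_apply]
  have k1 := ru1_eq n
  have k2 := rv1_eq n
  have k3 := kp_mul n
  rw [← k1, ← k2]
  have k4 : y0 = y0 * (kp n * (1 + (n:ℝ) ^ 2)) := by rw [k3, mul_one]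
  apply Complex.ext
  · simp only [Complex.add_re, Complex.sub_re, Complex.re_ofReal_mul, Complex.ofReal_re, Complex.mul_re, Complex.ofReal_im]
    have k5 : (((n:ℝ) + 1) ^ 2 * y0 + b0 n) * (kp n * (X n).re) = y0 * (kp n * (1 + (n:ℝ) ^ 2)) * (X n).re +
      (2 * n * y0 + b0 n) * kp n * (X n).re := by ring
    rw [k5, k3]
    ring
  · simp only [Complex.add_im, Complex.sub_im, Complex.im_ofReal_mul, Complex.ofReal_im, Complex.mul_im, Complex.ofReal_re]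
    ring

lemma DG_2 (X Y s τ : A) (ν Ω : ℝ) (n : ℤ) : (DG (0, (X, Y, s, τ, ν, Ω))).2.1 n =
    (L1 (X, Y, ν, Ω)).2.1 n := by
  have h1 := path_deriv (X, Y, s, τ, ν, Ω)
  set c := (coord n).comp ((ContinuousLinearMap.fst ℝ A (A × A × ℝ × ℝ)).comp (ContinuousLinearMap.snd ℝ A (A × A × A × ℝ × ℝ))) with hc
  have h2 := c.hasFDerivAt.comp_hasDerivAt (0:ℝ) h1
  have h3 : (⇑c ∘ fun t : ℝ => G (0, U0 + t • (X, Y, s, τ, ν, Ω))) = fun t : ℝ =>
      (((n ^ 2 * (Om0 + t * ν) ^ 2 - vt n (Om0 + t * Ω)) * (kp n * (ry n + t * (((Y n).re + (Y (-n)).re) / 2))) : ℝ) : ℂ)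
       + (y0 : ℂ) * ((t : ℂ) * (Y n - (((Y n).re + (Y (-n)).re) / 2 : ℝ))) := by
    ext t
    have e : (⇑c ∘ fun t : ℝ => G (0, U0 + t • (X, Y, s, τ, ν, Ω))) t =
      G2 0 (X0 + t • X) (Y0 + t • Y) (0 + t • s) (0 + t • τ) (Om0 + t * ν) (Om0 + t * Ω) n := rfl
    rw [e, G2_zero_apply]
    simp only [A_add, A_smulR, Complex.add_re, Complex.re_ofReal_mul, Y0_apply, ry_neg, Complex.ofReal_re]
    have e3 : (ry n + t * (Y n).re + (ry n + t * (Y (-n)).re)) / 2 = ry n + t * (((Y n).re + (Y (-n)).re) / 2) := by ring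
    rw [e3]
    congr 1
    push_cast
    ring
  rw [h3] at h2
  have h4 := (H2_deriv n (ry n) (((Y n).re + (Y (-n)).re) / 2) ν Ω).ofReal_comp
  have h5 : HasDerivAt (fun t : ℝ => (y0 : ℂ) * ((t : ℂ) * (Y n - (((Y n).re + (Y (-n)).re) / 2 : ℝ))))
      ((y0 : ℂ) * (Y n - (((Y n).re + (Y (-n)).re) / 2 : ℝ))) 0 := by
    have := ((hasDerivAt_id (0:ℝ)).ofReal_comp.mul_const (Y n - ((((Y n).re + (Y (-n)).re) / 2 : ℝ) : ℂ))).const_mul (y0 : ℂ)
    refine this.congr_deriv (by simp)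
  have h6 := h2.unique (h4.add h5)
  have h7 : (DG (0, (X, Y, s, τ, ν, Ω))).2.1 n = c (DG (0, (X, Y, s, τ, ν, Ω))) := rfl
  rw [h7, h6, L1_apply]
  simp only [A_add, A_smulR, c2_apply, u2A_apply]
  have k1 := ru2_eq n ν Ω
  have k3 := kp_mul n
  rw [k1]
  set yy := ((Y n).re + (Y (-n)).re) / 2
  have k5 : ((n:ℝ) ^ 2 * y0 - v0 n) * (kp n * yy) = y0 * (kp n * (1 + (n:ℝ) ^ 2)) * yy - (y0 + v0 n) * kp n * yy := by ring
  rw [k5, k3]
  push_cast
  ring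

lemma DG_3 (X Y s τ : A) (ν Ω : ℝ) : (DG (0, (X, Y, s, τ, ν, Ω))).2.2.1 = (2:ℝ) • s := by
  have h1 := path_deriv (X, Y, s, τ, ν, Ω)
  set c := (ContinuousLinearMap.fst ℝ A (A × ℝ × ℝ)).comp ((ContinuousLinearMap.snd ℝ A (A × A × ℝ × ℝ)).comp (ContinuousLinearMap.snd ℝ A (A × A × A × ℝ × ℝ))) with hc
  have h2 := c.hasFDerivAt.comp_hasDerivAt (0:ℝ) h1
  have h3 : (⇑c ∘ fun t : ℝ => G (0, U0 + t • (X, Y, s, τ, ν, Ω))) = fun t : ℝ => t • ((2:ℝ) • s) := by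
    ext1 t
    have e : (⇑c ∘ fun t : ℝ => G (0, U0 + t • (X, Y, s, τ, ν, Ω))) t =
      G3 0 (X0 + t • X) (Y0 + t • Y) (0 + t • s) (Om0 + t * Ω) := rfl
    rw [e, G3_zero]
    module
  rw [h3] at h2
  have h5 : HasDerivAt (fun t : ℝ => t • ((2:ℝ) • s)) ((2:ℝ) • s) 0 := by
    simpa using (hasDerivAt_id (0:ℝ)).smul_const ((2:ℝ) • s)
  exact h2.unique h5

lemma DG_4 (X Y s τ : A) (ν Ω : ℝ) : (DG (0, (X, Y, s, τ, ν, Ω))).2.2.2.1 = (6 * s0) • τ := by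
  have h1 := path_deriv (X, Y, s, τ, ν, Ω)
  set c := (ContinuousLinearMap.fst ℝ A (ℝ × ℝ)).comp ((ContinuousLinearMap.snd ℝ A (A × ℝ × ℝ)).comp ((ContinuousLinearMap.snd ℝ A (A × A × ℝ × ℝ)).comp (ContinuousLinearMap.snd ℝ A (A × A × A × ℝ × ℝ)))) with hc
  have h2 := c.hasFDerivAt.comp_hasDerivAt (0:ℝ) h1
  have h3 : (⇑c ∘ fun t : ℝ => G (0, U0 + t • (X, Y, s, τ, ν, Ω))) = fun t : ℝ => t • ((6 * s0) • τ) := by
    ext1 t
    have e : (⇑c ∘ fun t : ℝ => G (0, U0 + t • (X, Y, s, τ, ν, Ω))) t =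
      G4 0 (X0 + t • X) (Y0 + t • Y) (0 + t • τ) := rfl
    rw [e, G4_zero]
    module
  rw [h3] at h2
  have h5 : HasDerivAt (fun t : ℝ => t • ((6 * s0) • τ)) ((6 * s0) • τ) 0 := by
    simpa using (hasDerivAt_id (0:ℝ)).smul_const ((6 * s0) • τ)
  exact h2.unique h5

lemma DG_5 (X Y s τ : A) (ν Ω : ℝ) : (DG (0, (X, Y, s, τ, ν, Ω))).2.2.2.2 = (L1 (X, Y, ν, Ω)).2.2 := by
  have h1 := path_deriv (X, Y, s, τ, ν, Ω)
  set c := (ContinuousLinearMap.snd ℝ A (ℝ × ℝ)).comp ((ContinuousLinearMap.snd ℝ A (A × ℝ × ℝ)).comp ((ContinuousLinearMap.snd ℝ A (A × A × ℝ × ℝ)).comp (ContinuousLinearMap.snd ℝ A (A × A × A × ℝ × ℝ)))) with hc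
  have h2 := c.hasFDerivAt.comp_hasDerivAt (0:ℝ) h1
  have h3 : (⇑c ∘ fun t : ℝ => G (0, U0 + t • (X, Y, s, τ, ν, Ω))) = fun t : ℝ => t • ((amp1 X, amp2 Y) : ℝ × ℝ) := by
    ext1 t
    have e : (⇑c ∘ fun t : ℝ => G (0, U0 + t • (X, Y, s, τ, ν, Ω))) t =
      ((((X0 + t • X) 1).re - (-2 * y0), (((Y0 + t • Y) 1).re + ((Y0 + t • Y) (-1)).re) / 2 - 2) : ℝ × ℝ) := rfl
    rw [e]
    simp only [A_add, A_smulR, Complex.add_re, Complex.re_ofReal_mul, Y0_re, X0_re]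
    have e1 : rx 1 = -2 * y0 := by unfold rx; norm_num
    have e2 : ry 1 = 2 := by unfold ry; norm_num
    have e3 : ry (-1) = 2 := by unfold ry; norm_num
    rw [e1, e2, e3, amp1_apply, amp2_apply]
    apply Prod.ext
    · simp
    · simp; ring
  rw [h3] at h2
  have h5 : HasDerivAt (fun t : ℝ => t • ((amp1 X, amp2 Y) : ℝ × ℝ)) ((amp1 X, amp2 Y) : ℝ × ℝ) 0 := by
    simpa using (hasDerivAt_id (0:ℝ)).smul_const ((amp1 X, amp2 Y) : ℝ × ℝ)
  rw [L1_apply]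
  exact h2.unique h5

end Pool.Agent.H399R4
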