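import Pool.Agent.H399R4.L8

set_option autoImplicit false

namespace Pool.Agent.H399R4

open Set Filter Topology MeasureTheory
open scoped NNReal ENNReal ComplexConjugate

noncomputable def DE : E →L[ℝ] E := DG.comp (ContinuousLinearMap.inr ℝ ℝ E)

lemma DE_apply (V : E) : DE V = DG (0, V) := rfl

/-- coupling term -/
noncomputable def kk (s τ : A) : A := (3:ℝ) • re' s + (2 * mu Om0) • re' (cD τ)

lemma kk_apply (s τ : A) (n : ℤ) : kk s τ n = ((3 * (s n).re + 2 * mu Om0 * (D1 * τ n).re : ℝ) : ℂ) := by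
  unfold kk
  rw [A_add, A_smulR, A_smulR, re'_apply, re'_apply, cD_apply]
  push_cast
  ring

lemma DE_form (X Y s τ : A) (ν Ω : ℝ) : DE (X, Y, s, τ, ν, Ω) =
    ((L1 (X, Y, ν, Ω)).1 - kk s τ, (L1 (X, Y, ν, Ω)).2.1, (2:ℝ) • s, (6 * s0) • τ, (L1 (X, Y, ν, Ω)).2.2) := by
  rw [DE_apply]
  refine Prod.ext ?_ (Prod.ext ?_ (Prod.ext ?_ (Prod.ext ?_ ?_)))
  · apply A_ext; intro n
    simp only
    rw [DG_1, A_sub, kk_apply]
  · apply A_ext; intro n
    exact DG_2 X Y s τ ν Ω n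
  · exact DG_3 X Y s τ ν Ω
  · exact DG_4 X Y s τ ν Ω
  · exact DG_5 X Y s τ ν Ω

lemma DE_inj : Function.Injective DE := by
  rw [injective_iff_map_eq_zero]
  rintro ⟨X, Y, s, τ, ν, Ω⟩ h
  rw [DE_form] at h
  simp only [Prod.mk_eq_zero] at h
  obtain ⟨h1, h2, h3, h4, h5⟩ := h
  have hs : s = 0 := by
    rcases smul_eq_zero.1 h3 with h | h
    · norm_num at h
    · exact h
  have hτ : τ = 0 := by
    rcases smul_eq_zero.1 h4 with h | h
    · have := s0_pos; linarith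
    · exact h
  subst hs; subst hτ
  have hk : kk 0 0 = 0 := by unfold kk; simp
  rw [hk, sub_zero] at h1
  have hL : L1 (X, Y, ν, Ω) = 0 := Prod.ext h1 (Prod.ext h2 h5)
  obtain ⟨a, b, c, d⟩ := L1_inj hL
  rw [a, b, c, d]
  rfl

lemma DE_surj : Function.Surjective DE := by
  rintro ⟨w1, w2, w3, w4, w5⟩
  set s : A := (1/2 : ℝ) • w3 with hs
  set τ : A := (6 * s0)⁻¹ • w4 with hτ
  obtain ⟨⟨X, Y, ν, Ω⟩, hv⟩ := L1_bij.2 (w1 + kk s τ, w2, w5)
  refine ⟨(X, Y, s, τ, ν, Ω), ?_⟩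
  rw [DE_form, hv]
  simp only [add_sub_cancel_right]
  have h6 : (6 * s0) ≠ 0 := by have := s0_pos; positivity
  rw [hs, hτ, smul_smul, smul_smul, mul_inv_cancel₀ h6]
  norm_num

lemma DE_inv : DE.IsInvertible := by
  have h1 : DE.ker = ⊥ := LinearMap.ker_eq_bot.2 DE_inj
  have h2 : DE.range = ⊤ := LinearMap.range_eq_top.2 DE_surj
  exact ⟨ContinuousLinearEquiv.ofBijective DE h1 h2, ContinuousLinearEquiv.coe_ofBijective DE h1 h2⟩

/-- the branch of solutions -/
lemma exists_branch : ∃ (ψ : ℝ → E) (V : E), ψ 0 = U0 ∧ HasDerivAt ψ V 0 ∧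
    (∀ᶠ e in 𝓝 (0:ℝ), G (e, ψ e) = 0) ∧ DE V = -DG (1, 0) := by
  have hinv : (DG.comp (ContinuousLinearMap.inr ℝ ℝ E)).IsInvertible := DE_inv
  refine ⟨G_strict.implicitFunctionOfProdDomain hinv,
    -((DG.comp (ContinuousLinearMap.inr ℝ ℝ E)).inverse (DG (1, 0))), ?_, ?_, ?_, ?_⟩
  · exact (G_strict.eventually_apply_eq_iff_implicitFunctionOfProdDomain hinv).self_of_nhds.mp rfl
  · have h := (G_strict.hasStrictFDerivAt_implicitFunctionOfProdDomain hinv).hasFDerivAt.hasDerivAt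
    refine h.congr_deriv ?_
    simp [ContinuousLinearMap.comp_apply]
  · have h := G_strict.eventually_apply_implicitFunctionOfProdDomain hinv
    filter_upwards [h] with e he
    rw [he, G_base]
  · have h : DE ((DG.comp (ContinuousLinearMap.inr ℝ ℝ E)).inverse (DG (1, 0))) = DG (1, 0) := by
      exact hinv.self_apply_inverse (DG (1, 0))
    rw [map_neg, h]

/-! ### second order information -/

lemma cv_sg (a b : ℤ) : cv (sg a) (sg b) = sg (a + b) := by
  apply A_ext; intro n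
  rw [cv_apply, tsum_eq_single a]
  · simp only [sg_apply]
    have : n - a = b ↔ n = a + b := by omega
    simp [this]
  · intro k hk
    simp [sg_apply, hk]

lemma cj_sg (a : ℤ) : cj (sg a) = sg (-a) := by
  apply A_ext; intro n
  rw [cj_apply, sg_apply, sg_apply]
  have : -n = a ↔ n = -a := by omega
  split_ifs with h1 h2 h2
  · simp
  · exact absurd (this.1 h1) h2
  · exact absurd (this.2 h2) h1
  · simp

lemma chi_Y0 : chi Y0 = sg 1 + sg (-1) := by
  apply A_ext; intro n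
  rw [chi_apply, Y0_re, Y0_re, ry_neg, A_add, sg_apply, sg_apply]
  unfold ry
  by_cases h1 : n = 1
  · subst h1; rw [kp_one]; norm_num
  · by_cases h2 : n = -1
    · subst h2; rw [kp_mone]; norm_num
    · simp [h1, h2]

lemma eta_X0 : eta X0 = (-y0) • sg 1 + (3 * p0) • sg (-1) := by
  apply A_ext; intro n
  rw [eta_apply, X0_re, A_add, A_smulR, A_smulR, sg_apply, sg_apply]
  unfold rx
  by_cases h1 : n = 1
  · subst h1; rw [kp_one]; norm_num; ring
  · by_cases h2 : n = -1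
    · subst h2; rw [kp_mone]; norm_num; ring
    · simp [h1, h2]

lemma mulC_sg (α : ℤ → ℂ) (C : ℝ) (h : ∀ n, ‖α n‖ ≤ C) (k : ℤ) : op (mulC α C h) (sg k) = α k • sg k := by
  apply A_ext; intro n
  rw [mulC_apply, A_smulC, sg_apply]
  split_ifs with h1
  · rw [h1]
  · simp

end Pool.Agent.H399R4
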